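import Mathlib

/-!
# MEI, M2, regime I: volumes of thin sets near an edge (coordinates `(x, y, z)`, `z = √2/4 + w`)
-/

namespace Helper72.MEI

open MeasureTheory Set

/-- Fubini for a measurable set in `ℝ × ℝ × ℝ` whose `z`-slices have length at most `g x`. -/
theorem vol_le_slices {S : Set (ℝ × ℝ × ℝ)} (hS : MeasurableSet S) {a b : ℝ} (hab : a ≤ b)
    {φ ψ g : ℝ → ℝ} (hφ : Continuous φ) (hψ : Continuous ψ) (hg : Continuous g)
    (hφψ : ∀ x ∈ Icc a b, φ x ≤ ψ x) (hg0 : ∀ x ∈ Icc a b, 0 ≤ g x)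
    (h0 : ∀ q ∈ S, q.1 ∈ Icc a b ∧ q.2.1 ∈ Icc (φ q.1) (ψ q.1))
    (h1 : ∀ x ∈ Icc a b, ∀ y ∈ Icc (φ x) (ψ x),
      volume {z : ℝ | (x, y, z) ∈ S} ≤ ENNReal.ofReal (g x)) :
    volume S ≤ ENNReal.ofReal (∫ x in a..b, (ψ x - φ x) * g x) := by
  have hv : (volume : Measure (ℝ × ℝ × ℝ)) = (volume : Measure ℝ).prod volume := rfl
  rw [hv, Measure.prod_apply hS]
  have hx : ∀ x : ℝ, volume (Prod.mk x ⁻¹' S)
      ≤ (Icc a b).indicator (fun x => ENNReal.ofReal ((ψ x - φ x) * g x)) x := by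
    intro x
    have hSx : MeasurableSet (Prod.mk x ⁻¹' S) := measurable_prodMk_left hS
    have hv2 : (volume : Measure (ℝ × ℝ)) = (volume : Measure ℝ).prod volume := rfl
    by_cases hxI : x ∈ Icc a b
    · rw [indicator_of_mem hxI, hv2, Measure.prod_apply hSx]
      have hy : ∀ y : ℝ, volume (Prod.mk y ⁻¹' (Prod.mk x ⁻¹' S))
          ≤ (Icc (φ x) (ψ x)).indicator (fun _ => ENNReal.ofReal (g x)) y := by
        intro y
        by_cases hyI : y ∈ Icc (φ x) (ψ x)
        · rw [indicator_of_mem hyI]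
          exact h1 x hxI y hyI
        · rw [indicator_of_notMem hyI]
          have : Prod.mk y ⁻¹' (Prod.mk x ⁻¹' S) = ∅ := by
            ext z
            simp only [mem_preimage, mem_empty_iff_false, iff_false]
            intro hz
            exact hyI (h0 _ hz).2
          rw [this, measure_empty]
      calc ∫⁻ y, volume (Prod.mk y ⁻¹' (Prod.mk x ⁻¹' S))
          ≤ ∫⁻ y, (Icc (φ x) (ψ x)).indicator (fun _ => ENNReal.ofReal (g x)) y :=
            lintegral_mono hy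
        _ = ENNReal.ofReal (g x) * ENNReal.ofReal (ψ x - φ x) := by
            rw [lintegral_indicator measurableSet_Icc, setLIntegral_const, Real.volume_Icc]
        _ = ENNReal.ofReal ((ψ x - φ x) * g x) := by
            rw [ENNReal.ofReal_mul (sub_nonneg.2 (hφψ x hxI)), mul_comm]
    · rw [indicator_of_notMem hxI]
      have : Prod.mk x ⁻¹' S = ∅ := by
        ext z
        simp only [mem_preimage, mem_empty_iff_false, iff_false]
        intro hz
        exact hxI (h0 _ hz).1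
      rw [this, measure_empty]
  calc ∫⁻ x, volume (Prod.mk x ⁻¹' S)
      ≤ ∫⁻ x, (Icc a b).indicator (fun x => ENNReal.ofReal ((ψ x - φ x) * g x)) x :=
        lintegral_mono hx
    _ = ∫⁻ x in Icc a b, ENNReal.ofReal ((ψ x - φ x) * g x) :=
        lintegral_indicator measurableSet_Icc _
    _ = ENNReal.ofReal (∫ x in Icc a b, (ψ x - φ x) * g x) := by
        rw [ofReal_integral_eq_lintegral_ofReal]
        · exact ((hψ.sub hφ).mul hg).continuousOn.integrableOn_compact isCompact_Icc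
        · filter_upwards [ae_restrict_mem measurableSet_Icc] with x hx
          exact mul_nonneg (sub_nonneg.2 (hφψ x hx)) (hg0 x hx)
    _ = ENNReal.ofReal (∫ x in a..b, (ψ x - φ x) * g x) := by
        rw [intervalIntegral.integral_of_le hab, integral_Icc_eq_integral_Ioc]

/-- the set of `z > -c` with `(z + c)^2` in an interval of length `s` is short -/
theorem vol_sq_interval {c m s A : ℝ} (hm : 0 < m) :
    volume {z : ℝ | m ≤ z + c ∧ A < (z + c) ^ 2 ∧ (z + c) ^ 2 ≤ A + s}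
      ≤ ENNReal.ofReal (s / (2 * m)) := by
  set T := {z : ℝ | m ≤ z + c ∧ A < (z + c) ^ 2 ∧ (z + c) ^ 2 ≤ A + s} with hT
  rcases T.eq_empty_or_nonempty with h | ⟨z0, hz0⟩
  · rw [h, measure_empty]; exact bot_le
  · have hd : ∀ z ∈ T, ∀ z' ∈ T, z' - z ≤ s / (2 * m) := by
      intro z hz z' hz'
      obtain ⟨h1, h2, h3⟩ := hz
      obtain ⟨h1', h2', h3'⟩ := hz'
      rw [le_div_iff₀ (by positivity)]
      by_cases hzz : z ≤ z'
      · nlinarith
      · nlinarith
    have hbdd : Bornology.IsBounded T := by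
      rw [isBounded_iff_forall_norm_le]
      refine ⟨|z0| + s / (2 * m), fun z hz => ?_⟩
      have a1 := hd z hz z0 hz0
      have a2 := hd z0 hz0 z hz
      rw [Real.norm_eq_abs]
      have : |z - z0| ≤ s / (2 * m) := abs_le.2 ⟨by linarith, by linarith⟩
      calc |z| = |z0 + (z - z0)| := by ring_nf
        _ ≤ |z0| + |z - z0| := abs_add_le _ _
        _ ≤ |z0| + s / (2 * m) := by linarith
    calc volume T ≤ Metric.ediam T := Real.volume_le_diam T
      _ ≤ ENNReal.ofReal (s / (2 * m)) := by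
        apply Metric.ediam_le
        intro x hx y hy
        rw [edist_dist, Real.dist_eq]
        apply ENNReal.ofReal_le_ofReal
        have a1 := hd x hx y hy
        have a2 := hd y hy x hx
        exact abs_le.2 ⟨by linarith, by linarith⟩

/-- `Q_4` in the coordinates of the frame: `a_4 = (0, -1/2, -√2/4)`. -/
noncomputable def Q4 (q : ℝ × ℝ × ℝ) : ℝ :=
  q.1 ^ 2 + (q.2.1 + 1 / 2) ^ 2 + (q.2.2 + √2 / 4) ^ 2 - 1

/-- `Q_3` in the coordinates of the frame: `a_3 = (0, 1/2, -√2/4)`. -/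
noncomputable def Q3 (q : ℝ × ℝ × ℝ) : ℝ :=
  q.1 ^ 2 + (q.2.1 - 1 / 2) ^ 2 + (q.2.2 + √2 / 4) ^ 2 - 1

/-- half of the bulge over the edge cell -/
def Bu4 (s : ℝ) : Set (ℝ × ℝ × ℝ) :=
  {q | |q.1| ≤ 1 / 2 ∧ 0 ≤ q.2.1 ∧ √2 / 4 + √2 * q.2.1 ≤ q.2.2 ∧ 0 < Q4 q ∧ Q4 q ≤ s}

def Bu3 (s : ℝ) : Set (ℝ × ℝ × ℝ) :=
  {q | |q.1| ≤ 1 / 2 ∧ q.2.1 ≤ 0 ∧ √2 / 4 - √2 * q.2.1 ≤ q.2.2 ∧ 0 < Q3 q ∧ Q3 q ≤ s}

theorem Q4_cont : Continuous Q4 := by unfold Q4; fun_prop

theorem Q3_cont : Continuous Q3 := by unfold Q3; fun_prop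

theorem Bu4_meas (s : ℝ) : MeasurableSet (Bu4 s) := by
  unfold Bu4
  have := Q4_cont
  have c1 : Continuous (fun q : ℝ × ℝ × ℝ => |q.1|) := by fun_prop
  have c2 : Continuous (fun q : ℝ × ℝ × ℝ => q.2.1) := by fun_prop
  have c3 : Continuous (fun q : ℝ × ℝ × ℝ => √2 / 4 + √2 * q.2.1) := by fun_prop
  have c4 : Continuous (fun q : ℝ × ℝ × ℝ => q.2.2) := by fun_prop
  refine MeasurableSet.inter (measurableSet_le c1.measurable measurable_const) ?_
  refine MeasurableSet.inter (measurableSet_le measurable_const c2.measurable) ?_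
  refine MeasurableSet.inter (measurableSet_le c3.measurable c4.measurable) ?_
  exact MeasurableSet.inter (measurableSet_lt measurable_const this.measurable)
    (measurableSet_le this.measurable measurable_const)

theorem Bu3_meas (s : ℝ) : MeasurableSet (Bu3 s) := by
  unfold Bu3
  have := Q3_cont
  have c1 : Continuous (fun q : ℝ × ℝ × ℝ => |q.1|) := by fun_prop
  have c2 : Continuous (fun q : ℝ × ℝ × ℝ => q.2.1) := by fun_prop
  have c3 : Continuous (fun q : ℝ × ℝ × ℝ => √2 / 4 - √2 * q.2.1) := by fun_prop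
  have c4 : Continuous (fun q : ℝ × ℝ × ℝ => q.2.2) := by fun_prop
  refine MeasurableSet.inter (measurableSet_le c1.measurable measurable_const) ?_
  refine MeasurableSet.inter (measurableSet_le c2.measurable measurable_const) ?_
  refine MeasurableSet.inter (measurableSet_le c3.measurable c4.measurable) ?_
  exact MeasurableSet.inter (measurableSet_lt measurable_const this.measurable)
    (measurableSet_le this.measurable measurable_const)

/-- the bulge, every `s ≥ 0` -/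
theorem bulge4_gen {s : ℝ} (hs0 : 0 ≤ s) :
    volume (Bu4 s) ≤ ENNReal.ofReal ((0.0393 + 0.2358 * s) * s) := by
  have h2 : (√2 : ℝ) ^ 2 = 2 := Real.sq_sqrt (by norm_num)
  have h20 : (0 : ℝ) < √2 := Real.sqrt_pos.2 (by norm_num)
  have h2l : (1.41421 : ℝ) ≤ √2 := by
    rw [show (1.41421 : ℝ) = √(1.41421 ^ 2) by rw [Real.sqrt_sq]; norm_num]
    exact Real.sqrt_le_sqrt (by norm_num)
  have key := vol_le_slices (S := Bu4 s) (Bu4_meas s) (a := -(1 / 2)) (b := 1 / 2) (by norm_num)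
    (φ := fun _ => 0) (ψ := fun x => (1 / 4 + s - x ^ 2) / 3) (g := fun _ => s / √2)
    continuous_const (by fun_prop) continuous_const
    (by
      intro x hx
      have : x ^ 2 ≤ 1 / 4 := by nlinarith [hx.1, hx.2]
      show (0 : ℝ) ≤ (1 / 4 + s - x ^ 2) / 3
      linarith)
    (by intro x _; positivity)
    (by
      intro q hq
      obtain ⟨q1, q2, q3, q4, q5⟩ := hq
      refine ⟨abs_le.1 q1, q2, ?_⟩
      show q.2.1 ≤ (1 / 4 + s - q.1 ^ 2) / 3
      unfold Q4 at q5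
      have hw : √2 / 2 + √2 * q.2.1 ≤ q.2.2 + √2 / 4 := by linarith
      have hw0 : 0 ≤ √2 / 2 + √2 * q.2.1 := by positivity
      have hsq : (√2 / 2 + √2 * q.2.1) ^ 2 ≤ (q.2.2 + √2 / 4) ^ 2 := by
        apply pow_le_pow_left₀ hw0 hw
      have e : (√2 / 2 + √2 * q.2.1) ^ 2 = 1 / 2 + 2 * q.2.1 + 2 * q.2.1 ^ 2 := by
        have : (√2 / 2 + √2 * q.2.1) ^ 2 = √2 ^ 2 * (1 / 2 + q.2.1) ^ 2 := by ring
        rw [this, h2]; ring
      nlinarith [sq_nonneg q.2.1])
    (by
      intro x _ y hy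
      have hy0 : (0 : ℝ) ≤ y := hy.1
      refine le_trans (measure_mono ?_) (le_trans (vol_sq_interval (c := √2 / 4) (m := √2 / 2)
        (s := s) (A := 1 - x ^ 2 - (y + 1 / 2) ^ 2) (by positivity)) ?_)
      · intro z hz
        obtain ⟨_, _, q3, q4, q5⟩ := hz
        unfold Q4 at q4 q5
        simp only at q3 q4 q5
        refine ⟨?_, ?_, ?_⟩
        · have : 0 ≤ √2 * y := by positivity
          linarith
        · linarith
        · linarith
      · apply ENNReal.ofReal_le_ofReal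
        rw [show 2 * (√2 / 2) = √2 by ring])
  refine le_trans key (ENNReal.ofReal_le_ofReal ?_)
  have hd : ∀ x ∈ uIcc (-(1 / 2) : ℝ) (1 / 2), HasDerivAt
      (fun x : ℝ => ((1 / 4 + s) * x - x ^ 3 / 3) / 3 * (s / √2))
      (((1 / 4 + s - x ^ 2) / 3 - 0) * (s / √2)) x := by
    intro x _
    have h1 := (hasDerivAt_id' x).const_mul (1 / 4 + s)
    have h3 := (hasDerivAt_pow 3 x).div_const 3
    exact (((h1.sub h3).div_const 3).mul_const (s / √2)).congr_deriv (by
      push_cast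
      ring)
  rw [intervalIntegral.integral_eq_sub_of_hasDerivAt hd (by
    apply Continuous.intervalIntegrable; fun_prop)]
  have h4 : s / √2 ≤ s / 1.41421 := by
    apply div_le_div_of_nonneg_left hs0 (by norm_num) h2l
  have h5 : ((1 / 4 + s) * (1 / 2) - (1 / 2) ^ 3 / 3) / 3 * (s / √2)
      - ((1 / 4 + s) * (-(1 / 2)) - (-(1 / 2)) ^ 3 / 3) / 3 * (s / √2)
      = (1 / 6 + s) / 3 * (s / √2) := by ring
  rw [h5]
  have h6 : (1 / 6 + s) / 3 * (s / √2) ≤ (1 / 6 + s) / 3 * (s / 1.41421) :=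
    mul_le_mul_of_nonneg_left h4 (by positivity)
  have h7 : (1 / 6 + s) / 3 * (s / 1.41421)
      = (1 / (18 * 1.41421)) * s + (1 / (3 * 1.41421)) * s ^ 2 := by ring
  have h8 : (1 / (18 * 1.41421) : ℝ) * s ≤ 0.0393 * s :=
    mul_le_mul_of_nonneg_right (by norm_num) hs0
  have h9 : (1 / (3 * 1.41421) : ℝ) * s ^ 2 ≤ 0.2358 * s ^ 2 :=
    mul_le_mul_of_nonneg_right (by norm_num) (sq_nonneg s)
  calc _ ≤ _ := h6
    _ = _ := h7
    _ ≤ 0.0393 * s + 0.2358 * s ^ 2 := add_le_add h8 h9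
    _ = _ := by ring

/-- **(R5)** the bulge: its volume is at most `.04 s`. -/
theorem bulge4 {s : ℝ} (hs0 : 0 ≤ s) (hs : s ≤ 0.002) :
    volume (Bu4 s) ≤ ENNReal.ofReal (0.04 * s) := by
  refine (bulge4_gen hs0).trans (ENNReal.ofReal_le_ofReal ?_)
  apply mul_le_mul_of_nonneg_right _ hs0
  linarith

theorem refl_mp :
    MeasurePreserving (fun q : ℝ × ℝ × ℝ => (q.1, -q.2.1, q.2.2)) volume volume := by
  have h1 : MeasurePreserving (fun y : ℝ => -y) volume volume := Measure.measurePreserving_neg _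
  exact (MeasurePreserving.id volume).prod (h1.prod (MeasurePreserving.id volume))

/-- reflection `y ↦ -y` -/
theorem vol_Bu3 (s : ℝ) : volume (Bu3 s) = volume (Bu4 s) := by
  have hpre : (fun q : ℝ × ℝ × ℝ => (q.1, -q.2.1, q.2.2)) ⁻¹' (Bu4 s) = Bu3 s := by
    ext q
    simp only [mem_preimage, Bu4, Bu3, mem_ofPred_eq, Q4, Q3]
    constructor
    · rintro ⟨a, b, c, d, e⟩
      refine ⟨a, by linarith, by linarith, ?_, ?_⟩
      · calc (0 : ℝ) < _ := d
          _ = _ := by ring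
      · calc _ = _ := by ring
          _ ≤ s := e
    · rintro ⟨a, b, c, d, e⟩
      refine ⟨a, by linarith, by linarith, ?_, ?_⟩
      · calc (0 : ℝ) < _ := d
          _ = _ := by ring
      · calc _ = _ := by ring
          _ ≤ s := e
  rw [← hpre, refl_mp.measure_preimage (Bu4_meas s).nullMeasurableSet]

theorem bulge3 {s : ℝ} (hs0 : 0 ≤ s) (hs : s ≤ 0.002) :
    volume (Bu3 s) ≤ ENNReal.ofReal (0.04 * s) := by
  rw [vol_Bu3]
  exact bulge4 hs0 hs

theorem bulge3_gen {s : ℝ} (hs0 : 0 ≤ s) :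
    volume (Bu3 s) ≤ ENNReal.ofReal ((0.0393 + 0.2358 * s) * s) := by
  rw [vol_Bu3]
  exact bulge4_gen hs0

end Helper72.MEI
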