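import Mathlib

/-!
# MEI, M2, regime I: the volume of the layer (row R4 of the sheet)

Coordinates `q = (x, y, z)`, `z = √2/4 + w`, `r² = y² + w²`.
-/

namespace Helper72.MEI

open MeasureTheory Set
open scoped Pointwise

/-- Fubini: a measurable set whose `x`-slices have measure at most `G x`. -/
theorem vol_le_int {β : Type*} [MeasureSpace β] [SFinite (volume : Measure β)]
    {S : Set (ℝ × β)} (hS : MeasurableSet S) {a b : ℝ} (hab : a ≤ b)
    {G : ℝ → ℝ} (hG : Continuous G) (hG0 : ∀ x ∈ Icc a b, 0 ≤ G x)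
    (h0 : ∀ q ∈ S, q.1 ∈ Icc a b)
    (h1 : ∀ x ∈ Icc a b, volume (Prod.mk x ⁻¹' S) ≤ ENNReal.ofReal (G x)) :
    volume S ≤ ENNReal.ofReal (∫ x in a..b, G x) := by
  have hv : (volume : Measure (ℝ × β)) = (volume : Measure ℝ).prod volume := rfl
  rw [hv, Measure.prod_apply hS]
  have hx : ∀ x : ℝ, volume (Prod.mk x ⁻¹' S)
      ≤ (Icc a b).indicator (fun x => ENNReal.ofReal (G x)) x := by
    intro x
    by_cases hxI : x ∈ Icc a b
    · rw [indicator_of_mem hxI]
      exact h1 x hxI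
    · rw [indicator_of_notMem hxI]
      have : Prod.mk x ⁻¹' S = ∅ := by
        ext z
        simp only [mem_preimage, mem_empty_iff_false, iff_false]
        intro hz
        exact hxI (h0 _ hz)
      rw [this, measure_empty]
  calc ∫⁻ x, volume (Prod.mk x ⁻¹' S)
      ≤ ∫⁻ x, (Icc a b).indicator (fun x => ENNReal.ofReal (G x)) x :=
        lintegral_mono hx
    _ = ∫⁻ x in Icc a b, ENNReal.ofReal (G x) :=
        lintegral_indicator measurableSet_Icc _
    _ = ENNReal.ofReal (∫ x in Icc a b, G x) := by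
        rw [ofReal_integral_eq_lintegral_ofReal]
        · exact hG.continuousOn.integrableOn_compact isCompact_Icc
        · filter_upwards [ae_restrict_mem measurableSet_Icc] with x hx
          exact hG0 x hx
    _ = ENNReal.ofReal (∫ x in a..b, G x) := by
        rw [intervalIntegral.integral_of_le hab, integral_Icc_eq_integral_Ioc]

/-- polynomial upper bound of `√(1 - t^2)` -/
noncomputable def Pp (t : ℝ) : ℝ := 1 - t ^ 2 / 2 - t ^ 4 / 8 - t ^ 6 / 16

theorem Pp_sq (t : ℝ) : 1 - t ^ 2 ≤ Pp t ^ 2 := by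
  have : Pp t ^ 2 = 1 - t ^ 2 + (5 / 64) * (t ^ 4) ^ 2 + (1 / 64) * (t ^ 5) ^ 2
      + (1 / 256) * (t ^ 6) ^ 2 := by
    unfold Pp; ring
  rw [this]
  have h1 := sq_nonneg (t ^ 4)
  have h2 := sq_nonneg (t ^ 5)
  have h3 := sq_nonneg (t ^ 6)
  linarith

theorem Pp_anti {t c : ℝ} (h : |t| ≤ c) : Pp c ≤ Pp t := by
  have h2 : t ^ 2 ≤ c ^ 2 := sq_le_sq' (by linarith [neg_abs_le t]) (le_trans (le_abs_self t) h)
  have h20 := sq_nonneg t
  have h4 : t ^ 4 ≤ c ^ 4 := by
    have : (t ^ 2) ^ 2 ≤ (c ^ 2) ^ 2 := pow_le_pow_left₀ h20 h2 2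
    calc t ^ 4 = (t ^ 2) ^ 2 := by ring
      _ ≤ (c ^ 2) ^ 2 := this
      _ = c ^ 4 := by ring
  have h6 : t ^ 6 ≤ c ^ 6 := by
    have : (t ^ 2) ^ 3 ≤ (c ^ 2) ^ 3 := pow_le_pow_left₀ h20 h2 3
    calc t ^ 6 = (t ^ 2) ^ 3 := by ring
      _ ≤ (c ^ 2) ^ 3 := this
      _ = c ^ 6 := by ring
  unfold Pp
  linarith

/-- the circular sector of half angle `arctan (1/√2)` -/
def Cn : Set (ℝ × ℝ) := {p | √2 * |p.1| ≤ p.2 ∧ p.1 ^ 2 + p.2 ^ 2 ≤ 1}

def Cp : Set (ℝ × ℝ) := {p | 0 ≤ p.1 ∧ √2 * p.1 ≤ p.2 ∧ p.1 ^ 2 + p.2 ^ 2 ≤ 1}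

theorem Cn_meas : MeasurableSet Cn := by
  have c1 : Continuous (fun p : ℝ × ℝ => √2 * |p.1|) := by fun_prop
  have c2 : Continuous (fun p : ℝ × ℝ => p.2) := by fun_prop
  have c3 : Continuous (fun p : ℝ × ℝ => p.1 ^ 2 + p.2 ^ 2) := by fun_prop
  exact MeasurableSet.inter (measurableSet_le c1.measurable c2.measurable)
    (measurableSet_le c3.measurable measurable_const)

theorem Cp_meas : MeasurableSet Cp := by
  have c0 : Continuous (fun p : ℝ × ℝ => p.1) := by fun_prop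
  have c1 : Continuous (fun p : ℝ × ℝ => √2 * p.1) := by fun_prop
  have c2 : Continuous (fun p : ℝ × ℝ => p.2) := by fun_prop
  have c3 : Continuous (fun p : ℝ × ℝ => p.1 ^ 2 + p.2 ^ 2) := by fun_prop
  exact MeasurableSet.inter (measurableSet_le measurable_const c0.measurable)
    (MeasurableSet.inter (measurableSet_le c1.measurable c2.measurable)
      (measurableSet_le c3.measurable measurable_const))

theorem s2_sq : (√2 : ℝ) ^ 2 = 2 := Real.sq_sqrt (by norm_num)

theorem s2_pos : (0 : ℝ) < √2 := Real.sqrt_pos.2 (by norm_num)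

theorem s2_lb : (1.4142 : ℝ) ≤ √2 := by
  apply Real.le_sqrt_of_sq_le; norm_num

theorem s3_sq : (√3 : ℝ) ^ 2 = 3 := Real.sq_sqrt (by norm_num)

theorem s3_pos : (0 : ℝ) < √3 := Real.sqrt_pos.2 (by norm_num)

theorem s3_lb : (1.73205 : ℝ) ≤ √3 := by
  apply Real.le_sqrt_of_sq_le; norm_num

theorem vol_Cp : volume Cp ≤ ENNReal.ofReal 0.3079 := by
  have h20 := s2_pos
  have h2 := s2_sq
  have hlb := s2_lb
  have key := vol_le_int (S := Cp) Cp_meas (a := 0) (b := 0.57736) (by norm_num)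
    (G := fun y => Pp y - 1.4142 * y) (by unfold Pp; fun_prop)
    (by
      intro y hy
      have h1 : |y| ≤ 0.57736 := abs_le.2 ⟨by linarith [hy.1], hy.2⟩
      have h2 := Pp_anti h1
      have h3 : (0.8171 : ℝ) ≤ Pp 0.57736 := by unfold Pp; norm_num
      have h4 := hy.2
      show 0 ≤ Pp y - 1.4142 * y
      linarith)
    (by
      intro q hq
      obtain ⟨q1, q2, q3⟩ := hq
      refine ⟨q1, ?_⟩
      have hw : (√2 * q.1) ^ 2 ≤ q.2 ^ 2 := pow_le_pow_left₀ (by positivity) q2 2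
      have h3 : 3 * q.1 ^ 2 ≤ 1 := by
        rw [mul_pow, h2] at hw; linarith
      by_contra hc
      push Not at hc
      nlinarith)
    (by
      intro y hy
      have hy0 : 0 ≤ y := hy.1
      have h1 : |y| ≤ 0.57736 := abs_le.2 ⟨by linarith [hy.1], hy.2⟩
      have h5 := Pp_anti h1
      have h3 : (0.8171 : ℝ) ≤ Pp 0.57736 := by unfold Pp; norm_num
      refine le_trans (measure_mono (t := Icc (√2 * y) (Pp y)) ?_) ?_
      · intro w hw
        obtain ⟨_, q2, q3⟩ := hw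
        simp only at q2 q3
        refine ⟨q2, ?_⟩
        have := Pp_sq y
        by_contra hc
        push Not at hc
        have hP0 : 0 < Pp y := by linarith
        nlinarith
      · rw [Real.volume_Icc]
        apply ENNReal.ofReal_le_ofReal
        have := mul_le_mul_of_nonneg_right hlb hy0
        linarith)
  refine le_trans key (ENNReal.ofReal_le_ofReal ?_)
  have hd : ∀ y ∈ uIcc (0 : ℝ) 0.57736, HasDerivAt
      (fun y : ℝ => y - y ^ 3 / 6 - y ^ 5 / 40 - y ^ 7 / 112 - 0.7071 * y ^ 2)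
      (Pp y - 1.4142 * y) y := by
    intro y _
    have h1 := hasDerivAt_id' y
    have h3 := (hasDerivAt_pow 3 y).div_const 6
    have h5 := (hasDerivAt_pow 5 y).div_const 40
    have h7 := (hasDerivAt_pow 7 y).div_const 112
    have hh2 := (hasDerivAt_pow 2 y).const_mul (0.7071 : ℝ)
    exact ((((h1.sub h3).sub h5).sub h7).sub hh2).congr_deriv (by
      unfold Pp
      push_cast
      ring)
  rw [intervalIntegral.integral_eq_sub_of_hasDerivAt hd (by
    apply Continuous.intervalIntegrable; unfold Pp; fun_prop)]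
  norm_num

theorem vol_Cn : volume Cn ≤ ENNReal.ofReal 0.6158 := by
  have hmp : MeasurePreserving (fun q : ℝ × ℝ => (-q.1, q.2)) volume volume := by
    have h1 : MeasurePreserving (fun y : ℝ => -y) volume volume := Measure.measurePreserving_neg _
    exact h1.prod (MeasurePreserving.id volume)
  have hsub : Cn ⊆ Cp ∪ (fun q : ℝ × ℝ => (-q.1, q.2)) ⁻¹' Cp := by
    intro q hq
    obtain ⟨q1, q2⟩ := hq
    by_cases h : 0 ≤ q.1
    · left
      rw [abs_of_nonneg h] at q1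
      exact ⟨h, q1, q2⟩
    · right
      push Not at h
      rw [abs_of_neg h] at q1
      refine ⟨by show 0 ≤ -q.1; linarith, q1, ?_⟩
      show (-q.1) ^ 2 + q.2 ^ 2 ≤ 1
      linarith [neg_sq q.1]
  calc volume Cn ≤ volume Cp + volume ((fun q : ℝ × ℝ => (-q.1, q.2)) ⁻¹' Cp) :=
        (measure_mono hsub).trans (measure_union_le _ _)
    _ = volume Cp + volume Cp := by rw [hmp.measure_preimage Cp_meas.nullMeasurableSet]
    _ ≤ ENNReal.ofReal 0.3079 + ENNReal.ofReal 0.3079 := add_le_add vol_Cp vol_Cp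
    _ = ENNReal.ofReal 0.6158 := by
        rw [← ENNReal.ofReal_add (by norm_num) (by norm_num)]; norm_num

theorem mem_smul_Cn {R : ℝ} (hR : 0 < R) (p : ℝ × ℝ) :
    p ∈ R • Cn ↔ √2 * |p.1| ≤ p.2 ∧ p.1 ^ 2 + p.2 ^ 2 ≤ R ^ 2 := by
  rw [mem_smul_set_iff_inv_smul_mem₀ hR.ne']
  have e1 : (R⁻¹ • p).1 = R⁻¹ * p.1 := rfl
  have e2 : (R⁻¹ • p).2 = R⁻¹ * p.2 := rfl
  unfold Cn
  rw [mem_ofPred_eq, e1, e2, abs_mul, abs_of_pos (inv_pos.2 hR)]
  have hi : 0 < R⁻¹ := inv_pos.2 hR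
  constructor
  · rintro ⟨h1, h2⟩
    refine ⟨?_, ?_⟩
    · have : R⁻¹ * (√2 * |p.1|) ≤ R⁻¹ * p.2 := by linarith [h1]
      exact le_of_mul_le_mul_left this hi
    · have h3 : (R⁻¹ * p.1) ^ 2 + (R⁻¹ * p.2) ^ 2 = (p.1 ^ 2 + p.2 ^ 2) / R ^ 2 := by
        field_simp
      rw [h3, div_le_one (by positivity)] at h2
      exact h2
  · rintro ⟨h1, h2⟩
    refine ⟨?_, ?_⟩
    · have := mul_le_mul_of_nonneg_left h1 hi.le
      linarith
    · have h3 : (R⁻¹ * p.1) ^ 2 + (R⁻¹ * p.2) ^ 2 = (p.1 ^ 2 + p.2 ^ 2) / R ^ 2 := by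
        field_simp
      rw [h3, div_le_one (by positivity)]
      exact h2

theorem vol_smul_Cn (R : ℝ) :
    volume (R • Cn) = ENNReal.ofReal (R ^ 2 * (volume Cn).toReal) := by
  rw [Measure.addHaar_smul, ENNReal.ofReal_mul (by positivity), ENNReal.ofReal_toReal
    (ne_top_of_le_ne_top ENNReal.ofReal_ne_top vol_Cn)]
  have : Module.finrank ℝ (ℝ × ℝ) = 2 := by simp
  rw [this, abs_of_nonneg (by positivity)]

theorem annulus {R δ : ℝ} (hR : 0 ≤ R) (hδ : 0 ≤ δ) :
    volume {p : ℝ × ℝ | √2 * |p.1| ≤ p.2 ∧ √(p.1 ^ 2 + p.2 ^ 2) ≤ R ∧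
      R - δ < √(p.1 ^ 2 + p.2 ^ 2)} ≤ ENNReal.ofReal (0.6158 * (2 * R * δ)) := by
  set S := {p : ℝ × ℝ | √2 * |p.1| ≤ p.2 ∧ √(p.1 ^ 2 + p.2 ^ 2) ≤ R ∧
      R - δ < √(p.1 ^ 2 + p.2 ^ 2)} with hS
  have hV : (volume Cn).toReal ≤ 0.6158 := ENNReal.toReal_le_of_le_ofReal (by norm_num) vol_Cn
  have hV0 : 0 ≤ (volume Cn).toReal := ENNReal.toReal_nonneg
  rcases hR.eq_or_lt with h | hR0
  · have hsub : S ⊆ {(0 : ℝ × ℝ)} := by
      intro p hp
      obtain ⟨_, p2, _⟩ := hp
      rw [← h] at p2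
      have h1 : p.1 ^ 2 + p.2 ^ 2 ≤ 0 := Real.sqrt_eq_zero'.1 (le_antisymm p2 (Real.sqrt_nonneg _))
      have h2 : p.1 = 0 := by nlinarith [sq_nonneg p.1, sq_nonneg p.2]
      have h3 : p.2 = 0 := by nlinarith [sq_nonneg p.1, sq_nonneg p.2]
      exact Prod.ext h2 h3
    calc volume S ≤ volume {(0 : ℝ × ℝ)} := measure_mono hsub
      _ = 0 := measure_singleton _
      _ ≤ _ := bot_le
  have hsub : S ⊆ R • Cn := by
    intro p hp
    obtain ⟨p1, p2, _⟩ := hp
    rw [mem_smul_Cn hR0]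
    exact ⟨p1, (Real.sqrt_le_left hR).1 p2⟩
  by_cases hρ : R - δ ≤ 0
  · calc volume S ≤ volume (R • Cn) := measure_mono hsub
      _ = ENNReal.ofReal (R ^ 2 * (volume Cn).toReal) := vol_smul_Cn R
      _ ≤ _ := by
        apply ENNReal.ofReal_le_ofReal
        have h1 : R ^ 2 ≤ R * δ := by nlinarith
        have h2 : R ^ 2 * (volume Cn).toReal ≤ (R * δ) * 0.6158 := by
          apply mul_le_mul h1 hV hV0 (by positivity)
        have h3 : 0 ≤ R * δ := by positivity
        linarith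
  · push Not at hρ
    have hsub2 : S ⊆ (R • Cn) \ ((R - δ) • Cn) := by
      intro p hp
      refine ⟨hsub hp, ?_⟩
      obtain ⟨p1, p2, p3⟩ := hp
      rw [mem_smul_Cn hρ]
      rintro ⟨_, h2⟩
      have : √(p.1 ^ 2 + p.2 ^ 2) ≤ R - δ := (Real.sqrt_le_left hρ.le).2 h2
      linarith
    have hmono : (R - δ) • Cn ⊆ R • Cn := by
      intro p hp
      rw [mem_smul_Cn hρ] at hp
      rw [mem_smul_Cn hR0]
      refine ⟨hp.1, hp.2.trans ?_⟩
      apply pow_le_pow_left₀ hρ.le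
      linarith
    have hm : MeasurableSet ((R - δ) • Cn) := Cn_meas.const_smul₀ _
    calc volume S ≤ volume ((R • Cn) \ ((R - δ) • Cn)) := measure_mono hsub2
      _ = volume (R • Cn) - volume ((R - δ) • Cn) := by
        rw [measure_sdiff hmono hm.nullMeasurableSet]
        rw [vol_smul_Cn (R - δ)]
        exact ENNReal.ofReal_ne_top
      _ = ENNReal.ofReal (R ^ 2 * (volume Cn).toReal - (R - δ) ^ 2 * (volume Cn).toReal) := by
        rw [vol_smul_Cn (R - δ), vol_smul_Cn R, ENNReal.ofReal_sub _ (by positivity)]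
      _ ≤ _ := by
        apply ENNReal.ofReal_le_ofReal
        have h1 : R ^ 2 * (volume Cn).toReal - (R - δ) ^ 2 * (volume Cn).toReal
            = (2 * R * δ - δ ^ 2) * (volume Cn).toReal := by ring
        have h2 : (2 * R * δ - δ ^ 2) * (volume Cn).toReal ≤ (2 * R * δ) * 0.6158 := by
          apply mul_le_mul (by nlinarith [sq_nonneg δ]) hV hV0 (by positivity)
        rw [h1]
        linarith

/-- distance to the edge `a_1 a_2` -/
noncomputable def rr (q : ℝ × ℝ × ℝ) : ℝ := √(q.2.1 ^ 2 + (q.2.2 - √2 / 4) ^ 2)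

/-- `η = μ_1 s_1 + μ_2 s_2`, `μ = (1/2)(1 + r/(√3/2)) ± x` -/
noncomputable def eta (s1 s2 : ℝ) (q : ℝ × ℝ × ℝ) : ℝ :=
  (1 / 2 * (1 + rr q / (√3 / 2)) + q.1) * s1 + (1 / 2 * (1 + rr q / (√3 / 2)) - q.1) * s2

/-- the layer below the surface of the body `A_X` -/
def Lay (s1 s2 : ℝ) : Set (ℝ × ℝ × ℝ) :=
  {q | |q.1| ≤ 1 / 2 ∧ √2 * |q.2.1| ≤ q.2.2 - √2 / 4 ∧
    q.1 ^ 2 + rr q ^ 2 + √3 * rr q ≤ 1 / 4 ∧
    1 / 4 < q.1 ^ 2 + rr q ^ 2 + √3 * rr q + eta s1 s2 q}

theorem rr_cont : Continuous rr := by unfold rr; fun_prop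

theorem eta_cont (s1 s2 : ℝ) : Continuous (eta s1 s2) := by
  unfold eta
  have := rr_cont
  fun_prop

theorem Lay_meas (s1 s2 : ℝ) : MeasurableSet (Lay s1 s2) := by
  have c0 := rr_cont
  have c1 := eta_cont s1 s2
  have c2 : Continuous (fun q : ℝ × ℝ × ℝ => |q.1|) := by fun_prop
  have c3 : Continuous (fun q : ℝ × ℝ × ℝ => √2 * |q.2.1|) := by fun_prop
  have c4 : Continuous (fun q : ℝ × ℝ × ℝ => q.2.2 - √2 / 4) := by fun_prop
  have c5 : Continuous (fun q : ℝ × ℝ × ℝ => q.1 ^ 2 + rr q ^ 2 + √3 * rr q) := by fun_prop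
  have c6 : Continuous (fun q : ℝ × ℝ × ℝ => q.1 ^ 2 + rr q ^ 2 + √3 * rr q + eta s1 s2 q) := by
    fun_prop
  exact MeasurableSet.inter (measurableSet_le c2.measurable measurable_const)
    (MeasurableSet.inter (measurableSet_le c3.measurable c4.measurable)
      (MeasurableSet.inter (measurableSet_le c5.measurable measurable_const)
        (measurableSet_lt measurable_const c6.measurable)))

/-- the slice of the layer -/
theorem lay_slice {s1 s2 x : ℝ} (h1 : 0 ≤ s1) (h2 : 0 ≤ s2) (hx : |x| ≤ 1 / 2) :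
    volume (Prod.mk x ⁻¹' Lay s1 s2) ≤ ENNReal.ofReal (0.6158 * (2 * (Pp x - 0.86602) *
      (0.57736 * ((1 / 2 * (1 + 1.15471 * (Pp x - 0.86602)) + x) * s1
        + (1 / 2 * (1 + 1.15471 * (Pp x - 0.86602)) - x) * s2)))) := by
  have h3 := s3_sq
  have h30 := s3_pos
  have h3l := s3_lb
  have hx2 : x ^ 2 ≤ 1 / 4 := by
    have := abs_le.1 hx
    nlinarith
  set R := √(1 - x ^ 2) - √3 / 2 with hRd
  have hRs : √(1 - x ^ 2) ^ 2 = 1 - x ^ 2 := Real.sq_sqrt (by linarith)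
  have hR0 : 0 ≤ R := by
    have : √3 / 2 ≤ √(1 - x ^ 2) := by
      apply Real.le_sqrt_of_sq_le
      rw [div_pow, h3]; linarith
    linarith
  have hRe : R ^ 2 + √3 * R = 1 / 4 - x ^ 2 := by
    rw [hRd]; nlinarith
  have hPp : 0 ≤ Pp x := by
    have := Pp_anti hx
    have h' : (0.8 : ℝ) ≤ Pp (1 / 2) := by unfold Pp; norm_num
    linarith
  have hRP : R ≤ Pp x - 0.86602 := by
    have h5 : √(1 - x ^ 2) ≤ Pp x := (Real.sqrt_le_left hPp).2 (Pp_sq x)
    linarith
  set m1 := 1 / 2 * (1 + R / (√3 / 2)) + x with hm1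
  set m2 := 1 / 2 * (1 + R / (√3 / 2)) - x with hm2
  have hRk : 0 ≤ R / (√3 / 2) := by positivity
  have hm10 : 0 ≤ m1 := by have := (abs_le.1 hx).1; linarith
  have hm20 : 0 ≤ m2 := by have := (abs_le.1 hx).2; linarith
  set e := m1 * s1 + m2 * s2 with he
  have he0 : 0 ≤ e := by positivity
  -- inclusion of the slice in a sector of an annulus
  have hinc : Prod.mk x ⁻¹' Lay s1 s2 ⊆ (fun p : ℝ × ℝ => p - (0, √2 / 4)) ⁻¹'
      {p : ℝ × ℝ | √2 * |p.1| ≤ p.2 ∧ √(p.1 ^ 2 + p.2 ^ 2) ≤ R ∧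
        R - e / √3 < √(p.1 ^ 2 + p.2 ^ 2)} := by
    intro p hp
    obtain ⟨_, p2, p3, p4⟩ := hp
    have er : rr (x, p) = √((p - (0, √2 / 4)).1 ^ 2 + (p - (0, √2 / 4)).2 ^ 2) := by
      unfold rr
      simp
    set r := rr (x, p) with hr
    have hr0 : 0 ≤ r := Real.sqrt_nonneg _
    simp only at p2 p3 p4
    have hrR : r ≤ R := by
      by_contra hc
      push Not at hc
      nlinarith
    refine ⟨?_, ?_, ?_⟩
    · show √2 * |p.1 - 0| ≤ p.2 - √2 / 4
      rw [sub_zero]; exact p2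
    · rw [← er]; exact hrR
    · rw [← er]
      have heta : eta s1 s2 (x, p) ≤ e := by
        have hq : r / (√3 / 2) ≤ R / (√3 / 2) := by gcongr
        unfold eta
        rw [← hr, he, hm1, hm2]
        have a1 := mul_le_mul_of_nonneg_right hq h1
        have a2 := mul_le_mul_of_nonneg_right hq h2
        simp only
        linarith
      have hlt : (R - r) * √3 < e := by nlinarith
      have : R - r < e / √3 := by
        rw [lt_div_iff₀ h30]; exact hlt
      linarith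
  have hmp : MeasurePreserving (fun p : ℝ × ℝ => p - (0, √2 / 4)) volume volume :=
    measurePreserving_sub_right volume _
  have hmeas : MeasurableSet {p : ℝ × ℝ | √2 * |p.1| ≤ p.2 ∧ √(p.1 ^ 2 + p.2 ^ 2) ≤ R ∧
        R - e / √3 < √(p.1 ^ 2 + p.2 ^ 2)} := by
    have c1 : Continuous (fun p : ℝ × ℝ => √2 * |p.1|) := by fun_prop
    have c2 : Continuous (fun p : ℝ × ℝ => p.2) := by fun_prop
    have c3 : Continuous (fun p : ℝ × ℝ => √(p.1 ^ 2 + p.2 ^ 2)) := by fun_prop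
    exact MeasurableSet.inter (measurableSet_le c1.measurable c2.measurable)
      (MeasurableSet.inter (measurableSet_le c3.measurable measurable_const)
        (measurableSet_lt measurable_const c3.measurable))
  calc volume (Prod.mk x ⁻¹' Lay s1 s2) ≤ _ := measure_mono hinc
    _ = _ := hmp.measure_preimage hmeas.nullMeasurableSet
    _ ≤ ENNReal.ofReal (0.6158 * (2 * R * (e / √3))) := annulus hR0 (by positivity)
    _ ≤ _ := by
      apply ENNReal.ofReal_le_ofReal
      have hi3 : 1 / √3 ≤ 0.57736 := by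
        rw [div_le_iff₀ h30]; nlinarith
      have hk : R / (√3 / 2) ≤ 1.15471 * (Pp x - 0.86602) := by
        have : R / (√3 / 2) = R * (2 * (1 / √3)) := by field_simp
        rw [this]
        calc R * (2 * (1 / √3)) ≤ (Pp x - 0.86602) * 1.15471 := by
              apply mul_le_mul hRP _ (by positivity) (by linarith)
              have : 1 / √3 ≤ 0.577355 := by
                rw [div_le_iff₀ h30]; nlinarith
              linarith
          _ = _ := by ring
      have hE : e ≤ (1 / 2 * (1 + 1.15471 * (Pp x - 0.86602)) + x) * s1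
          + (1 / 2 * (1 + 1.15471 * (Pp x - 0.86602)) - x) * s2 := by
        rw [he, hm1, hm2]
        have a1 := mul_le_mul_of_nonneg_right hk h1
        have a2 := mul_le_mul_of_nonneg_right hk h2
        linarith
      have h6 : e / √3 ≤ 0.57736 * ((1 / 2 * (1 + 1.15471 * (Pp x - 0.86602)) + x) * s1
          + (1 / 2 * (1 + 1.15471 * (Pp x - 0.86602)) - x) * s2) := by
        have : e / √3 = (1 / √3) * e := by ring
        rw [this]
        exact mul_le_mul hi3 hE he0 (by norm_num)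
      have h7 : 2 * R * (e / √3) ≤ 2 * (Pp x - 0.86602) *
          (0.57736 * ((1 / 2 * (1 + 1.15471 * (Pp x - 0.86602)) + x) * s1
          + (1 / 2 * (1 + 1.15471 * (Pp x - 0.86602)) - x) * s2)) := by
        apply mul_le_mul (by linarith) h6 (by positivity) (by linarith)
      linarith

/-- **volume part of (R4)**: the layer has volume at most `.0363 (s_1 + s_2)`. -/
theorem layer {s1 s2 : ℝ} (h1 : 0 ≤ s1) (h2 : 0 ≤ s2) :
    volume (Lay s1 s2) ≤ ENNReal.ofReal (0.0363 * (s1 + s2)) := by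
  have key := vol_le_int (S := Lay s1 s2) (Lay_meas s1 s2) (a := -(1 / 2)) (b := 1 / 2)
    (by norm_num)
    (G := fun x => 0.6158 * (2 * (Pp x - 0.86602) *
      (0.57736 * ((1 / 2 * (1 + 1.15471 * (Pp x - 0.86602)) + x) * s1
        + (1 / 2 * (1 + 1.15471 * (Pp x - 0.86602)) - x) * s2)))) (by unfold Pp; fun_prop)
    (by
      intro x hx
      have hx' : |x| ≤ 1 / 2 := abs_le.2 ⟨hx.1, hx.2⟩
      have hP := Pp_anti hx'
      have h' : (0.8662 : ℝ) ≤ Pp (1 / 2) := by unfold Pp; norm_num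
      have hp : 0 ≤ Pp x - 0.86602 := by linarith
      have ha : 0 ≤ 1 / 2 * (1 + 1.15471 * (Pp x - 0.86602)) + x := by
        have := hx.1; linarith
      have hb : 0 ≤ 1 / 2 * (1 + 1.15471 * (Pp x - 0.86602)) - x := by
        have := hx.2; linarith
      positivity)
    (by
      intro q hq
      exact abs_le.1 hq.1)
    (by
      intro x hx
      exact lay_slice h1 h2 (abs_le.2 ⟨hx.1, hx.2⟩))
  refine le_trans key (ENNReal.ofReal_le_ofReal ?_)
  set K : ℝ := 0.6158 * 2 * 0.57736 with hK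
  set c : ℝ := 0.13398 with hc
  have hd : ∀ x ∈ uIcc (-(1 / 2) : ℝ) (1 / 2), HasDerivAt
      (fun x : ℝ => K * ((s1 + s2) / 2) * (c * x - x ^ 3 / 6 - x ^ 5 / 40 - x ^ 7 / 112
        + 1.15471 * (c ^ 2 * x - c * x ^ 3 / 3 + (1 / 4 - c / 4) * x ^ 5 / 5
          + (1 / 8 - c / 8) * x ^ 7 / 7 + 5 / 64 * x ^ 9 / 9 + 1 / 64 * x ^ 11 / 11
          + 1 / 256 * x ^ 13 / 13))
        + K * (s1 - s2) * (c * x ^ 2 / 2 - x ^ 4 / 8 - x ^ 6 / 48 - x ^ 8 / 128))
      (0.6158 * (2 * (Pp x - 0.86602) *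
      (0.57736 * ((1 / 2 * (1 + 1.15471 * (Pp x - 0.86602)) + x) * s1
        + (1 / 2 * (1 + 1.15471 * (Pp x - 0.86602)) - x) * s2)))) x := by
    intro x _
    have p1 := hasDerivAt_id' x
    have p2 := hasDerivAt_pow 2 x
    have p3 := hasDerivAt_pow 3 x
    have p4 := hasDerivAt_pow 4 x
    have p5 := hasDerivAt_pow 5 x
    have p6 := hasDerivAt_pow 6 x
    have p7 := hasDerivAt_pow 7 x
    have p8 := hasDerivAt_pow 8 x
    have p9 := hasDerivAt_pow 9 x
    have p11 := hasDerivAt_pow 11 x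
    have p13 := hasDerivAt_pow 13 x
    have hh := (((((p1.const_mul c).sub (p3.div_const 6)).sub (p5.div_const 40)).sub
      (p7.div_const 112)).add ((((((((p1.const_mul (c ^ 2)).sub
      ((p3.const_mul c).div_const 3)).add ((p5.const_mul (1 / 4 - c / 4)).div_const 5)).add
      ((p7.const_mul (1 / 8 - c / 8)).div_const 7)).add ((p9.const_mul (5 / 64)).div_const 9)).add
      ((p11.const_mul (1 / 64)).div_const 11)).add
      ((p13.const_mul (1 / 256)).div_const 13)).const_mul (1.15471 : ℝ))).const_mul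
      (K * ((s1 + s2) / 2)) |>.add
      (((((p2.const_mul c).div_const 2).sub (p4.div_const 8)).sub (p6.div_const 48)).sub
      (p8.div_const 128) |>.const_mul (K * (s1 - s2)))
    exact hh.congr_deriv (by
      rw [hK, hc]
      unfold Pp
      push_cast
      ring)
  rw [intervalIntegral.integral_eq_sub_of_hasDerivAt hd (by
    apply Continuous.intervalIntegrable; unfold Pp; fun_prop)]
  rw [hK, hc]
  have h12 : 0 ≤ s1 + s2 := by linarith
  have : ∀ u v : ℝ, u ≤ 0.0363 → u * (s1 + s2) + v * 0 ≤ 0.0363 * (s1 + s2) := by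
    intro u v hu
    have := mul_le_mul_of_nonneg_right hu h12
    linarith
  ring_nf
  linarith

end Helper72.MEI
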