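import Pool.Agent.Helper95.MEI.Jt2
import Pool.Agent.Helper31.SR.Arc

/-!
# Project MEI (M2), TEAM TC: columns of the arcs of the coupled system, general numbers

`MA_pt`: column `k` of the arc `(τ 0, τ p)` of the system `l3 φ κ a` is at most
`ρ⁺ + T + (1 - κ₁_{0p}) κ₁_{kj} M/2` (`j` the third corner of the face), where `ρ⁺` bounds the
moment of the part of the weight that is never coupled, `T` the negative part, and `κ₁` is the point
of the polygon of the joint form (`Pt`, from helper95's `Jt2.jt2`).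
-/

set_option autoImplicit false

namespace Helper72.J

open Set Metric MeasureTheory Helper80.CW Helper14.CW Helper14.MEI2
open Helper93.MEI Helper37.MEI Helper41.MEI Helper78.MEI Helper49.Cpl
open Helper22.Cpd
open Pool.Agent.Helper31.SR
open Pool.Agent.Helper73.MEI (PM TE pf pr)
open Pool.Agent.Helper95.MEI.Fub (Zp pp_cont int_cont)
open scoped RealInnerProductSpace Real

/-- the number of the edge end charged to `i`, other end `p` -/
def kap4 (κ : Fin 3 → Bool → Bool → ℝ) (i p : Fin 4) : ℝ :=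
  κ (idx i p).1 (idx i p).2.1 (idx i p).2.2

section defs
variable (φ : ℝ → ℝ) (σ : Measure (E3 × E3)) (a : Fin 4 → E3)

/-- moment of the part of the weight which is never coupled -/
noncomputable def rhoP (m : Fin 3) (e i : Bool) (k : Fin 4) : ℝ :=
  ∫ z in EE a m e, (wt (ap a m e) i z.1 - 1 / 2 * dp φ (ap a m e) z) * bar a k z.2 ∂σ

/-- negative part of the moment of the full weight -/
noncomputable def ngP (m : Fin 3) (e i : Bool) (k : Fin 4) : ℝ :=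
  ∫ z in EE a m e, wt (ap a m e) i z.1 * pp (-bar a k z.2) ∂σ

end defs

/-- the coefficients `κ ≤ k₁` of the losses and the point `κ₁` of the polygon of the numbers -/
structure Pt (φ : ℝ → ℝ) (σ : Measure (E3 × E3)) (a : Fin 4 → E3) (k1 : ℝ) (M : Fin 3 → ℝ)
    (U L : Fin 3 → Bool → Bool → ℝ) (s : Fin 3 → Bool → ℝ)
    (κ κ₁ : Fin 3 → Bool → Bool → ℝ) : Prop where
  one : k1 ≤ 1
  le : ∀ m e i, 0 ≤ κ₁ m e i ∧ κ₁ m e i ≤ κ m e i ∧ κ m e i ≤ k1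
  box : ∀ m e i, L m e i ≤ κ₁ m e i * M m ∧ κ₁ m e i * M m ≤ U m e i
  sum : ∀ m e, s m e ≤ (κ₁ m e false + κ₁ m e true) * M m
  mX : ∀ m e i i', (1 - κ m e i) * mX φ σ a m (!e) i' ≤ (1 - κ₁ m e i) * (κ₁ m (!e) i' * M m)

/-- the opposite edge in the numbering of `idx` -/
theorem idx_opp' : ∀ i p k j : Fin 4,
    (i ≠ p ∧ k ≠ i ∧ k ≠ p) ∧ (j ≠ i ∧ j ≠ p ∧ j ≠ k) →
    ((idx k j).1 = (idx i p).1 ∧ (idx k j).2.1 = (not (idx i p).2.1)) ∧
      vx (idx i p).1 (not (idx i p).2.1) (idx k j).2.2 = k := by decide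

theorem idx_pf2 : ∀ i p k j : Fin 4, i ≠ p → k ≠ i → k ≠ p → j ≠ i → j ≠ p → j ≠ k →
    (pf (idx i p).1 (idx i p).2.1 2 = k ∧ pf (idx i p).1 (idx i p).2.1 3 = j) ∨
      (pf (idx i p).1 (idx i p).2.1 3 = k ∧ pf (idx i p).1 (idx i p).2.1 2 = j) := by decide

variable {φ : ℝ → ℝ} {a : Fin 4 → E3} {K : Set E3} {σ : Measure (E3 × E3)}

section
variable [IsFiniteMeasure σ]

/-- helper95's joint form -/
theorem exists_pt (hφ : Prof φ) (hP : PM K σ) (ha : ∀ i j, i ≠ j → dist (a i) (a j) = 1)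
    (hd : ∀ x ∈ K, ∀ y ∈ K, ‖x - y‖ ≤ 1) (hp : ∀ x ∈ K, Pl a x)
    (hS : ∀ j, ∀ q ∈ K, Qv a j q ≤ 0.12) {k1 : ℝ} {M : Fin 3 → ℝ}
    {U L : Fin 3 → Bool → Bool → ℝ} {s : Fin 3 → Bool → ℝ}
    (hN : Helper95.MEI.Jt.JL φ σ a k1 M U L s)
    {B : Fin 3 → Bool → OrthonormalBasis (Fin 3) ℝ E3}
    (hB : ∀ m e, Fr (fun i => a (pr m e i)) (B m e)) :
    ∃ κ κ₁ : Fin 3 → Bool → Bool → ℝ, Pt φ σ a k1 M U L s κ κ₁ ∧ TL σ a B (l3 φ κ a) 0 := by
  obtain ⟨κ, κ₁, h1, h2, h3, h4, h5⟩ := Helper95.MEI.Jt.jt2 hφ hP ha hd hp hS hN hB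
  exact ⟨κ, κ₁, ⟨hN.kle, h1, h2, h3, h4⟩, h5⟩

/-- the moment of the reduced weight -/
theorem mom_split (hφ : Prof φ) (hK : IsCompact K) (hσ : ∀ᵐ z ∂σ, z.1 ∈ K ∧ z.2 ∈ K)
    (m : Fin 3) (e i : Bool) (κ : ℝ) (k : Fin 4) :
    ∫ z in EE a m e, wrt φ κ (ap a m e) i z.1 * bar a k z.2 ∂σ =
      rhoP φ σ a m e i k +
        (1 - κ) / 2 * ∫ z in EE a m e, dp φ (ap a m e) z * bar a k z.2 ∂σ := by
  have c1 : Continuous fun z : E3 × E3 =>
      (wt (ap a m e) i z.1 - 1 / 2 * dp φ (ap a m e) z) * bar a k z.2 :=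
    (((wt_cont (ap a m e) i).comp continuous_fst).sub
      (continuous_const.mul (dp_cont hφ.cont (ap a m e)))).mul
      ((Helper93.MEI.bar_cont a k).comp continuous_snd)
  have c2 : Continuous fun z : E3 × E3 =>
      (1 - κ) / 2 * (dp φ (ap a m e) z * bar a k z.2) :=
    continuous_const.mul ((dp_cont hφ.cont (ap a m e)).mul
      ((Helper93.MEI.bar_cont a k).comp continuous_snd))
  unfold rhoP
  rw [← integral_const_mul,
    ← integral_add (int_cont hK hσ c1).integrableOn (int_cont hK hσ c2).integrableOn]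
  congr 1
  funext z
  rw [wrt_dp]
  ring

/-- **columns of an arc of the coupled system** -/
theorem sM3_joint (hφ : Prof φ) (ha : ∀ i j, i ≠ j → dist (a i) (a j) = 1)
    {κ : Fin 3 → Bool → Bool → ℝ} (h0 : ∀ m e i, 0 ≤ κ m e i) (h1 : ∀ m e i, κ m e i ≤ 1)
    (hK : IsCompact K) (hσ : ∀ᵐ z ∂σ, z.1 ∈ K ∧ z.2 ∈ K) (hp : ∀ x ∈ K, Pl a x)
    (m : Fin 3) (e i : Bool) (k : Fin 4) :
    pp (sM σ a (l3 φ κ a) m e i k) ≤ rhoP φ σ a m e i k + ngP σ a m e i k +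
      (1 - κ m e i) / 2 * ∫ z in EE a m e, dp φ (ap a m e) z * bar a k z.2 ∂σ := by
  refine (sM3_le hφ ha h0 h1 hK hσ hp m e i le_rfl k).trans ?_
  have c1 : Continuous fun z : E3 × E3 =>
      wrt φ (κ m e i) (ap a m e) i z.1 * bar a k z.2 :=
    ((wrt_cont hφ _ _ i).comp continuous_fst).mul
      ((Helper93.MEI.bar_cont a k).comp continuous_snd)
  have c2 : Continuous fun z : E3 × E3 => wt (ap a m e) i z.1 * pp (-bar a k z.2) :=
    ((wt_cont (ap a m e) i).comp continuous_fst).mul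
      (pp_cont.comp ((Helper93.MEI.bar_cont a k).comp continuous_snd).neg)
  have c3 : Continuous fun z : E3 × E3 =>
      wrt φ (κ m e i) (ap a m e) i z.1 * pp (bar a k z.2) :=
    ((wrt_cont hφ _ _ i).comp continuous_fst).mul
      (pp_cont.comp ((Helper93.MEI.bar_cont a k).comp continuous_snd))
  have i1 := int_cont hK hσ c1
  have i2 := int_cont hK hσ c2
  have i3 := int_cont hK hσ c3
  have e1 := mom_split (σ := σ) (a := a) hφ hK hσ m e i (κ m e i) k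
  have key : ∫ z in EE a m e, wrt φ (κ m e i) (ap a m e) i z.1 * pp (bar a k z.2) ∂σ ≤
      (∫ z in EE a m e, wrt φ (κ m e i) (ap a m e) i z.1 * bar a k z.2 ∂σ) +
        ngP σ a m e i k := by
    unfold ngP
    rw [← integral_add i1.integrableOn i2.integrableOn]
    refine integral_mono_ae i3.integrableOn (i1.integrableOn.add i2.integrableOn) ?_
    filter_upwards [ae_restrict_of_ae hσ] with z hz
    have w1 := wrt_le hφ (hgp ha m e) (h0 m e i) i (x := z.1) (Pl_perm _ (hp _ hz.1))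
    have n1 := pp_nonneg (-bar a k z.2)
    have s1 : pp (bar a k z.2) = bar a k z.2 + pp (-bar a k z.2) := by
      have := pp_sub (bar a k z.2)
      linarith
    show wrt φ (κ m e i) (ap a m e) i z.1 * pp (bar a k z.2) ≤
      wrt φ (κ m e i) (ap a m e) i z.1 * bar a k z.2 + wt (ap a m e) i z.1 * pp (-bar a k z.2)
    rw [s1, mul_add]
    have := mul_le_mul_of_nonneg_right w1 n1
    linarith
  linarith

/-- with the numbers of the other cell: `κ` the coefficients of the losses, `κ₁` the polygon point -/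
theorem sM3_pt (hφ : Prof φ) (hP : PM K σ) (ha : ∀ i j, i ≠ j → dist (a i) (a j) = 1)
    (hp : ∀ x ∈ K, Pl a x) {κ κ₁ : Fin 3 → Bool → Bool → ℝ} (h0 : ∀ m e i, 0 ≤ κ m e i)
    (h1 : ∀ m e i, κ m e i ≤ 1) {M : Fin 3 → ℝ} (m : Fin 3) (e i b : Bool)
    (hX : (1 - κ m e i) * mX φ σ a m (!e) b ≤ (1 - κ₁ m e i) * (κ₁ m (!e) b * M m)) :
    pp (sM σ a (l3 φ κ a) m e i (vx m (!e) b)) ≤
      rhoP φ σ a m e i (vx m (!e) b) + ngP σ a m e i (vx m (!e) b) +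
      (1 - κ₁ m e i) * κ₁ m (!e) b * (M m / 2) := by
  have key := sM3_joint (κ := κ) hφ ha h0 h1 hP.cpt hP.mem hp m e i (vx m (!e) b)
  unfold mX at hX
  rw [Bool.not_not] at hX
  linarith

/-- **the two columns of the arc `p` of the face of `τ 0`**; `k` the column, `j` the other corner;
`R x y u v` bounds the two fixed parts (own vertex, other end of the arc, column, other corner) -/
theorem MA_pt (hφ : Prof φ) (hP : PM K σ) (ha : ∀ i j, i ≠ j → dist (a i) (a j) = 1)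
    (hp : ∀ x ∈ K, Pl a x) {κ κ₁ : Fin 3 → Bool → Bool → ℝ} (h0 : ∀ m e i, 0 ≤ κ m e i)
    (h1 : ∀ m e i, κ m e i ≤ 1) {M : Fin 3 → ℝ}
    (hX : ∀ m e i b, (1 - κ m e i) * mX φ σ a m (!e) b ≤
      (1 - κ₁ m e i) * (κ₁ m (!e) b * M m))
    {R : Fin 4 → Fin 4 → Fin 4 → Fin 4 → ℝ}
    (hR : ∀ m e i k k', (k = 2 ∧ k' = 3 ∨ k = 3 ∧ k' = 2) →
      rhoP φ σ a m e i (pf m e k) + ngP σ a m e i (pf m e k) ≤
        R (vx m e i) (vx m e (!i)) (pf m e k) (pf m e k'))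
    (τ : Equiv.Perm (Fin 4)) {p k j : Fin 3} (hkp : k ≠ p) (hj : j ≠ p) (hjk : j ≠ k) :
    MA σ a (l3 φ κ a) τ p k ≤ R (τ 0) (τ p.succ) (τ k.succ) (τ j.succ) +
      (1 - kap4 κ₁ (τ 0) (τ p.succ)) * kap4 κ₁ (τ k.succ) (τ j.succ) *
        (M (idx (τ 0) (τ p.succ)).1 / 2) := by
  have n1 : τ 0 ≠ τ p.succ := fun h => (Fin.succ_ne_zero p) (τ.injective h).symm
  have n2 : τ k.succ ≠ τ 0 := fun h => (Fin.succ_ne_zero k) (τ.injective h)
  have n3 : τ k.succ ≠ τ p.succ := fun h => hkp (Fin.succ_injective _ (τ.injective h))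
  have n4 : τ j.succ ≠ τ 0 := fun h => (Fin.succ_ne_zero j) (τ.injective h)
  have n5 : τ j.succ ≠ τ p.succ := fun h => hj (Fin.succ_injective _ (τ.injective h))
  have n6 : τ j.succ ≠ τ k.succ := fun h => hjk (Fin.succ_injective _ (τ.injective h))
  obtain ⟨⟨o1, o2⟩, o3⟩ := idx_opp' _ _ _ _ ⟨⟨n1, n2, n3⟩, n4, n5, n6⟩
  have hv := idx_vx (τ 0) (τ p.succ) n1
  have key := sM3_pt (M := M) (κ₁ := κ₁) hφ hP ha hp h0 h1 (idx (τ 0) (τ p.succ)).1
    (idx (τ 0) (τ p.succ)).2.1 (idx (τ 0) (τ p.succ)).2.2 (idx (τ k.succ) (τ j.succ)).2.2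
    (hX _ _ _ _)
  rw [o3] at key
  have hpf := idx_pf2 _ _ _ _ n1 n2 n3 n4 n5 n6
  have hr : rhoP φ σ a (idx (τ 0) (τ p.succ)).1 (idx (τ 0) (τ p.succ)).2.1
        (idx (τ 0) (τ p.succ)).2.2 (τ k.succ) +
      ngP σ a (idx (τ 0) (τ p.succ)).1 (idx (τ 0) (τ p.succ)).2.1
        (idx (τ 0) (τ p.succ)).2.2 (τ k.succ) ≤
      R (τ 0) (τ p.succ) (τ k.succ) (τ j.succ) := by
    rcases hpf with ⟨g1, g2⟩ | ⟨g1, g2⟩
    · have := hR (idx (τ 0) (τ p.succ)).1 (idx (τ 0) (τ p.succ)).2.1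
        (idx (τ 0) (τ p.succ)).2.2 2 3 (Or.inl ⟨rfl, rfl⟩)
      rwa [g1, g2, hv.1, hv.2] at this
    · have := hR (idx (τ 0) (τ p.succ)).1 (idx (τ 0) (τ p.succ)).2.1
        (idx (τ 0) (τ p.succ)).2.2 3 2 (Or.inr ⟨rfl, rfl⟩)
      rwa [g1, g2, hv.1, hv.2] at this
  have e1 : kap4 κ₁ (τ 0) (τ p.succ) =
      κ₁ (idx (τ 0) (τ p.succ)).1 (idx (τ 0) (τ p.succ)).2.1
        (idx (τ 0) (τ p.succ)).2.2 := rfl
  have e2 : kap4 κ₁ (τ k.succ) (τ j.succ) =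
      κ₁ (idx (τ 0) (τ p.succ)).1 (!(idx (τ 0) (τ p.succ)).2.1)
        (idx (τ k.succ) (τ j.succ)).2.2 := by
    unfold kap4
    rw [o1, o2]
  unfold MA Pool.Agent.Helper31.SR.aM
  rw [e1, e2]
  linarith

/-- the same for helper22's clean weights -/
theorem MA_joint (hφ : Prof φ) (hP : PM K σ) (ha : ∀ i j, i ≠ j → dist (a i) (a j) = 1)
    (hp : ∀ x ∈ K, Pl a x) {M : Fin 3 → ℝ} (hM : ∀ m, 0 < M m)
    (hk : ∀ m e i, mp φ σ a m e i + xw φ σ a m e ≤ M m) {R : Fin 4 → Fin 4 → Fin 4 → Fin 4 → ℝ}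
    (hR : ∀ m e i k k', (k = 2 ∧ k' = 3 ∨ k = 3 ∧ k' = 2) →
      rhoP φ σ a m e i (pf m e k) + ngP σ a m e i (pf m e k) ≤
        R (vx m e i) (vx m e (!i)) (pf m e k) (pf m e k'))
    (τ : Equiv.Perm (Fin 4)) {p k j : Fin 3} (hkp : k ≠ p) (hj : j ≠ p) (hjk : j ≠ k) :
    MA σ a (l3 φ (kw φ σ a M) a) τ p k ≤ R (τ 0) (τ p.succ) (τ k.succ) (τ j.succ) +
      (1 - kap4 (kw φ σ a M) (τ 0) (τ p.succ)) *
        kap4 (kw φ σ a M) (τ k.succ) (τ j.succ) * (M (idx (τ 0) (τ p.succ)).1 / 2) := by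
  have h0 := kw_nonneg (M := M) hφ hP.cpt hP.mem ha hp hM
  have h1 := kw_le_one (φ := φ) (σ := σ) (a := a) hM hk
  refine MA_pt hφ hP ha hp h0 h1 (fun m e i b => ?_) hR τ hkp hj hjk
  have h2 := mX_le_kw hφ ha hP.cpt hP.mem hM m (!e) b
  have h3 : 0 ≤ 1 - kw φ σ a M m e i := by linarith [h1 m e i]
  have h4 := mul_le_mul_of_nonneg_left h2 h3
  linarith

omit [IsFiniteMeasure σ] in
/-- the sum rows of the numbers: `κ_{kj} + κ_{jk} ≥ (mass of the coupling density near the edge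
of `i p`)/M` -/
theorem kap4_sum {M : Fin 3 → ℝ} (hM : ∀ m, 0 < M m) {k j : Fin 4} (hkj : k ≠ j) :
    p0 φ σ (ap a (idx k j).1 (!(idx k j).2.1)) ≤
      (kap4 (kw φ σ a M) k j + kap4 (kw φ σ a M) j k) * M (idx k j).1 := by
  have h := p0_le_kw (φ := φ) (σ := σ) (a := a) hM (idx k j).1 (idx k j).2.1
  have hs : ∀ k j : Fin 4, k ≠ j → (idx j k).1 = (idx k j).1 ∧ (idx j k).2.1 = (idx k j).2.1 ∧
      (idx j k).2.2 = !(idx k j).2.2 := by decide
  obtain ⟨s1, s2, s3⟩ := hs k j hkj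
  unfold kap4
  rw [s1, s2, s3]
  cases (idx k j).2.2
  · exact h
  · rw [add_comm]
    exact h

theorem kap4_nonneg (hφ : Prof φ) (hP : PM K σ) (ha : ∀ i j, i ≠ j → dist (a i) (a j) = 1)
    (hp : ∀ x ∈ K, Pl a x) {M : Fin 3 → ℝ} (hM : ∀ m, 0 < M m) (i p : Fin 4) :
    0 ≤ kap4 (kw φ σ a M) i p := kw_nonneg hφ hP.cpt hP.mem ha hp hM _ _ _

omit [IsFiniteMeasure σ] in
theorem kap4_le_one {M : Fin 3 → ℝ} (hM : ∀ m, 0 < M m)
    (hk : ∀ m e i, mp φ σ a m e i + xw φ σ a m e ≤ M m) (i p : Fin 4) :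
    kap4 (kw φ σ a M) i p ≤ 1 := kw_le_one hM hk _ _ _

end

end Helper72.J
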