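import Pool.Agent.Helper72.MEI.JGen
import Pool.Agent.Helper93.MEI.Blk10
import Pool.Agent.Helper47.MEI.MomP
import Pool.Agent.Helper22.MEI.P0
import Pool.Agent.Helper41.MEI.ArcV

/-!
# Project MEI (M2), TEAM TC: columns of the arcs of the coupled system, numbers

Joint form (`Pt`).  `MA_num`: general affine bounds of the two fixed parts (`RhB`: part of the
weight which is never coupled, `NgB`: negative part).  `rhB_ph` (profile `ph22`), `rhB_fd`
(profile `fd = 1 - 7/8 |x|`): the numbers of `RhB` from helper47's, helper53's and helper93's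
moments; `ngB_41`: helper41's negative part.
-/

set_option autoImplicit false

namespace Helper72.J

open Set Metric MeasureTheory Helper80.CW Helper14.CW Helper14.MEI2
open Helper93.MEI Helper37.MEI Helper41.MEI Helper78.MEI Helper49.Cpl
open Helper22.Cpd Helper22.P0
open Pool.Agent.Helper31.SR
open Helper53.MEI (fd)
open Helper41.ArcT (sS)
open Pool.Agent.Helper73.MEI (PM TE pf pr)
open Pool.Agent.Helper95.MEI.Fub (Zp pp_cont int_cont)
open scoped RealInnerProductSpace Real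

/-- affine bound of the moment of the part of the weight which is never coupled -/
def RhB (φ : ℝ → ℝ) (σ : Measure (E3 × E3)) (a : Fin 4 → E3) (S : Fin 4 → ℝ)
    (c cj ck c0 cp : ℝ) : Prop :=
  ∀ (m : Fin 3) (e i : Bool) (k k' : Fin 4), (k = 2 ∧ k' = 3 ∨ k = 3 ∧ k' = 2) →
    rhoP φ σ a m e i (pf m e k) ≤ c + cj * S (pf m e k') + ck * S (pf m e k) +
      c0 * S (vx m e i) + cp * S (vx m e (!i))

/-- affine bound of the negative part -/
def NgB (σ : Measure (E3 × E3)) (a : Fin 4 → E3) (S : Fin 4 → ℝ)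
    (c cj ck c0 cp : ℝ) : Prop :=
  ∀ (m : Fin 3) (e i : Bool) (k k' : Fin 4), (k = 2 ∧ k' = 3 ∨ k = 3 ∧ k' = 2) →
    ngP σ a m e i (pf m e k) ≤ c + cj * S (pf m e k') + ck * S (pf m e k) +
      c0 * S (vx m e i) + cp * S (vx m e (!i))

variable {φ : ℝ → ℝ} {a : Fin 4 → E3} {K : Set E3} {σ : Measure (E3 × E3)}

/-- **columns of an arc, joint form**: `k` the column, `j` the other corner; the numbers of the
two fixed parts are `c, cj, ck, c0, cp` and `d, dj, dk, d0, dp'` -/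
theorem MA_num [IsFiniteMeasure σ] (hφ : Prof φ) (hP : PM K σ)
    (ha : ∀ i j, i ≠ j → dist (a i) (a j) = 1) (hp : ∀ x ∈ K, Pl a x) {k1 : ℝ} {M : Fin 3 → ℝ}
    {U L : Fin 3 → Bool → Bool → ℝ} {s : Fin 3 → Bool → ℝ} {κ κ₁ : Fin 3 → Bool → Bool → ℝ}
    (hpt : Pt φ σ a k1 M U L s κ κ₁) {S : Fin 4 → ℝ} {c cj ck c0 cp d dj dk d0 d1 : ℝ}
    (hR : RhB φ σ a S c cj ck c0 cp) (hN : NgB σ a S d dj dk d0 d1)
    (τ : Equiv.Perm (Fin 4)) {p k j : Fin 3} (hkp : k ≠ p) (hj : j ≠ p) (hjk : j ≠ k) :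
    MA σ a (l3 φ κ a) τ p k ≤ (c + d) + (cj + dj) * S (τ j.succ) + (ck + dk) * S (τ k.succ) +
      (c0 + d0) * S (τ 0) + (cp + d1) * S (τ p.succ) +
      (1 - kap4 κ₁ (τ 0) (τ p.succ)) * kap4 κ₁ (τ k.succ) (τ j.succ) *
        (M (idx (τ 0) (τ p.succ)).1 / 2) :=
  MA_pt (M := M) hφ hP ha hp (fun m e i => (hpt.le m e i).1.trans (hpt.le m e i).2.1)
    (fun m e i => (hpt.le m e i).2.2.trans hpt.one) (fun m e i b => hpt.mX m e i b)
    (R := fun x y u v => (c + d) + (cj + dj) * S v + (ck + dk) * S u + (c0 + d0) * S x +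
      (cp + d1) * S y)
    (fun m e i k k' hk => by
      have h1 := hR m e i k k' hk
      have h2 := hN m e i k k' hk
      show _ ≤ (c + d) + (cj + dj) * S (pf m e k') + (ck + dk) * S (pf m e k) +
        (c0 + d0) * S (vx m e i) + (cp + d1) * S (vx m e (!i))
      linarith) τ hkp hj hjk

/-- the coefficient of the arc and of the column, as points of the polygon -/
theorem kap4_rows {k1 : ℝ} {M : Fin 3 → ℝ} {U L : Fin 3 → Bool → Bool → ℝ}
    {s : Fin 3 → Bool → ℝ} {κ κ₁ : Fin 3 → Bool → Bool → ℝ}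
    (hpt : Pt φ σ a k1 M U L s κ κ₁) (i p : Fin 4) :
    0 ≤ kap4 κ₁ i p ∧ kap4 κ₁ i p ≤ kap4 κ i p ∧ kap4 κ i p ≤ k1 ∧
      L (idx i p).1 (idx i p).2.1 (idx i p).2.2 ≤ kap4 κ₁ i p * M (idx i p).1 ∧
      kap4 κ₁ i p * M (idx i p).1 ≤ U (idx i p).1 (idx i p).2.1 (idx i p).2.2 :=
  ⟨(hpt.le _ _ _).1, (hpt.le _ _ _).2.1, (hpt.le _ _ _).2.2, (hpt.box _ _ _).1,
    (hpt.box _ _ _).2⟩

/-- the sum rows -/
theorem kap4_sum' {k1 : ℝ} {M : Fin 3 → ℝ} {U L : Fin 3 → Bool → Bool → ℝ}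
    {s : Fin 3 → Bool → ℝ} {κ κ₁ : Fin 3 → Bool → Bool → ℝ}
    (hpt : Pt φ σ a k1 M U L s κ κ₁) {k j : Fin 4} (hkj : k ≠ j) :
    s (idx k j).1 (idx k j).2.1 ≤ (kap4 κ₁ k j + kap4 κ₁ j k) * M (idx k j).1 := by
  have h := hpt.sum (idx k j).1 (idx k j).2.1
  have hs : ∀ k j : Fin 4, k ≠ j → (idx j k).1 = (idx k j).1 ∧ (idx j k).2.1 = (idx k j).2.1 ∧
      (idx j k).2.2 = !(idx k j).2.2 := by decide
  obtain ⟨s1, s2, s3⟩ := hs k j hkj
  unfold kap4
  rw [s1, s2, s3]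
  cases (idx k j).2.2
  · exact h
  · rw [add_comm]
    exact h

section num
variable [IsFiniteMeasure σ] (h : PM K σ) (ha : ∀ i j, i ≠ j → dist (a i) (a j) = 1)
    (hull : ∀ p, (∀ q ∈ K, ‖p - q‖ ≤ 1) → p ∈ K) (hp : ∀ x ∈ K, Pl a x)
    {B : Fin 3 → Bool → OrthonormalBasis (Fin 3) ℝ E3}
    (hB : ∀ m e, Fr (fun i => a (pr m e i)) (B m e)) {S : Fin 4 → ℝ} (hS0 : ∀ i, 0 ≤ S i)
    (hQ : ∀ i, ∀ q ∈ K, Qv a i q ≤ S i)

omit [IsFiniteMeasure σ] in
/-- the fixed part of the profile `fd` is the part `wp` -/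
theorem rhoP_fd (m : Fin 3) (e i : Bool) (k : Fin 4) :
    rhoP fd σ a m e i k = ∫ z in EE a m e, wp (ap a m e) i z.1 * bar a k z.2 ∂σ := by
  unfold rhoP
  congr 1
  funext z
  rw [dp_fd, wt_wp]
  ring

include h ha hull hp hB hS0 hQ in
/-- **numbers of the part of the weight which is never coupled**, profile `fd`; `t` the tangent of
the level of the other corner, `θ` the size of the bulk part -/
theorem rhB_fd {t θ : ℝ} (t0 : 0 ≤ t) (t1 : t ≤ 3 / 10) (u0 : 0 ≤ θ) (u1 : θ ≤ 1) :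
    RhB fd σ a S
      (0.005832 - (θ * (2 - θ) * 0.0004825 + θ ^ 2 * (3 - 2 * θ) * 0.0001099) +
        0.1288 * t ^ 3 - 0.0612 * t ^ 4 + 0.0507 * t ^ 5)
      (0.06639 - 0.2536 * t + 0.2537 * t ^ 2) 0
      (0.02191 + 0.005203 * θ + 0.001546 * θ ^ 2)
      (0.00602 + 0.00191 * θ + 0.000654 * θ ^ 2) := by
  intro m e i k k' hk
  have h1 := Helper93.MEI.Blk.mom_wp2 h ha hull hp hB hS0 hQ m e hk t0 t1 u0 u1 i
  rw [rhoP_fd]
  refine h1.trans (le_of_eq ?_)
  cases i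
  · simp only [Bool.false_eq_true, if_false, Bool.not_false]
    show _ = _ + 0 * S (pf m e k) + _ * S (pf m e 0) + _ * S (pf m e 1)
    ring
  · simp only [if_true, Bool.not_true]
    show _ = _ + 0 * S (pf m e k) + _ * S (pf m e 1) + _ * S (pf m e 0)
    ring

include h ha hull hp hB hS0 hQ in
/-- the tangent `1/10` with the full bulk part -/
theorem rhB_10 : RhB fd σ a S 0.005363 0.043568 0 0.02866 0.008585 := by
  intro m e i k k' hk
  have h1 := rhB_fd h ha hull hp hB hS0 hQ (t := 1 / 10) (θ := 1) (by norm_num) (by norm_num)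
    (by norm_num) le_rfl m e i k k' hk
  have s1 := hS0 (pf m e k')
  have s2 := hS0 (vx m e i)
  have s3 := hS0 (vx m e (!i))
  norm_num at h1 ⊢
  linarith

omit [IsFiniteMeasure σ] in
/-- the fixed part of the profile `ph22` -/
theorem rhoP_ph (m : Fin 3) (e i : Bool) (k : Fin 4) :
    rhoP ph22 σ a m e i k =
      ∫ z in EE a m e, Helper53.MEI.wF (Helper93.MEI.Blk.p1 i) (ap a m e) z.1 * bar a k z.2 ∂σ := by
  unfold rhoP
  congr 1
  funext z
  rw [dp_wF, ← Helper53.MEI.wF_nn]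
  unfold Helper53.MEI.wF Helper93.MEI.Blk.p1
  ring

theorem p1_same (i : Bool) : Helper93.MEI.Blk.p1 i = Helper47.MEI.MomP.p1 i := by
  funext x
  rw [Helper93.MEI.Blk.p1_eq]
  unfold Helper47.MEI.MomP.p1 Helper47.MEI.MomP.pq
  cases i
  · simp only [Helper21.Mom.sg, Bool.false_eq_true, if_false]
    ring
  · simp only [Helper21.Mom.sg, if_true]
    ring

include h ha hull hp hB hS0 hQ in
/-- **numbers of the part of the weight which is never coupled**, profile `ph22`; `t` the tangent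
of the level of the other corner, `θ` the size of the bulk part -/
theorem rhB_ph {t θ : ℝ} (t0 : 0 ≤ t) (t1 : t ≤ 3 / 10) (u0 : 0 ≤ θ) (u1 : θ ≤ 1) :
    RhB ph22 σ a S
      (0.008883 - (θ * (2 - θ) * 0.0006948 + θ ^ 2 * (3 - 2 * θ) * 0.0001538) +
        √2 / 2 * Helper53.MEI.gp t)
      (0.11436 - 0.5798 * t + 1.0873 * t ^ 2 - 0.7248 * t ^ 3) 0
      (0.0317 + 0.00707 * θ + 0.002036 * θ ^ 2)
      (0.0158 + 0.003777 * θ + 0.001144 * θ ^ 2) := by
  intro m e i k k' hk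
  have h1 := Helper93.MEI.Blk.momF_all_blk h ha hull hp hB hS0 hQ m e hk
    (Helper93.MEI.Blk.wgt_p1 i) (Helper93.MEI.Blk.p1_cont i) u0 u1
  have h2 := Helper47.MEI.MomP.num_p1 (hS0 (pf m e k')) (hS0 (pf m e 0)) (hS0 (pf m e 1)) t0 t1 i
  have h3 := Helper93.MEI.Blk.BK_p1 u0 u1 (hS0 (pf m e 0)) (hS0 (pf m e 1)) i
  rw [rhoP_ph]
  rw [← p1_same] at h2
  refine (h1.trans (sub_le_sub h2 h3)).trans (le_of_eq ?_)
  cases i
  · simp only [Bool.false_eq_true, if_false, Bool.not_false]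
    show _ = _ + 0 * S (pf m e k) + _ * S (pf m e 0) + _ * S (pf m e 1)
    ring
  · simp only [if_true, Bool.not_true]
    show _ = _ + 0 * S (pf m e k) + _ * S (pf m e 1) + _ * S (pf m e 0)
    ring

include h ha hull hp hB hS0 hQ in
/-- `ph22`, the tangent `1/10` with the full bulk part -/
theorem rhB_ph10 : RhB ph22 σ a S 0.008317 0.06653 0 0.040806 0.020721 := by
  intro m e i k k' hk
  have h1 := rhB_ph h ha hull hp hB hS0 hQ (t := 1 / 10) (θ := 1) (by norm_num) (by norm_num)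
    (by norm_num) le_rfl m e i k k' hk
  obtain ⟨r0, r1⟩ := Helper53.MEI.r2b
  have s1 := hS0 (pf m e k')
  have s2 := hS0 (vx m e i)
  have s3 := hS0 (vx m e (!i))
  unfold Helper53.MEI.gp at h1
  norm_num at h1 ⊢
  linarith

include h ha hull hp hB hS0 hQ in
/-- helper41's negative part -/
theorem ngB_41 (hT : sS S ≤ 0.0904) : NgB σ a S 0.00237 0.0452 0.0631 0.0313 0.0313 := by
  intro m e i k k' hk
  have h1 := Helper41.ArcV.neg_all h ha hull hp hB hS0 hQ hT m e i hk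
  unfold ngP pp
  refine h1.trans (le_of_eq ?_)
  cases i
  · show _ = _ + _ * S (pf m e 0) + _ * S (pf m e 1)
    ring
  · show _ = _ + _ * S (pf m e 1) + _ * S (pf m e 0)
    ring

end num

end Helper72.J
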