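import Pool.Agent.Helper72.MEI.EdgeVol
import Pool.Agent.Helper73.MEI.Star

/-!
# MEI, M2: the bounds of `xiE` and `beE` in the form of the master inequality, any size of `s`
-/

namespace Helper72.MEI

open MeasureTheory Set
open Helper80.CW Helper14.CW Helper14.MEI2 Helper22.Wedge Helper93.MEI
open Pool.Agent.Helper73.MEI (xiE beE lE pr pf)
open scoped RealInnerProductSpace

variable {a : Fin 4 → E3} {K : Set E3} {B : Fin 3 → Bool → OrthonormalBasis (Fin 3) ℝ E3}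

theorem dist_pr (ha : ∀ i j, i ≠ j → dist (a i) (a j) = 1) (m : Fin 3) (e : Bool) :
    ∀ i j, i ≠ j → dist ((fun i => a (pr m e i)) i) ((fun i => a (pr m e i)) j) = 1 :=
  fun _ _ hij => ha _ _ (fun h => hij ((pr m e).injective h))

/-- **`xi` of every edge** (any size of `s`) -/
theorem xiE_le (ha : ∀ i j, i ≠ j → dist (a i) (a j) = 1)
    (hB : ∀ m e, Fr (fun i => a (pr m e i)) (B m e))
    (hull : ∀ p, (∀ q ∈ K, ‖p - q‖ ≤ 1) → p ∈ K) {s : Fin 4 → ℝ} (hs : ∀ i, 0 ≤ s i)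
    (hQ : ∀ i, ∀ q ∈ K, Qv a i q ≤ s i) (m : Fin 3) (e : Bool) :
    xiE (B m e) (cen a) K ≤ 0.0363 * (s (pf m e 0) + s (pf m e 1)) := by
  have h := xi_real (a := fun i => a (pr m e i)) (dist_pr ha m e) (hB m e) (K := K) hull
    (hs (pf m e 0)) (hs (pf m e 1)) (hQ (pf m e 0)) (hQ (pf m e 1))
  rw [cen_perm] at h
  exact h

theorem eX_perm_le (ha : ∀ i j, i ≠ j → dist (a i) (a j) = 1) (hp : ∀ x ∈ K, Pl a x)
    (m : Fin 3) (e : Bool) : ∀ q ∈ K, |eX (fun i => a (pr m e i)) q| ≤ 1 / 2 := fun q hq =>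
  (pl_e (gram_of_dist (dist_pr ha m e)) (Pl_perm (pr m e) (hp q hq))).2.1

/-- **`beta` of every edge** (any size of `s`) -/
theorem beE_le (ha : ∀ i j, i ≠ j → dist (a i) (a j) = 1)
    (hB : ∀ m e, Fr (fun i => a (pr m e i)) (B m e)) (hp : ∀ x ∈ K, Pl a x)
    {s : Fin 4 → ℝ} (hs : ∀ i, 0 ≤ s i)
    (hQ : ∀ i, ∀ q ∈ K, Qv a i q ≤ s i) (m : Fin 3) (e : Bool) :
    beE (B m e) (cen a) K ≤ (0.0393 + 0.2358 * s (pf m e 2)) * s (pf m e 2)
      + (0.0393 + 0.2358 * s (pf m e 3)) * s (pf m e 3) := by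
  have h := beta_gen (a := fun i => a (pr m e i)) (dist_pr ha m e) (hB m e) (K := K)
    (eX_perm_le ha hp m e)
    (hs (pf m e 2)) (hs (pf m e 3)) (hQ (pf m e 2)) (hQ (pf m e 3))
  rw [cen_perm] at h
  exact h

/-- sum over the six edges -/
theorem xiE_sum (ha : ∀ i j, i ≠ j → dist (a i) (a j) = 1)
    (hB : ∀ m e, Fr (fun i => a (pr m e i)) (B m e))
    (hull : ∀ p, (∀ q ∈ K, ‖p - q‖ ≤ 1) → p ∈ K) {s : Fin 4 → ℝ} (hs : ∀ i, 0 ≤ s i)
    (hQ : ∀ i, ∀ q ∈ K, Qv a i q ≤ s i) :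
    ∑ m, (xiE (B m false) (cen a) K + xiE (B m true) (cen a) K) ≤ 0.1089 * ∑ i, s i := by
  have h := xiE_le ha hB hull hs hQ
  have h00 := h 0 false
  have h01 := h 0 true
  have h10 := h 1 false
  have h11 := h 1 true
  have h20 := h 2 false
  have h21 := h 2 true
  simp only [Fin.sum_univ_three, Fin.sum_univ_four]
  simp only [pf, Matrix.cons_val_zero, Matrix.cons_val_one, Matrix.cons_val] at h00 h01 h10 h11 h20 h21
  linarith

theorem beE_sum (ha : ∀ i j, i ≠ j → dist (a i) (a j) = 1)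
    (hB : ∀ m e, Fr (fun i => a (pr m e i)) (B m e)) (hp : ∀ x ∈ K, Pl a x)
    {s : Fin 4 → ℝ} (hs : ∀ i, 0 ≤ s i) (hQ : ∀ i, ∀ q ∈ K, Qv a i q ≤ s i) :
    ∑ m, (beE (B m false) (cen a) K + beE (B m true) (cen a) K)
      ≤ 3 * ∑ i, (0.0393 + 0.2358 * s i) * s i := by
  have h := beE_le ha hB hp hs hQ
  have h00 := h 0 false
  have h01 := h 0 true
  have h10 := h 1 false
  have h11 := h 1 true
  have h20 := h 2 false
  have h21 := h 2 true
  simp only [Fin.sum_univ_three, Fin.sum_univ_four]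
  simp only [pf, Matrix.cons_val_zero, Matrix.cons_val_one, Matrix.cons_val] at h00 h01 h10 h11 h20 h21
  linarith

end Helper72.MEI
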