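import Pool.Agent.Helper72.MEI.Bulge
import Pool.Agent.Helper72.MEI.Layer
import Pool.Agent.Helper29.MEI.LemX
import Pool.Agent.Helper95.MEI.C7
import Pool.Agent.Helper14.MEI2.Coord
import Pool.Agent.Helper93.MEI.S2a

/-!
# MEI, M2, regime I: `xi_12 ≤ .0363 (s_0 + s_1)` and `beta_12 ≤ .04 (s_2 + s_3)`

In the space, for the frame `Fr a b` of the edge `a 0, a 1`, centre `cen a`.
-/

namespace Helper72.MEI

open MeasureTheory Set
open Helper80.CW Helper14.CW Helper14.MEI2 Helper22.Wedge Helper93.MEI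
open Pool.Agent.Helper95.MEI.Cst (AsE AxE AsE_eq AxE_eq cs sh)
open scoped RealInnerProductSpace

variable {a : Fin 4 → E3} {b : OrthonormalBasis (Fin 3) ℝ E3}

/-- coordinates in the frame -/
theorem co_e (ha : ∀ i j, i ≠ j → dist (a i) (a j) = 1) (hb : Fr a b) (x : E3) :
    co b (cen a) x = (eX a x, eY a x, √2 / 4 + eW a x) := by
  obtain ⟨h0, h1, h2⟩ := frame_e (gram_of_dist ha) hb.1 hb.2.1 hb.2.2 x
  unfold co
  rw [h0, h1, h2]

theorem cs_e (ha : ∀ i j, i ≠ j → dist (a i) (a j) = 1) (hb : Fr a b) (x : E3) :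
    cs b (cen a) x = (eX a x, eY a x, eW a x) := by
  unfold cs sh
  rw [co_e ha hb]
  unfold Helper22.MEI.t
  simp

theorem rr_e (ha : ∀ i j, i ≠ j → dist (a i) (a j) = 1) (hb : Fr a b) (x : E3) :
    rr (co b (cen a) x) = Helper29.MEI.eR a x := by
  rw [co_e ha hb]
  unfold rr Helper29.MEI.eR
  simp

/-- the layer contains `A_X \ K` -/
theorem ax_sub_lay (ha : ∀ i j, i ≠ j → dist (a i) (a j) = 1) (hb : Fr a b) {K : Set E3}
    (hull : ∀ p, (∀ q ∈ K, ‖p - q‖ ≤ 1) → p ∈ K) {s0 s1 : ℝ}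
    (h0 : ∀ q ∈ K, Qv a 0 q ≤ s0) (h1 : ∀ q ∈ K, Qv a 1 q ≤ s1) :
    AxE b (cen a) \ K ⊆ {x | co b (cen a) x ∈ Lay s0 s1} := by
  rintro x ⟨hx, hxK⟩
  have g := gram_of_dist ha
  have hx' : |eY a x| < √2 / 2 * eW a x ∧
      eX a x ^ 2 + eY a x ^ 2 + eW a x ^ 2 + √3 * Helper29.MEI.eR a x ≤ 1 / 4 := by
    have h := hx
    change cs b (cen a) x ∈ Pool.Agent.Helper95.MEI.Cst.Ax at h
    rw [cs_e ha hb] at h
    exact h
  have hr2 := Helper29.MEI.eR_sq a x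
  have hsp : eX a x ^ 2 + Helper29.MEI.eR a x ^ 2 + √3 * Helper29.MEI.eR a x ≤ 1 / 4 := by
    linarith [hx'.2]
  have hX := Helper29.MEI.spindle_x hsp
  have hl := Helper29.MEI.layer g hull h0 h1 hX hxK
  have er := rr_e ha hb x
  have ec := co_e ha hb x
  have e1 : (co b (cen a) x).1 = eX a x := by rw [ec]
  have e2 : (co b (cen a) x).2.1 = eY a x := by rw [ec]
  have e3 : (co b (cen a) x).2.2 = √2 / 4 + eW a x := by rw [ec]
  refine ⟨?_, ?_, ?_, ?_⟩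
  · rw [e1]; exact hX
  · rw [e2, e3]
    have h2 := s2_sq
    have h20 := s2_pos
    have := mul_le_mul_of_nonneg_left hx'.1.le h20.le
    have e : √2 * (√2 / 2 * eW a x) = eW a x := by
      have : √2 * (√2 / 2 * eW a x) = √2 ^ 2 / 2 * eW a x := by ring
      rw [this, h2]; ring
    linarith
  · rw [e1, er]; exact hsp
  · unfold eta
    rw [e1, er]
    unfold Helper29.MEI.mu0 Helper29.MEI.mu1 at hl
    linarith

/-- **`xi_12 ≤ .0363 (s_0 + s_1)`** -/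
theorem xi_le (ha : ∀ i j, i ≠ j → dist (a i) (a j) = 1) (hb : Fr a b) {K : Set E3}
    (hull : ∀ p, (∀ q ∈ K, ‖p - q‖ ≤ 1) → p ∈ K) {s0 s1 : ℝ} (hs0 : 0 ≤ s0) (hs1 : 0 ≤ s1)
    (h0 : ∀ q ∈ K, Qv a 0 q ≤ s0) (h1 : ∀ q ∈ K, Qv a 1 q ≤ s1) :
    volume (AxE b (cen a) \ K) ≤ ENNReal.ofReal (0.0363 * (s0 + s1)) := by
  refine (measure_mono (ax_sub_lay ha hb hull h0 h1)).trans ?_
  rw [vol_co b (cen a) (Lay s0 s1) (Lay_meas s0 s1)]
  exact layer hs0 hs1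

/-- the bulges contain `(K ∩ Z_12) \ A*` -/
theorem as_sub_bu (ha : ∀ i j, i ≠ j → dist (a i) (a j) = 1) (hb : Fr a b) {K : Set E3}
    (hX : ∀ q ∈ K, |eX a q| ≤ 1 / 2) {s2 s3 : ℝ}
    (h2 : ∀ q ∈ K, Qv a 2 q ≤ s2) (h3 : ∀ q ∈ K, Qv a 3 q ≤ s3) :
    (K ∩ EC b (cen a)) \ AsE b (cen a) ⊆
      {x | co b (cen a) x ∈ Bu4 s3} ∪ {x | co b (cen a) x ∈ Bu3 s2} := by
  rintro x ⟨⟨hxK, hxE⟩, hxA⟩
  have g := gram_of_dist ha
  have ec := co_e ha hb x
  have e1 : (co b (cen a) x).1 = eX a x := by rw [ec]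
  have e2 : (co b (cen a) x).2.1 = eY a x := by rw [ec]
  have e3 : (co b (cen a) x).2.2 = √2 / 4 + eW a x := by rw [ec]
  have hE : |eY a x| < √2 / 2 * eW a x := by
    have h := hxE
    change |(co b (cen a) x).2.1| < Helper22.MEI.s * ((co b (cen a) x).2.2 - Helper22.MEI.t) at h
    rw [e2, e3] at h
    unfold Helper22.MEI.s Helper22.MEI.t at h
    calc |eY a x| < √2 / 2 * (√2 / 4 + eW a x - √2 / 4) := h
      _ = √2 / 2 * eW a x := by ring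
  have hA : 1 / 4 < eX a x ^ 2 + eY a x ^ 2 + eW a x ^ 2 + √2 * eW a x + |eY a x| := by
    by_contra hc
    push Not at hc
    apply hxA
    change cs b (cen a) x ∈ Pool.Agent.Helper95.MEI.Cst.As
    rw [cs_e ha hb]
    exact ⟨hE, hc⟩
  have s2 := s2_sq
  have s20 := s2_pos
  have hw : √2 * |eY a x| ≤ eW a x := by
    have := mul_le_mul_of_nonneg_left hE.le s20.le
    have e : √2 * (√2 / 2 * eW a x) = eW a x := by
      have : √2 * (√2 / 2 * eW a x) = √2 ^ 2 / 2 * eW a x := by ring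
      rw [this, s2]; ring
    linarith
  by_cases hy : 0 ≤ eY a x
  · left
    rw [abs_of_nonneg hy] at hA hw
    have hq : Q4 (co b (cen a) x) = Qv a 3 x := by
      rw [Qv3_e g]
      unfold Q4
      rw [e1, e2, e3]
      linear_combination (1 / 4) * s2
    refine ⟨?_, ?_, ?_, ?_, ?_⟩
    · rw [e1]; exact hX x hxK
    · rw [e2]; exact hy
    · rw [e2, e3]; linarith
    · rw [hq, Qv3_e g]; linarith
    · rw [hq]; exact h3 x hxK
  · right
    push Not at hy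
    rw [abs_of_neg hy] at hA hw
    have hq : Q3 (co b (cen a) x) = Qv a 2 x := by
      rw [Qv2_e g]
      unfold Q3
      rw [e1, e2, e3]
      linear_combination (1 / 4) * s2
    refine ⟨?_, ?_, ?_, ?_, ?_⟩
    · rw [e1]; exact hX x hxK
    · rw [e2]; exact hy.le
    · rw [e2, e3]; linarith
    · rw [hq, Qv2_e g]; linarith
    · rw [hq]; exact h2 x hxK

/-- the volume of the bulge outside `A*`, any size of `s` -/
theorem beta_gen (ha : ∀ i j, i ≠ j → dist (a i) (a j) = 1) (hb : Fr a b) {K : Set E3}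
    (hX : ∀ q ∈ K, |eX a q| ≤ 1 / 2) {s2 s3 : ℝ} (hs2 : 0 ≤ s2) (hs3 : 0 ≤ s3)
    (h2 : ∀ q ∈ K, Qv a 2 q ≤ s2) (h3 : ∀ q ∈ K, Qv a 3 q ≤ s3) :
    volume.real ((K ∩ EC b (cen a)) \ AsE b (cen a))
      ≤ (0.0393 + 0.2358 * s2) * s2 + (0.0393 + 0.2358 * s3) * s3 := by
  refine ENNReal.toReal_le_of_le_ofReal (by positivity) ?_
  calc volume ((K ∩ EC b (cen a)) \ AsE b (cen a))
      ≤ volume {x | co b (cen a) x ∈ Bu4 s3} + volume {x | co b (cen a) x ∈ Bu3 s2} :=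
        (measure_mono (as_sub_bu ha hb hX h2 h3)).trans (measure_union_le _ _)
    _ = volume (Bu4 s3) + volume (Bu3 s2) := by
        rw [vol_co b (cen a) (Bu4 s3) (Bu4_meas s3), vol_co b (cen a) (Bu3 s2) (Bu3_meas s2)]
    _ ≤ ENNReal.ofReal ((0.0393 + 0.2358 * s3) * s3)
        + ENNReal.ofReal ((0.0393 + 0.2358 * s2) * s2) :=
        add_le_add (bulge4_gen hs3) (bulge3_gen hs2)
    _ = ENNReal.ofReal ((0.0393 + 0.2358 * s2) * s2 + (0.0393 + 0.2358 * s3) * s3) := by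
        rw [← ENNReal.ofReal_add (by positivity) (by positivity)]
        congr 1
        ring

/-- **`beta_12 ≤ .04 (s_2 + s_3)`** -/
theorem beta_le (ha : ∀ i j, i ≠ j → dist (a i) (a j) = 1) (hb : Fr a b) {K : Set E3}
    (hX : ∀ q ∈ K, |eX a q| ≤ 1 / 2) {s2 s3 : ℝ} (hs2 : 0 ≤ s2) (hs3 : 0 ≤ s3)
    (hs2' : s2 ≤ 0.002) (hs3' : s3 ≤ 0.002)
    (h2 : ∀ q ∈ K, Qv a 2 q ≤ s2) (h3 : ∀ q ∈ K, Qv a 3 q ≤ s3) :
    volume ((K ∩ EC b (cen a)) \ AsE b (cen a)) ≤ ENNReal.ofReal (0.04 * (s2 + s3)) := by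
  have hm3 : MeasurableSet (Bu3 s2) := Bu3_meas s2
  calc volume ((K ∩ EC b (cen a)) \ AsE b (cen a))
      ≤ volume {x | co b (cen a) x ∈ Bu4 s3} + volume {x | co b (cen a) x ∈ Bu3 s2} :=
        (measure_mono (as_sub_bu ha hb hX h2 h3)).trans (measure_union_le _ _)
    _ = volume (Bu4 s3) + volume (Bu3 s2) := by
        rw [vol_co b (cen a) (Bu4 s3) (Bu4_meas s3), vol_co b (cen a) (Bu3 s2) hm3]
    _ ≤ ENNReal.ofReal (0.04 * s3) + ENNReal.ofReal (0.04 * s2) :=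
        add_le_add (bulge4 hs3 hs3') (bulge3 hs2 hs2')
    _ = ENNReal.ofReal (0.04 * (s2 + s3)) := by
        rw [← ENNReal.ofReal_add (by positivity) (by positivity)]
        congr 1
        ring

theorem measureReal_le_of {S : Set E3} {c : ℝ} (hc : 0 ≤ c)
    (h : volume S ≤ ENNReal.ofReal c) : volume.real S ≤ c :=
  ENNReal.toReal_le_of_le_ofReal hc h

/-- `xi_12` as a real number -/
theorem xi_real (ha : ∀ i j, i ≠ j → dist (a i) (a j) = 1) (hb : Fr a b) {K : Set E3}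
    (hull : ∀ p, (∀ q ∈ K, ‖p - q‖ ≤ 1) → p ∈ K) {s0 s1 : ℝ} (hs0 : 0 ≤ s0) (hs1 : 0 ≤ s1)
    (h0 : ∀ q ∈ K, Qv a 0 q ≤ s0) (h1 : ∀ q ∈ K, Qv a 1 q ≤ s1) :
    volume.real (AxE b (cen a) \ K) ≤ 0.0363 * (s0 + s1) :=
  measureReal_le_of (by positivity) (xi_le ha hb hull hs0 hs1 h0 h1)

/-- `beta_12` as a real number -/
theorem beta_real (ha : ∀ i j, i ≠ j → dist (a i) (a j) = 1) (hb : Fr a b) {K : Set E3}
    (hX : ∀ q ∈ K, |eX a q| ≤ 1 / 2) {s2 s3 : ℝ} (hs2 : 0 ≤ s2) (hs3 : 0 ≤ s3)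
    (hs2' : s2 ≤ 0.002) (hs3' : s3 ≤ 0.002)
    (h2 : ∀ q ∈ K, Qv a 2 q ≤ s2) (h3 : ∀ q ∈ K, Qv a 3 q ≤ s3) :
    volume.real ((K ∩ EC b (cen a)) \ AsE b (cen a)) ≤ 0.04 * (s2 + s3) :=
  measureReal_le_of (by positivity) (beta_le ha hb hX hs2 hs3 hs2' hs3' h2 h3)

/-- `beta_12` in the form of helper93's `area12` (any frame) -/
theorem beta_frame {c a3 a4 : E3} {K : Set E3}
    (hX : ∀ x ∈ K, |(co b c x).1| ≤ 1 / 2)
    (ha3 : co b c a3 = (0, 1 / 2, -Helper22.MEI.t))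
    (ha4 : co b c a4 = (0, -(1 / 2), -Helper22.MEI.t)) {s3 s4 : ℝ}
    (h3 : ∀ x ∈ K, ‖x - a3‖ ^ 2 - 1 ≤ s3) (h4 : ∀ x ∈ K, ‖x - a4‖ ^ 2 - 1 ≤ s4)
    (hs3 : 0 ≤ s3) (hs4 : 0 ≤ s4) (hs3' : s3 ≤ 0.002) (hs4' : s4 ≤ 0.002) :
    volume.real ((K ∩ EC b c) \ Ast b c a3 a4) ≤ 0.04 * (s3 + s4) := by
  have q3 : ∀ x, Q3 (co b c x) = ‖x - a3‖ ^ 2 - 1 := by
    intro x
    rw [norm_co b c x a3, ha3]
    unfold Q3 Helper22.MEI.t
    ring
  have q4 : ∀ x, Q4 (co b c x) = ‖x - a4‖ ^ 2 - 1 := by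
    intro x
    rw [norm_co b c x a4, ha4]
    unfold Q4 Helper22.MEI.t
    ring
  have s20 := s2_pos
  have s2 := s2_sq
  have hsub : (K ∩ EC b c) \ Ast b c a3 a4 ⊆
      {x | co b c x ∈ Bu4 s4} ∪ {x | co b c x ∈ Bu3 s3} := by
    rintro x ⟨⟨hxK, hxE⟩, hxA⟩
    have hE : |(co b c x).2.1| < √2 / 2 * ((co b c x).2.2 - √2 / 4) := hxE
    have hw : √2 * |(co b c x).2.1| ≤ (co b c x).2.2 - √2 / 4 := by
      have := mul_le_mul_of_nonneg_left hE.le s20.le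
      have e : √2 * (√2 / 2 * ((co b c x).2.2 - √2 / 4)) = (co b c x).2.2 - √2 / 4 := by
        have : √2 * (√2 / 2 * ((co b c x).2.2 - √2 / 4))
            = √2 ^ 2 / 2 * ((co b c x).2.2 - √2 / 4) := by ring
        rw [this, s2]; ring
      linarith
    have hA : 0 < ‖x - a3‖ ^ 2 - 1 ∨ 0 < ‖x - a4‖ ^ 2 - 1 := by
      by_contra hc
      push Not at hc
      apply hxA
      have k1 : ‖x - a3‖ ≤ 1 := by nlinarith [hc.1, norm_nonneg (x - a3)]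
      have k2 : ‖x - a4‖ ≤ 1 := by nlinarith [hc.2, norm_nonneg (x - a4)]
      exact ⟨hxE, k1, k2⟩
    rw [← q3, ← q4] at hA
    have hdiff : Q4 (co b c x) - Q3 (co b c x) = 2 * (co b c x).2.1 := by
      unfold Q3 Q4; ring
    by_cases hy : 0 ≤ (co b c x).2.1
    · left
      rw [abs_of_nonneg hy] at hw
      refine ⟨hX x hxK, hy, by linarith, ?_, ?_⟩
      · rcases hA with h | h <;> linarith
      · rw [q4]; exact h4 x hxK
    · right
      push Not at hy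
      rw [abs_of_neg hy] at hw
      refine ⟨hX x hxK, hy.le, by linarith, ?_, ?_⟩
      · rcases hA with h | h <;> linarith
      · rw [q3]; exact h3 x hxK
  apply measureReal_le_of (by positivity)
  calc volume ((K ∩ EC b c) \ Ast b c a3 a4)
      ≤ volume {x | co b c x ∈ Bu4 s4} + volume {x | co b c x ∈ Bu3 s3} :=
        (measure_mono hsub).trans (measure_union_le _ _)
    _ = volume (Bu4 s4) + volume (Bu3 s3) := by
        rw [vol_co b c (Bu4 s4) (Bu4_meas s4), vol_co b c (Bu3 s3) (Bu3_meas s3)]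
    _ ≤ ENNReal.ofReal (0.04 * s4) + ENNReal.ofReal (0.04 * s3) :=
        add_le_add (bulge4 hs4 hs4') (bulge3 hs3 hs3')
    _ = ENNReal.ofReal (0.04 * (s3 + s4)) := by
        rw [← ENNReal.ofReal_add (by positivity) (by positivity)]
        congr 1
        ring

end Helper72.MEI
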