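import Pool.Agent.Helper75.MEI2.Tri
import Pool.Agent.Helper75.MEI2.CornC
import Pool.Agent.Helper55.MEI.Plane

/-!
# The overlap of two walls at a corner
-/

namespace Pool.Agent.Helper72.Ov

open Set MeasureTheory Matrix Pool.Agent.Helper55.Sx Pool.Agent.Helper55.Mass Helper75.MEI2

theorem vt_vv (t : ℝ × ℝ) : vt t = vv t := rfl

theorem Qf_vv (t : ℝ × ℝ) : Qf (vt t) = mm t := by
  simp only [Qf, vt, mm, e2, t3, Matrix.cons_val_zero, Matrix.cons_val_one, Matrix.cons_val]
  ring

theorem mem_Sim_vv {t : ℝ × ℝ} : (∀ i, 0 ≤ vt t i) ↔ t ∈ Sim := vt_nn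

/-- mean of the quadratic form on a corner triangle -/
noncomputable def q1 (a b : ℝ) : ℝ := 1 + a / 2 + b / 4 + 0.3 * a ^ 2 + 0.1 * b ^ 2 + 0.15 * (a * b)

theorem q1_inv {a b : ℝ} (ha : 0 ≤ a) (hb : 0 ≤ b) (ha1 : a ≤ 0.4) (hb1 : b ≤ 0.4) :
    1 - a - 0.52 * b ≤ 1 / q1 a b ^ 2 := by
  set s := a + 0.52 * b with hs
  have hs0 : 0 ≤ s := by positivity
  have hs1 : s ≤ 1 := by linarith
  have hq0 : 0 < q1 a b := by unfold q1; positivity
  have hq : q1 a b ≤ 1 + s / 2 + 0.375 * s ^ 2 := by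
    unfold q1
    rw [hs]
    nlinarith [mul_nonneg ha hb, sq_nonneg a, sq_nonneg b]
  have h1 : q1 a b ^ 2 ≤ (1 + s / 2 + 0.375 * s ^ 2) ^ 2 := pow_le_pow_left₀ hq0.le hq 2
  have h2 : (1 - s) * (1 + s / 2 + 0.375 * s ^ 2) ^ 2 ≤ 1 := by
    have e : 1 - (1 - s) * (1 + s / 2 + 0.375 * s ^ 2) ^ 2
        = s ^ 3 * (0.625 + 0.234375 * s + 0.140625 * s ^ 2) := by ring
    have : 0 ≤ s ^ 3 * (0.625 + 0.234375 * s + 0.140625 * s ^ 2) := by positivity
    linarith
  rw [le_div_iff₀ (by positivity)]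
  have h3 : 1 - a - 0.52 * b = 1 - s := by rw [hs]; ring
  rw [h3]
  exact (mul_le_mul_of_nonneg_left h1 (by linarith)).trans h2

/-- the corner function -/
noncomputable def phi (j l k : Fin 3) (a b : ℝ) (t : ℝ × ℝ) : ℝ :=
  max (vv t j - max (vv t l / a) (vv t k / b)) 0

theorem phi_meas (j l k : Fin 3) (a b : ℝ) : Measurable (phi j l k a b) := by
  unfold phi
  exact ((vv_meas j).sub (((vv_meas l).div_const a).max ((vv_meas k).div_const b))).max
    measurable_const

theorem phi_int {j l k : Fin 3} {a b : ℝ} (ha : 0 < a) :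
    IntegrableOn (fun t => phi j l k a b t / mm t ^ 2) Sim :=
  intOn (C := 1) (phi_meas j l k a b) fun t ht => by
    have h0 : 0 ≤ phi j l k a b t := le_max_right _ _
    rw [abs_of_nonneg h0]
    have h1 : 0 ≤ vv t l / a := div_nonneg (vv_nonneg ht l) ha.le
    have h2 := le_max_left (vv t l / a) (vv t k / b)
    have h3 := vv_le ht j
    exact max_le (by linarith) zero_le_one

/-- the core: two triangles at the corner -/
theorem ov_core {A B : Matrix (Fin 3) (Fin 3) ℝ} {a b : ℝ} (ha : 0 < a) (hb : 0 < b)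
    (hA : ∀ i c, 0 ≤ A i c) (hB : ∀ i c, 0 ≤ B i c) (dA : A.det = a * b) (dB : B.det = a * b)
    (cA : cc A 1 0 0 = q1 a b / 3) (cB : cc B 1 0 0 = q1 b a / 3) {j l k : Fin 3} (hlk : l ≠ k)
    (eA : ∀ v, (A *ᵥ v) j = v 0 + v 1 + v 2 ∧ (A *ᵥ v) l = a * (v 1 + v 2)
      ∧ (A *ᵥ v) k = b * v 2)
    (eB : ∀ v, (B *ᵥ v) j = v 0 + v 1 + v 2 ∧ (B *ᵥ v) l = a * v 1
      ∧ (B *ᵥ v) k = b * (v 1 + v 2)) :
    a * b / 6 * (1 / q1 a b ^ 2 + 1 / q1 b a ^ 2) ≤ ∫ t in Sim, phi j l k a b t / mm t ^ 2 := by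
  have hab : 0 < a * b := mul_pos ha hb
  have hdA : 0 < A.det := by rw [dA]; exact hab
  have hdB : 0 < B.det := by rw [dB]; exact hab
  have gA := (cornerC hA hdA).1
  have gB := (cornerC hB hdB).1
  have qa : 0 < q1 a b := by unfold q1; positivity
  have qb : 0 < q1 b a := by unfold q1; positivity
  rw [dA, cA] at gA
  rw [dB, cB] at gB
  have sA : TC A ⊆ Sim := fun t ht => mem_Sim_vv.1 ht.1
  have sB : TC B ⊆ Sim := fun t ht => mem_Sim_vv.1 ht.1
  -- coordinates
  have kA : ∀ t ∈ TC A, phi j l k a b t / mm t ^ 2 = mu A (vt t) 0 / Qf (vt t) ^ 2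
      ∧ vt t k / b ≤ vt t l / a := by
    intro t ht
    obtain ⟨h1, h2⟩ := ht
    obtain ⟨e1, e2, e3⟩ := eA (mu A (vt t))
    rw [mul_mu hdA] at e1 e2 e3
    have n0 := h2 0
    have n1 := h2 1
    have n2 := h2 2
    have f2 : vt t l / a = mu A (vt t) 1 + mu A (vt t) 2 := by
      rw [e2]; field_simp
    have f3 : vt t k / b = mu A (vt t) 2 := by
      rw [e3]; field_simp
    have hle : vt t k / b ≤ vt t l / a := by rw [f2, f3]; linarith
    refine ⟨?_, hle⟩
    rw [Qf_vv]
    have : phi j l k a b t = mu A (vt t) 0 := by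
      unfold phi
      rw [← vt_vv, max_eq_left hle, f2, e1, max_eq_left (by linarith)]
      ring
    rw [this]
  have kB : ∀ t ∈ TC B, phi j l k a b t / mm t ^ 2 = mu B (vt t) 0 / Qf (vt t) ^ 2
      ∧ vt t l / a ≤ vt t k / b := by
    intro t ht
    obtain ⟨h1, h2⟩ := ht
    obtain ⟨e1, e2, e3⟩ := eB (mu B (vt t))
    rw [mul_mu hdB] at e1 e2 e3
    have n0 := h2 0
    have n1 := h2 1
    have n2 := h2 2
    have f2 : vt t l / a = mu B (vt t) 1 := by
      rw [e2]; field_simp
    have f3 : vt t k / b = mu B (vt t) 1 + mu B (vt t) 2 := by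
      rw [e3]; field_simp
    have hle : vt t l / a ≤ vt t k / b := by rw [f2, f3]; linarith
    refine ⟨?_, hle⟩
    rw [Qf_vv]
    have : phi j l k a b t = mu B (vt t) 0 := by
      unfold phi
      rw [← vt_vv, max_eq_right hle, f3, e1, max_eq_left (by linarith)]
      ring
    rw [this]
  have rA : ∫ t in TC A, mu A (vt t) 0 / Qf (vt t) ^ 2 = ∫ t in TC A, phi j l k a b t / mm t ^ 2 :=
    setIntegral_congr_fun (TC_meas A) fun t ht => (kA t ht).1.symm
  have rB : ∫ t in TC B, mu B (vt t) 0 / Qf (vt t) ^ 2 = ∫ t in TC B, phi j l k a b t / mm t ^ 2 :=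
    setIntegral_congr_fun (TC_meas B) fun t ht => (kB t ht).1.symm
  rw [rA] at gA
  rw [rB] at gB
  have hnull : volume (TC A ∩ TC B) = 0 := by
    have hc : (fun i : Fin 3 => if i = l then 1 / a else if i = k then -(1 / b) else 0) ≠ 0 := by
      intro h
      have := congrFun h l
      simp at this
      exact ha.ne' this
    refine measure_mono_null ?_ (null_lin hc)
    rintro t ⟨h1, h2⟩
    have h3 := (kA t h1).2
    have h4 := (kB t h2).2
    have h5 : vt t l / a = vt t k / b := le_antisymm h4 h3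
    have h6 : ∑ i, (if i = l then 1 / a else if i = k then -(1 / b) else 0) * vt t i = 0 := by
      have e : ∀ i, (if i = l then 1 / a else if i = k then -(1 / b) else 0) * vt t i
          = (if i = l then vt t l / a else 0) - (if i = k then vt t k / b else 0) := by
        intro i
        by_cases hl : i = l
        · have hk : i ≠ k := fun h => hlk (hl.symm.trans h)
          rw [if_pos hl, if_pos hl, if_neg hk, hl]
          ring
        · rw [if_neg hl, if_neg hl]
          by_cases hk : i = k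
          · rw [if_pos hk, if_pos hk, hk]
            ring
          · rw [if_neg hk, if_neg hk]
            ring
      rw [Finset.sum_congr rfl fun i _ => e i, Finset.sum_sub_distrib, Finset.sum_ite_eq',
        Finset.sum_ite_eq']
      simp [h5]
    rw [Fin.sum_univ_three] at h6
    exact h6
  have hun := setIntegral_union₀ (μ := volume) (f := fun t => phi j l k a b t / mm t ^ 2)
    (s := TC A) (t := TC B) hnull (TC_meas B).nullMeasurableSet
    ((phi_int ha).mono_set sA) ((phi_int ha).mono_set sB)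
  have hmono : ∫ t in TC A ∪ TC B, phi j l k a b t / mm t ^ 2
      ≤ ∫ t in Sim, phi j l k a b t / mm t ^ 2 := by
    refine setIntegral_mono_set (phi_int ha) ?_ (union_subset sA sB).eventuallyLE
    exact Filter.Eventually.of_forall fun t => div_nonneg (le_max_right _ _) (by positivity)
  rw [hun] at hmono
  have e1 : a * b / (54 * (q1 a b / 3) ^ 2) = a * b / 6 * (1 / q1 a b ^ 2) := by
    field_simp
    norm_num
  have e2 : a * b / (54 * (q1 b a / 3) ^ 2) = a * b / 6 * (1 / q1 b a ^ 2) := by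
    field_simp
    norm_num
  rw [e1] at gA
  rw [e2] at gB
  linarith

/-- **the two triangles**, all corners -/
theorem phi_ge {j l k : Fin 3} (hjl : j ≠ l) (hjk : j ≠ k) (hlk : l ≠ k) {a b : ℝ} (ha : 0 < a)
    (hb : 0 < b) (ha1 : a ≤ 0.4) (hb1 : b ≤ 0.4) :
    a * b / 3 * (1 - 0.76 * (a + b)) ≤ ∫ t in Sim, phi j l k a b t / mm t ^ 2 := by
  have i1 := q1_inv ha.le hb.le ha1 hb1
  have i2 := q1_inv hb.le ha.le hb1 ha1
  have hab : 0 ≤ a * b / 6 := by positivity
  have i3 := mul_le_mul_of_nonneg_left (add_le_add i1 i2) hab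
  have i4 : a * b / 3 * (1 - 0.76 * (a + b))
      = a * b / 6 * (1 - a - 0.52 * b + (1 - b - 0.52 * a)) := by ring
  rw [i4]
  have swap : ∀ (j l k : Fin 3) (a b : ℝ), phi j l k a b = phi j k l b a := by
    intro j l k a b
    funext t
    unfold phi
    rw [max_comm (vv t l / a)]
  have n2 : (0 : ℝ) ≤ a := ha.le
  have n3 : (0 : ℝ) ≤ b := hb.le
  -- the even cases
  have c012 : ∀ {a b : ℝ}, 0 < a → 0 < b →
      a * b / 6 * (1 / q1 a b ^ 2 + 1 / q1 b a ^ 2) ≤ ∫ t in Sim, phi 0 1 2 a b t / mm t ^ 2 := by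
    intro a b ha hb
    have n2 : (0 : ℝ) ≤ a := ha.le
    have n3 : (0 : ℝ) ≤ b := hb.le
    refine ov_core (A := !![1, 1, 1; 0, a, a; 0, 0, b]) (B := !![1, 1, 1; 0, a, 0; 0, b, b])
      ha hb ?_ ?_ ?_ ?_ ?_ ?_ (by decide) ?_ ?_
    · intro i c
      fin_cases i <;> fin_cases c <;> simp [n2, n3]
    · intro i c
      fin_cases i <;> fin_cases c <;> simp [n2, n3]
    · simp [Matrix.det_fin_three]
      try ring
    · simp [Matrix.det_fin_three]
      try ring
    · simp [cc, nn, dd, Qf, Helper75.MEI2.col, q1]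
      ring
    · simp [cc, nn, dd, Qf, Helper75.MEI2.col, q1]
      ring
    · intro v
      simp [Matrix.mulVec, dotProduct, Fin.sum_univ_three]
      try ring
    · intro v
      simp [Matrix.mulVec, dotProduct, Fin.sum_univ_three]
      try ring
  have c120 : ∀ {a b : ℝ}, 0 < a → 0 < b →
      a * b / 6 * (1 / q1 a b ^ 2 + 1 / q1 b a ^ 2) ≤ ∫ t in Sim, phi 1 2 0 a b t / mm t ^ 2 := by
    intro a b ha hb
    have n2 : (0 : ℝ) ≤ a := ha.le
    have n3 : (0 : ℝ) ≤ b := hb.le
    refine ov_core (A := !![0, 0, b; 1, 1, 1; 0, a, a]) (B := !![0, b, b; 1, 1, 1; 0, a, 0])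
      ha hb ?_ ?_ ?_ ?_ ?_ ?_ (by decide) ?_ ?_
    · intro i c
      fin_cases i <;> fin_cases c <;> simp [n2, n3]
    · intro i c
      fin_cases i <;> fin_cases c <;> simp [n2, n3]
    · simp [Matrix.det_fin_three]
      try ring
    · simp [Matrix.det_fin_three]
      try ring
    · simp [cc, nn, dd, Qf, Helper75.MEI2.col, q1]
      ring
    · simp [cc, nn, dd, Qf, Helper75.MEI2.col, q1]
      ring
    · intro v
      simp [Matrix.mulVec, dotProduct, Fin.sum_univ_three]
      try ring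
    · intro v
      simp [Matrix.mulVec, dotProduct, Fin.sum_univ_three]
      try ring
  have c201 : ∀ {a b : ℝ}, 0 < a → 0 < b →
      a * b / 6 * (1 / q1 a b ^ 2 + 1 / q1 b a ^ 2) ≤ ∫ t in Sim, phi 2 0 1 a b t / mm t ^ 2 := by
    intro a b ha hb
    have n2 : (0 : ℝ) ≤ a := ha.le
    have n3 : (0 : ℝ) ≤ b := hb.le
    refine ov_core (A := !![0, a, a; 0, 0, b; 1, 1, 1]) (B := !![0, a, 0; 0, b, b; 1, 1, 1])
      ha hb ?_ ?_ ?_ ?_ ?_ ?_ (by decide) ?_ ?_
    · intro i c
      fin_cases i <;> fin_cases c <;> simp [n2, n3]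
    · intro i c
      fin_cases i <;> fin_cases c <;> simp [n2, n3]
    · simp [Matrix.det_fin_three]
      try ring
    · simp [Matrix.det_fin_three]
      try ring
    · simp [cc, nn, dd, Qf, Helper75.MEI2.col, q1]
      ring
    · simp [cc, nn, dd, Qf, Helper75.MEI2.col, q1]
      ring
    · intro v
      simp [Matrix.mulVec, dotProduct, Fin.sum_univ_three]
      try ring
    · intro v
      simp [Matrix.mulVec, dotProduct, Fin.sum_univ_three]
      try ring
  have sy : a * b / 6 * (1 / q1 a b ^ 2 + 1 / q1 b a ^ 2)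
      = b * a / 6 * (1 / q1 b a ^ 2 + 1 / q1 a b ^ 2) := by ring
  refine i3.trans ?_
  fin_cases j <;> fin_cases l <;> fin_cases k <;> simp only [Fin.zero_eta, Fin.mk_one,
    Fin.reduceFinMk, ne_eq, not_true_eq_false] at hjl hjk hlk ⊢
  · exact c012 ha hb
  · rw [swap, sy]
    exact c012 hb ha
  · rw [swap, sy]
    exact c120 hb ha
  · exact c120 ha hb
  · exact c201 ha hb
  · rw [swap, sy]
    exact c201 hb ha

/-- **the overlap** of the two wall regions at the corner `j` -/
theorem ov_ge {N : Fin 3 → Fin 3 → ℝ} (hN : ∀ k m, 0 ≤ N k m) (hN1 : ∀ k m, N k m ≤ 0.4)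
    {j l k : Fin 3} (hjl : j ≠ l) (hjk : j ≠ k) (hlk : l ≠ k) :
    0.2357 * (N l j * N k j) * (1 - 0.76 * (N l j + N k j))
      ≤ 1 / √2 * ∫ t in Sim, min (1 - thl N (vv t) l) (1 - thl N (vv t) k) * vv t j / mm t ^ 2 := by
  have h0 : (0 : ℝ) ≤ 1 / √2 := by positivity
  have hnn : ∀ t ∈ Sim, 0 ≤ min (1 - thl N (vv t) l) (1 - thl N (vv t) k) := fun t ht =>
    le_min (by linarith [thl_le_one (N := N) (fun k => vv_nonneg ht k) l])
      (by linarith [thl_le_one (N := N) (fun k => vv_nonneg ht k) k])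
  set a := N l j with ha
  set b := N k j with hb
  have a0 : 0 ≤ a := hN l j
  have b0 : 0 ≤ b := hN k j
  have a1 : a ≤ 0.4 := hN1 l j
  have b1 : b ≤ 0.4 := hN1 k j
  by_cases hab : a * b = 0
  · rw [hab]
    have : 0 ≤ 1 / √2 * ∫ t in Sim, min (1 - thl N (vv t) l) (1 - thl N (vv t) k) * vv t j
        / mm t ^ 2 := by
      refine mul_nonneg h0 (setIntegral_nonneg Sim_meas fun t ht => ?_)
      exact div_nonneg (mul_nonneg (hnn t ht) (vv_nonneg ht j)) (by positivity)
    linarith
  have ap : 0 < a := lt_of_le_of_ne a0 fun h => hab (by rw [← h, zero_mul])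
  have bp : 0 < b := lt_of_le_of_ne b0 fun h => hab (by rw [← h, mul_zero])
  have hg := phi_ge hjl hjk hlk ap bp a1 b1
  have hmono : ∫ t in Sim, phi j l k a b t / mm t ^ 2
      ≤ ∫ t in Sim, min (1 - thl N (vv t) l) (1 - thl N (vv t) k) * vv t j / mm t ^ 2 := by
    refine setIntegral_mono_on (phi_int ap) ?_ Sim_meas fun t ht => ?_
    · refine intOn (C := 1) (((measurable_const.sub (thl_meas l)).min
        (measurable_const.sub (thl_meas k))).mul (vv_meas j)) fun t ht => ?_
      have h1 := thl_nonneg hN (fun k => vv_nonneg ht k) l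
      have h2 := vv_le ht j
      have h3 := vv_nonneg ht j
      have h4 := hnn t ht
      rw [abs_of_nonneg (mul_nonneg h4 h3)]
      exact mul_le_one₀ ((min_le_left _ _).trans (by linarith)) h3 h2
    · have hm : 0 ≤ mm t ^ 2 := by positivity
      refine div_le_div_of_nonneg_right ?_ hm
      have hb' := fun k => vv_nonneg ht k
      refine max_le ?_ (mul_nonneg (hnn t ht) (hb' j))
      -- each factor
      have key : ∀ {m : Fin 3} {c : ℝ}, 0 < c → N m j = c →
          vv t j - vv t m / c ≤ (1 - thl N (vv t) m) * vv t j := by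
        intro m c hc hmc
        have hL : c * vv t j ≤ LN N (vv t) m := by
          rw [← hmc]
          have t0 := mul_nonneg (hN m 0) (hb' 0)
          have t1 := mul_nonneg (hN m 1) (hb' 1)
          have t2 := mul_nonneg (hN m 2) (hb' 2)
          unfold LN
          fin_cases j
          · change N m 0 * vv t 0 ≤ _
            linarith
          · change N m 1 * vv t 1 ≤ _
            linarith
          · change N m 2 * vv t 2 ≤ _
            linarith
        have hthl : thl N (vv t) m * vv t j ≤ vv t m / c := by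
          rcases eq_or_lt_of_le (hb' j) with h | h
          · rw [← h, mul_zero]
            exact div_nonneg (hb' m) hc.le
          · have hcj : 0 < c * vv t j := mul_pos hc h
            unfold thl
            split_ifs with h5
            · rw [div_mul_eq_mul_div, div_le_div_iff₀ (lt_of_lt_of_le hcj hL) hc]
              nlinarith [hb' m]
            · rw [one_mul, le_div_iff₀ hc]
              push Not at h5
              linarith
        linarith
      have f1 := key ap rfl
      have f2 := key bp rfl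
      rcases le_total (1 - thl N (vv t) l) (1 - thl N (vv t) k) with h | h
      · rw [min_eq_left h]
        exact (sub_le_sub_left (le_max_left _ _) _).trans f1
      · rw [min_eq_right h]
        exact (sub_le_sub_left (le_max_right _ _) _).trans f2
  have h3 := mul_le_mul_of_nonneg_left (hg.trans hmono) h0
  refine le_trans ?_ h3
  have hsq2 : √2 ≤ (1.41422 : ℝ) := Real.sqrt_le_left (by norm_num) |>.2 (by norm_num)
  have c4 : 0.2357 ≤ 1 / √2 * (1 / 3 : ℝ) := by
    rw [one_div, le_inv_mul_iff₀ (by positivity)]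
    nlinarith
  have h5 : 0 ≤ a * b * (1 - 0.76 * (a + b)) := mul_nonneg (by positivity) (by linarith)
  have h6 := mul_le_mul_of_nonneg_right c4 h5
  calc 0.2357 * (a * b) * (1 - 0.76 * (a + b)) = 0.2357 * (a * b * (1 - 0.76 * (a + b))) := by ring
    _ ≤ 1 / √2 * (1 / 3) * (a * b * (1 - 0.76 * (a + b))) := h6
    _ = 1 / √2 * (a * b / 3 * (1 - 0.76 * (a + b))) := by ring

/-- **mass of the residual with the overlap** -/
theorem rr_ov {N : Fin 3 → Fin 3 → ℝ} (hN : ∀ k m, 0 ≤ N k m) (hN1 : ∀ k m, N k m ≤ 0.4)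
    {c : ℝ} (hc : c < 1) (hcol : ∀ m, Pool.Agent.Helper55.Apex.nc N m ≤ c)
    {j l k : Fin 3} (hjl : j ≠ l) (hjk : j ≠ k) (hlk : l ≠ k) {wl wk : ℝ}
    (hwl : 1 / √2 * ∫ t in Sim, (1 - thl N (vv t) l) * vv t j / mm t ^ 2 ≤ wl)
    (hwk : 1 / √2 * ∫ t in Sim, (1 - thl N (vv t) k) * vv t j / mm t ^ 2 ≤ wk) :
    Pool.Agent.Helper55.Mass.Id (fun t => Pool.Agent.Helper55.Fill.rr N (vv t) j)
      ≤ wl + wk - 0.2357 * (N l j * N k j) * (1 - 0.76 * (N l j + N k j)) := by
  have hov := ov_ge hN hN1 hjl hjk hlk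
  have wl' := wl_int hN l j
  have wk' := wl_int hN k j
  have hnn : ∀ t ∈ Sim, 0 ≤ min (1 - thl N (vv t) l) (1 - thl N (vv t) k) := fun t ht =>
    le_min (by linarith [thl_le_one (N := N) (fun k => vv_nonneg ht k) l])
      (by linarith [thl_le_one (N := N) (fun k => vv_nonneg ht k) k])
  have im : IntegrableOn (fun t => min (1 - thl N (vv t) l) (1 - thl N (vv t) k) * vv t j
      / mm t ^ 2) Sim := by
    refine intOn (C := 1) (((measurable_const.sub (thl_meas l)).min
      (measurable_const.sub (thl_meas k))).mul (vv_meas j)) fun t ht => ?_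
    have h1 := thl_nonneg hN (fun k => vv_nonneg ht k) l
    have h2 := vv_le ht j
    have h3 := vv_nonneg ht j
    have h4 := hnn t ht
    rw [abs_of_nonneg (mul_nonneg h4 h3)]
    exact mul_le_one₀ ((min_le_left _ _).trans (by linarith)) h3 h2
  have hle : ∫ t in Sim, Pool.Agent.Helper55.Fill.rr N (vv t) j / mm t ^ 2
      ≤ ∫ t in Sim, ((1 - thl N (vv t) l) * vv t j / mm t ^ 2
        + (1 - thl N (vv t) k) * vv t j / mm t ^ 2
        - min (1 - thl N (vv t) l) (1 - thl N (vv t) k) * vv t j / mm t ^ 2) := by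
    refine setIntegral_mono_on (Pool.Agent.Helper55.Fill.rr_int hN hc hcol j)
      ((wl'.add wk').sub im) Sim_meas fun t ht => ?_
    have hm : 0 ≤ mm t ^ 2 := by positivity
    have h1 := Pool.Agent.Helper55.Fill.rr_max hN hc hcol (fun k => vv_nonneg ht k) hjl hjk hlk
    have h2 := div_le_div_of_nonneg_right h1 hm
    refine h2.trans (le_of_eq ?_)
    have e : max (1 - thl N (vv t) l) (1 - thl N (vv t) k) = (1 - thl N (vv t) l)
        + (1 - thl N (vv t) k) - min (1 - thl N (vv t) l) (1 - thl N (vv t) k) := by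
      rw [eq_sub_iff_add_eq]
      exact max_add_min _ _
    rw [e]
    ring
  have y1 := integral_sub (wl'.add wk') im
  have y2 := integral_add wl' wk'
  simp only [Pi.add_apply] at y1
  rw [y1, y2] at hle
  have h0 : (0 : ℝ) ≤ 1 / √2 := by positivity
  have h1 := mul_le_mul_of_nonneg_left hle h0
  rw [mul_sub, mul_add] at h1
  unfold Pool.Agent.Helper55.Mass.Id
  linarith

end Pool.Agent.Helper72.Ov
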