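import Pool.Agent.Helper98.MEI.Plane2
import Pool.Agent.Helper72.MEI.Ov

/-!
# The residual masses: second order walls and the overlap at the corner
-/

namespace Pool.Agent.Helper72.Ov

open Set MeasureTheory Pool.Agent.Helper55.Sx Pool.Agent.Helper55.Mass Pool.Agent.Helper98.Wall2

/-- the wall constant of the coordinate `j`, with the overlap -/
noncomputable def wc3 (N : Fin 3 → Fin 3 → ℝ) (j l k : Fin 3) : ℝ :=
  J2 (N l j) (N l k) + J2 (N k j) (N k l)
    - 0.2357 * (N l j * N k j) * (1 - 0.76 * (N l j + N k j))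

/-- **mass of the residual, second order and overlap** -/
theorem rr_mass3 {N : Fin 3 → Fin 3 → ℝ} (hN : ∀ k m, 0 ≤ N k m) (hN' : ∀ k m, N k m ≤ 2 / 5)
    (hd : ∀ k, N k k = 0) {c : ℝ} (hc : c < 1) (hcol : ∀ m, Pool.Agent.Helper55.Apex.nc N m ≤ c)
    {j l k : Fin 3} (hjl : j ≠ l) (hjk : j ≠ k) (hlk : l ≠ k) :
    Pool.Agent.Helper55.Mass.Id (fun t => Pool.Agent.Helper55.Fill.rr N (vv t) j)
      ≤ wc3 N j l k := by
  have hN1 : ∀ k m, N k m ≤ 0.4 := fun k m => (hN' k m).trans (by norm_num)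
  have h := rr_ov hN hN1 hc hcol hjl hjk hlk
    (wl_le2 hN hN' hd (Ne.symm hjl) hlk hjk) (wl_le2 hN hN' hd (Ne.symm hjk) (Ne.symm hlk) hjl)
  unfold wc3
  exact h

/-- the overlap with a constant coefficient -/
theorem wc3_le {N : Fin 3 → Fin 3 → ℝ} (hN : ∀ k m, 0 ≤ N k m) {j l k : Fin 3} {r : ℝ}
    (hr : N l j + N k j ≤ r) :
    wc3 N j l k ≤ J2 (N l j) (N l k) + J2 (N k j) (N k l)
      - 0.2357 * (1 - 0.76 * r) * (N l j * N k j) := by
  have h1 := mul_nonneg (hN l j) (hN k j)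
  have h2 := mul_le_mul_of_nonneg_left hr h1
  unfold wc3
  linarith

end Pool.Agent.Helper72.Ov
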