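import Pool.Agent.Helper31.ARC.ArcP
import Pool.Agent.Helper73.MEI.SidePhi

/-!
# Project MEI (M2), faces: dedicated inside functions of the arcs

`fd l = (1 - Φ) * arP l + φu * flP l + φ l * alP (zd l)`, `Φ = φu + φ 0 + φ 1 + φ 2`, where `zd l` is
`1` at the two other corners and `1 / 1000` at `l` (so that `alP (zd l)` is the minimum of the two
contact coordinates at the ends of the side, up to the factor at `l`). The family `fd` satisfies the
hypothesis of `Helper22.Mix.face_mix` with the apex weight `lam ≤ 1 - Φ`.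
-/

set_option autoImplicit false

namespace Helper72.Ded

open Set MeasureTheory Real Matrix
open Pool.Agent.Helper55.Sx (Sim mm mm_pos mm_cont)
open Pool.Agent.Helper55.Mass (LN LN_nonneg vv vv_nonneg vv_le B0 intOn)
open Pool.Agent.Helper55.Apex (nc vt_vv)
open Pool.Agent.Helper55.ApexP (PN PN_nonneg PN_det_pos alP alP_nonneg alP_zeta alP_meas alP_bound
  xx_mu alP_int alP_mass cbP)
open Pool.Agent.Helper31.ARC (arP arP_nonneg arP_pair arP_meas arP_int arP_zero rsP arcP_mass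
  arcP_mass_le cP)
open Pool.Agent.Helper73.MEI.SideP (flP flP_nonneg flP_pair flP_meas flP_int flP_zero flN_mass
  flN_pos mbN mbN_ge)
open Helper75.MEI2 (mu vt)

variable {N : Fin 3 → Fin 3 → ℝ} {ζp φ : Fin 3 → ℝ} {φu : ℝ}

/-- coordinates of the dedicated tent of the side opposite to the corner `l` -/
noncomputable def zd (l k : Fin 3) : ℝ := if k = l then 1 / 1000 else 1

theorem zd_pos (l k : Fin 3) : 0 < zd l k := by
  unfold zd
  split_ifs <;> norm_num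

theorem zd_self (l : Fin 3) : zd l l = 1 / 1000 := if_pos rfl

theorem zd_ne {l k : Fin 3} (h : k ≠ l) : zd l k = 1 := if_neg h

theorem zd_sum (l : Fin 3) : (2001 / 1000 : ℝ) = zd l 0 + zd l 1 + zd l 2 := by
  fin_cases l
  · rw [show ((fun i => i) (⟨0, by decide⟩ : Fin 3)) = 0 from rfl, zd_self,
      zd_ne (show (1 : Fin 3) ≠ 0 by decide), zd_ne (show (2 : Fin 3) ≠ 0 by decide)]
    norm_num
  · rw [show ((fun i => i) (⟨1, by decide⟩ : Fin 3)) = 1 from rfl, zd_self,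
      zd_ne (show (0 : Fin 3) ≠ 1 by decide), zd_ne (show (2 : Fin 3) ≠ 1 by decide)]
    norm_num
  · rw [show ((fun i => i) (⟨2, by decide⟩ : Fin 3)) = 2 from rfl, zd_self,
      zd_ne (show (0 : Fin 3) ≠ 2 by decide), zd_ne (show (1 : Fin 3) ≠ 2 by decide)]
    norm_num

/-- the total weight -/
noncomputable def Ph (φ : Fin 3 → ℝ) (φu : ℝ) : ℝ := φu + (φ 0 + φ 1 + φ 2)

/-- the mixture of chamber arcs, side functions and dedicated tents -/
noncomputable def fd (N : Fin 3 → Fin 3 → ℝ) (ζp φ : Fin 3 → ℝ) (φu : ℝ) (l : Fin 3)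
    (t : ℝ × ℝ) : ℝ :=
  (1 - Ph φ φu) * arP (PN N) ζp l t + φu * flP (PN N) l t + φ l * alP N (zd l) t

theorem alP_zero {ζ : Fin 3 → ℝ} {t : ℝ × ℝ} (h : ¬ ∀ k, 0 ≤ mu (PN N) (vt t) k) :
    alP N ζ t = 0 := by
  unfold alP
  rw [if_neg h]

theorem fd_nonneg (hζp : ∀ k, 0 < ζp k) (hφu : 0 ≤ φu) (hφ0 : ∀ l, 0 ≤ φ l)
    (hφ1 : Ph φ φu ≤ 1) (l : Fin 3) (t : ℝ × ℝ) : 0 ≤ fd N ζp φ φu l t := by
  have h1 := mul_nonneg (show 0 ≤ 1 - Ph φ φu by linarith) (arP_nonneg (P := PN N) hζp l t)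
  have h2 := mul_nonneg hφu (flP_nonneg (P := PN N) l t)
  have h3 := mul_nonneg (hφ0 l) (alP_nonneg (N := N) (zd_pos l) t)
  unfold fd
  linarith

theorem fd_meas (l : Fin 3) : Measurable (fd N ζp φ φu l) :=
  (((arP_meas l).const_mul _).add ((flP_meas l).const_mul _)).add (alP_meas.const_mul _)

theorem fd_zero (l : Fin 3) {t : ℝ × ℝ} (h : ¬ ∀ k, 0 ≤ mu (PN N) (vt t) k) :
    fd N ζp φ φu l t = 0 := by
  have h' := h
  push Not at h'
  unfold fd
  rw [arP_zero h', flP_zero h', alP_zero h, mul_zero, mul_zero, mul_zero, add_zero, add_zero]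

theorem alP_eq (t : ℝ × ℝ) :
    Pool.Agent.Helper31.ARC.alP (PN N) ζp t = alP N ζp t := rfl

/-- the dedicated tents are feasible -/
theorem zd_le {t : ℝ × ℝ} (h : ∀ k, 0 ≤ mu (PN N) (vt t) k) {l k : Fin 3} (hlk : l ≠ k) :
    alP N (zd l) t ≤ mu (PN N) (vt t) k := by
  have h1 := alP_zeta (N := N) (zd_pos l) h k
  have h2 : zd l k = 1 := by
    unfold zd
    rw [if_neg (fun e => hlk e.symm)]
  rw [h2, mul_one] at h1
  exact h1

/-- **the hypothesis of `face_mix`** -/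
theorem fd_pair (hζp : ∀ k, 0 < ζp k) (hφu : 0 ≤ φu) (hφ0 : ∀ l, 0 ≤ φ l)
    (hφ1 : Ph φ φu ≤ 1) {lam : ℝ} (hl1 : lam ≤ 1 - Ph φ φu) {t : ℝ × ℝ}
    (h : ∀ k, 0 ≤ mu (PN N) (vt t) k) (k : Fin 3) :
    lam * alP N ζp t * ζp k +
      ((fd N ζp φ φu 0 t + fd N ζp φ φu 1 t + fd N ζp φ φu 2 t) - fd N ζp φ φu k t) ≤
      mu (PN N) (vt t) k := by
  obtain ⟨p0, p1, p2⟩ := arP_pair hζp h
  obtain ⟨q0, q1, q2⟩ := flP_pair h
  have h1 : 0 ≤ 1 - Ph φ φu := by linarith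
  have hz := mul_le_mul_of_nonneg_right hl1
    (mul_nonneg (alP_nonneg (N := N) hζp t) (hζp k).le)
  have key : ∀ A B Z X f1 f2 D1 D2 f3 : ℝ, A ≤ X - Z → B ≤ X → 0 ≤ f1 → 0 ≤ f2 → D1 ≤ X →
      D2 ≤ X → 0 ≤ f3 → 0 ≤ X → Ph φ φu = φu + (f1 + f2 + f3) →
      (1 - Ph φ φu) * Z + ((1 - Ph φ φu) * A + φu * B + f1 * D1 + f2 * D2) ≤ X := by
    intro A B Z X f1 f2 D1 D2 f3 hA hB hf1 hf2 hD1 hD2 hf3 hX e
    have k1 := mul_le_mul_of_nonneg_left hA h1
    have k2 := mul_le_mul_of_nonneg_left hB hφu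
    have k3 := mul_le_mul_of_nonneg_left hD1 hf1
    have k4 := mul_le_mul_of_nonneg_left hD2 hf2
    have k5 := mul_nonneg hf3 hX
    have e2 : (1 - Ph φ φu) * X = X - φu * X - f1 * X - f2 * X - f3 * X := by
      rw [e]
      ring
    have e3 : (1 - Ph φ φu) * (X - Z) = (1 - Ph φ φu) * X - (1 - Ph φ φu) * Z := by ring
    linarith
  unfold rsP at p0 p1 p2
  rw [alP_eq] at p0 p1 p2
  have d01 := zd_le (N := N) h (show (0 : Fin 3) ≠ 1 by decide)
  have d02 := zd_le (N := N) h (show (0 : Fin 3) ≠ 2 by decide)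
  have d10 := zd_le (N := N) h (show (1 : Fin 3) ≠ 0 by decide)
  have d12 := zd_le (N := N) h (show (1 : Fin 3) ≠ 2 by decide)
  have d20 := zd_le (N := N) h (show (2 : Fin 3) ≠ 0 by decide)
  have d21 := zd_le (N := N) h (show (2 : Fin 3) ≠ 1 by decide)
  have r0 := key _ _ _ _ (φ 1) (φ 2) _ _ (φ 0) p0 q0 (hφ0 1) (hφ0 2) d10 d20 (hφ0 0) (h 0)
    (by unfold Ph; ring)
  have r1 := key _ _ _ _ (φ 0) (φ 2) _ _ (φ 1) p1 q1 (hφ0 0) (hφ0 2) d01 d21 (hφ0 1) (h 1)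
    (by unfold Ph; ring)
  have r2 := key _ _ _ _ (φ 0) (φ 1) _ _ (φ 2) p2 q2 (hφ0 0) (hφ0 1) d02 d12 (hφ0 2) (h 2)
    (by unfold Ph; ring)
  unfold fd
  fin_cases k
  · simp only [Fin.zero_eta] at hz ⊢
    linarith
  · simp only [Fin.mk_one] at hz ⊢
    linarith
  · simp only [Fin.reduceFinMk] at hz ⊢
    linarith

/-- bound of the mean of the quadratic form on the dedicated tent -/
noncomputable def cdN (N : Fin 3 → Fin 3 → ℝ) (l : Fin 3) : ℝ :=
  0.24168 + (1.0005 * (nc N l + nc N l ^ 2)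
      + 1.5 * (nc N (l + 1) + nc N (l + 1) ^ 2 + nc N (l + 2) + nc N (l + 2) ^ 2)) / 12
    + (1.5008 * (N l (l + 1) + N (l + 1) l + N l (l + 2) + N (l + 2) l)
      + 2.5 * (N (l + 1) (l + 2) + N (l + 2) (l + 1))) / 60

theorem cd_le (hN : ∀ k m, 0 ≤ N k m) (l : Fin 3) :
    cbP N (fun k => zd l k / (2001 / 1000)) ≤ cdN N l := by
  have hn : ∀ k, 0 ≤ nc N k := fun k => by
    have a0 := hN 0 k
    have a1 := hN 1 k
    have a2 := hN 2 k
    unfold nc
    linarith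
  have n0 := hn 0
  have n1 := hn 1
  have n2 := hn 2
  have s0 := sq_nonneg (nc N 0)
  have s1 := sq_nonneg (nc N 1)
  have s2 := sq_nonneg (nc N 2)
  have p01 := mul_nonneg (hN 1 0) (hN 2 0)
  have p02 := mul_nonneg (hN 0 1) (hN 2 1)
  have p12 := mul_nonneg (hN 0 2) (hN 1 2)
  have h01 := hN 0 1
  have h02 := hN 0 2
  have h10 := hN 1 0
  have h12 := hN 1 2
  have h20 := hN 2 0
  have h21 := hN 2 1
  fin_cases l
  · have z0 : zd 0 0 = 1 / 1000 := zd_self 0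
    have z1 : zd 0 1 = 1 := zd_ne (by decide)
    have z2 : zd 0 2 = 1 := zd_ne (by decide)
    show cbP N (fun k => zd 0 k / (2001 / 1000)) ≤ 0.24168 + (1.0005 * (nc N 0 + nc N 0 ^ 2)
      + 1.5 * (nc N 1 + nc N 1 ^ 2 + nc N 2 + nc N 2 ^ 2)) / 12
      + (1.5008 * (N 0 1 + N 1 0 + N 0 2 + N 2 0) + 2.5 * (N 1 2 + N 2 1)) / 60
    unfold cbP
    simp only [z0, z1, z2]
    norm_num
    linarith
  · have z0 : zd 1 0 = 1 := zd_ne (by decide)
    have z1 : zd 1 1 = 1 / 1000 := zd_self 1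
    have z2 : zd 1 2 = 1 := zd_ne (by decide)
    show cbP N (fun k => zd 1 k / (2001 / 1000)) ≤ 0.24168 + (1.0005 * (nc N 1 + nc N 1 ^ 2)
      + 1.5 * (nc N 2 + nc N 2 ^ 2 + nc N 0 + nc N 0 ^ 2)) / 12
      + (1.5008 * (N 1 2 + N 2 1 + N 1 0 + N 0 1) + 2.5 * (N 2 0 + N 0 2)) / 60
    unfold cbP
    simp only [z0, z1, z2]
    norm_num
    linarith
  · have z0 : zd 2 0 = 1 := zd_ne (by decide)
    have z1 : zd 2 1 = 1 := zd_ne (by decide)
    have z2 : zd 2 2 = 1 / 1000 := zd_self 2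
    show cbP N (fun k => zd 2 k / (2001 / 1000)) ≤ 0.24168 + (1.0005 * (nc N 2 + nc N 2 ^ 2)
      + 1.5 * (nc N 0 + nc N 0 ^ 2 + nc N 1 + nc N 1 ^ 2)) / 12
      + (1.5008 * (N 2 0 + N 0 2 + N 2 1 + N 1 2) + 2.5 * (N 0 1 + N 1 0)) / 60
    unfold cbP
    simp only [z0, z1, z2]
    norm_num
    linarith

section mass
variable (hN : ∀ k m, 0 ≤ N k m) (hd : ∀ k, N k k = 0) {c : ℝ} (hc : c < 1)
  (hcol : ∀ m, nc N m ≤ c)
include hN hd hc hcol

omit hN hd hc hcol in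
theorem cdN_ge (hN : ∀ k m, 0 ≤ N k m) (l : Fin 3) : 0.24168 ≤ cdN N l := by
  have hn : ∀ k, 0 ≤ nc N k + nc N k ^ 2 := fun k => by
    have a0 := hN 0 k
    have a1 := hN 1 k
    have a2 := hN 2 k
    have : 0 ≤ nc N k := by unfold nc; linarith
    positivity
  have n0 := hn l
  have n1 := hn (l + 1)
  have n2 := hn (l + 2)
  have h1 := hN l (l + 1)
  have h2 := hN (l + 1) l
  have h3 := hN l (l + 2)
  have h4 := hN (l + 2) l
  have h5 := hN (l + 1) (l + 2)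
  have h6 := hN (l + 2) (l + 1)
  unfold cdN
  linarith

/-- **mass of the dedicated tent** -/
theorem ded_mass (l : Fin 3) :
    1 / √2 * ((PN N).det / (54 * (2001 / 1000) * cdN N l ^ 2)) ≤
      Pool.Agent.Helper55.Mass.Id (alP N (zd l)) := by
  have h1 := alP_mass hN hd hc hcol (ζ := zd l) (zd_pos l) (zd_sum l)
  refine le_trans ?_ h1
  have h2 := cd_le hN l
  have h3 := Pool.Agent.Helper55.ApexP.ccP_ge hN (A := fun k => zd l k / (2001 / 1000))
    (fun k => div_pos (zd_pos l k) (by norm_num)) (by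
      rw [← add_div, ← add_div, ← zd_sum l]
      norm_num)
  have h4 := Pool.Agent.Helper55.ApexP.ccP_le hd (A := fun k => zd l k / (2001 / 1000))
    (fun k => (div_pos (zd_pos l k) (by norm_num)).le) (by
      rw [← add_div, ← add_div, ← zd_sum l]
      norm_num)
  have hdp := PN_det_pos hN hd hc hcol
  refine mul_le_mul_of_nonneg_left ?_ (by positivity)
  set D := cbP N (fun k => zd l k / (2001 / 1000))
  have hD : 0 < D := by linarith
  refine div_le_div_of_nonneg_left hdp.le (by positivity) ?_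
  have : D ^ 2 ≤ cdN N l ^ 2 := pow_le_pow_left₀ hD.le h2 2
  linarith

theorem fd_Id (hζp : ∀ k, 0 < ζp k) (l : Fin 3) :
    Pool.Agent.Helper55.Mass.Id (fd N ζp φ φu l) =
      (1 - Ph φ φu) * Pool.Agent.Helper55.Mass.Id (arP (PN N) ζp l)
        + φu * Pool.Agent.Helper55.Mass.Id (flP (PN N) l)
        + φ l * Pool.Agent.Helper55.Mass.Id (alP N (zd l)) := by
  have i1 := arP_int (P := PN N) hζp l
  have i2 := flP_int (P := PN N) l
  have i3 := alP_int hN hd hc hcol (zd_pos l)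
  unfold Pool.Agent.Helper55.Mass.Id
  have e : ∀ t : ℝ × ℝ, fd N ζp φ φu l t / mm t ^ 2 =
      (1 - Ph φ φu) * (arP (PN N) ζp l t / mm t ^ 2) + φu * (flP (PN N) l t / mm t ^ 2)
        + φ l * (alP N (zd l) t / mm t ^ 2) := by
    intro t
    unfold fd
    ring
  have i12 : IntegrableOn (fun t => (1 - Ph φ φu) * (arP (PN N) ζp l t / mm t ^ 2)
      + φu * (flP (PN N) l t / mm t ^ 2)) Sim := (i1.const_mul _).add (i2.const_mul _)
  simp only [e]
  rw [integral_add i12 (i3.const_mul _), integral_add (i1.const_mul _) (i2.const_mul _),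
    integral_const_mul, integral_const_mul, integral_const_mul]
  ring

/-- **mass of the family** -/
theorem fd_mass (hζp : ∀ k, 0 < ζp k) (hφu : 0 ≤ φu) (hφ0 : ∀ l, 0 ≤ φ l)
    (hφ1 : Ph φ φu ≤ 1) (l : Fin 3) :
    (1 - Ph φ φu) * (1 / √2 * (ζp l * (PN N).det / (108 * cP (PN N) ζp l ^ 2)))
      + φu * (1 / √2 * ((PN N).det / (16 * mbN N l ^ 2)))
      + φ l * (1 / √2 * ((PN N).det / (54 * (2001 / 1000) * cdN N l ^ 2))) ≤
      Pool.Agent.Helper55.Mass.Id (fd N ζp φ φu l) := by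
  rw [fd_Id hN hd hc hcol hζp l]
  have h1 := arcP_mass (PN_nonneg hN) (PN_det_pos hN hd hc hcol) hζp l
  have h2 := flN_mass hN hd hc hcol l
  have h3 := ded_mass hN hd hc hcol l
  exact add_le_add (add_le_add (mul_le_mul_of_nonneg_left h1 (by linarith))
    (mul_le_mul_of_nonneg_left h2 hφu)) (mul_le_mul_of_nonneg_left h3 (hφ0 l))

theorem fd_pos (hζp : ∀ k, 0 < ζp k) (hφu : 0 ≤ φu) (hφ0 : ∀ l, 0 ≤ φ l)
    (hφ1 : Ph φ φu ≤ 1) (l : Fin 3) (hpos : Ph φ φu < 1 ∨ 0 < φu ∨ 0 < φ l) :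
    0 < Pool.Agent.Helper55.Mass.Id (fd N ζp φ φu l) := by
  have h1 := fd_mass hN hd hc hcol hζp hφu hφ0 hφ1 l
  have hdp := PN_det_pos hN hd hc hcol
  have hm := mbN_ge hN l
  have hm0 : 0 < mbN N l := by linarith
  have hcp := Pool.Agent.Helper31.ARC.cP_pos (PN_nonneg hN) hdp hζp l
  have hcd := cdN_ge hN l
  have hcd0 : 0 < cdN N l := by linarith
  have hz := hζp l
  have p1 : 0 < 1 / √2 * (ζp l * (PN N).det / (108 * cP (PN N) ζp l ^ 2)) := by positivity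
  have p2 : 0 < 1 / √2 * ((PN N).det / (16 * mbN N l ^ 2)) := by positivity
  have p3 : 0 < 1 / √2 * ((PN N).det / (54 * (2001 / 1000) * cdN N l ^ 2)) := by positivity
  have q1 := mul_nonneg (show 0 ≤ 1 - Ph φ φu by linarith) p1.le
  have q2 := mul_nonneg hφu p2.le
  have q3 := mul_nonneg (hφ0 l) p3.le
  rcases hpos with h | h | h
  · have := mul_pos (show 0 < 1 - Ph φ φu by linarith) p1
    linarith
  · have := mul_pos h p2
    linarith
  · have := mul_pos h p3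
    linarith

/-- **the arcs are paid by the family**: sufficient numbers -/
theorem fd_ok (hζp : ∀ k, 0 < ζp k) (hφu : 0 ≤ φu) (hφ0 : ∀ l, 0 ≤ φ l)
    (hφ1 : Ph φ φu ≤ 1) {A' b C1 C2 C3 d : ℝ}
    (hA : 0 < A') (l : Fin 3) (hC1 : cP (PN N) ζp l ≤ C1) (hC2 : mbN N l ≤ C2)
    (hC3 : cdN N l ≤ C3) (hd0 : 0 ≤ d) (hdd : d ≤ (PN N).det)
    (hb : b ≤ A' * ((1 - Ph φ φu) * (ζp l * d / (152.736 * C1 ^ 2))
      + φu * (d / (22.6276 * C2 ^ 2)) + φ l * (d / (152.813 * C3 ^ 2)))) :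
    b ≤ A' * Pool.Agent.Helper55.Mass.Id (fd N ζp φ φu l) := by
  refine hb.trans (mul_le_mul_of_nonneg_left (le_trans ?_
    (fd_mass hN hd hc hcol hζp hφu hφ0 hφ1 l)) hA.le)
  have hcp := Pool.Agent.Helper31.ARC.cP_pos (PN_nonneg hN) (PN_det_pos hN hd hc hcol) hζp l
  have hm := mbN_ge hN l
  have hm0 : 0 < mbN N l := by linarith
  have hcd := cdN_ge hN l
  have hcd0 : 0 < cdN N l := by linarith
  have hC10 : 0 < C1 := by linarith
  have hC20 : 0 < C2 := by linarith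
  have hC30 : 0 < C3 := by linarith
  have hz := hζp l
  have hs : 0 < √2 := by positivity
  have hs2 : √2 ≤ 1.414222 := by
    rw [Real.sqrt_le_left (by norm_num)]
    norm_num
  have g1 : ζp l * d / (152.736 * C1 ^ 2) ≤
      1 / √2 * (ζp l * (PN N).det / (108 * cP (PN N) ζp l ^ 2)) := by
    rw [one_div_mul_eq_div, div_div]
    refine div_le_div₀ (mul_nonneg hz.le (hd0.trans hdd))
      (mul_le_mul_of_nonneg_left hdd hz.le) (by positivity) ?_
    have k1 : cP (PN N) ζp l ^ 2 ≤ C1 ^ 2 := pow_le_pow_left₀ hcp.le hC1 2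
    calc 108 * cP (PN N) ζp l ^ 2 * √2 ≤ 108 * C1 ^ 2 * 1.414222 := by
          apply mul_le_mul _ hs2 hs.le (by positivity)
          linarith
      _ ≤ 152.736 * C1 ^ 2 := by nlinarith [sq_nonneg C1]
  have g2 : d / (22.6276 * C2 ^ 2) ≤ 1 / √2 * ((PN N).det / (16 * mbN N l ^ 2)) := by
    rw [one_div_mul_eq_div, div_div]
    refine div_le_div₀ (hd0.trans hdd) hdd (by positivity) ?_
    have k1 : mbN N l ^ 2 ≤ C2 ^ 2 := pow_le_pow_left₀ hm0.le hC2 2
    calc 16 * mbN N l ^ 2 * √2 ≤ 16 * C2 ^ 2 * 1.414222 := by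
          apply mul_le_mul _ hs2 hs.le (by positivity)
          linarith
      _ ≤ 22.6276 * C2 ^ 2 := by nlinarith [sq_nonneg C2]
  have g3 : d / (152.813 * C3 ^ 2) ≤
      1 / √2 * ((PN N).det / (54 * (2001 / 1000) * cdN N l ^ 2)) := by
    rw [one_div_mul_eq_div, div_div]
    refine div_le_div₀ (hd0.trans hdd) hdd (by positivity) ?_
    have k1 : cdN N l ^ 2 ≤ C3 ^ 2 := pow_le_pow_left₀ hcd0.le hC3 2
    calc 54 * (2001 / 1000) * cdN N l ^ 2 * √2 ≤ 54 * (2001 / 1000) * C3 ^ 2 * 1.414222 := by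
          apply mul_le_mul _ hs2 hs.le (by positivity)
          linarith
      _ ≤ 152.813 * C3 ^ 2 := by nlinarith [sq_nonneg C3]
  have r1 := mul_le_mul_of_nonneg_left g1 (show 0 ≤ 1 - Ph φ φu by linarith)
  have r2 := mul_le_mul_of_nonneg_left g2 hφu
  have r3 := mul_le_mul_of_nonneg_left g3 (hφ0 l)
  linarith

end mass

end Helper72.Ded
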