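import Pool.Agent.Helper96.MEI.Kap4
import Pool.Agent.Helper55.MEI.Mass2

/-!
# Project MEI (M2), faces: a point beyond the side `l`, on the residual of the strip of `l`

Let `b` be the barycentric coordinates of a point `y` of the body with `b l ≤ 0`, `Y k = max (b k) 0`
(so `Y l = 0`), `Y k ≤ B`. On the strip of the wall `l` both other residuals are at least `kap l`, so
that the weight `gz = (1 - θ) / B * kap l` is feasible, with the share `θ` of the strip `l` and the
two other strips left to the arcs (`kth`).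
-/

set_option autoImplicit false

namespace Helper72.R3

open Set MeasureTheory
open Pool.Agent.Helper55.Sx (Sim mm mm_pos mm_cont)
open Pool.Agent.Helper55.Mass (LN LN_nonneg vv vv_nonneg vv_le intOn Id_const)
open Pool.Agent.Helper55.Apex (nc)
open Pool.Agent.Helper55.Fill (xx rr rr_nonneg xx_nonneg xx_le)
open Pool.Agent.Helper96.Kap

variable {N : Fin 3 → Fin 3 → ℝ} {l : Fin 3} {θ B : ℝ}

/-- the strips left to the arcs: the share `θ` of the wall `l`, the two others in full -/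
noncomputable def kth (N : Fin 3 → Fin 3 → ℝ) (l : Fin 3) (θ : ℝ) (m : Fin 3) (t : ℝ × ℝ) : ℝ :=
  if m = l then θ * kap N (vv t) m else kap N (vv t) m

/-- weight of the point on the residual of the strip of the wall `l` -/
noncomputable def gz (N : Fin 3 → Fin 3 → ℝ) (l : Fin 3) (θ B : ℝ) (t : ℝ × ℝ) : ℝ :=
  (1 - θ) / B * kap N (vv t) l

theorem kth_self (t : ℝ × ℝ) : kth N l θ l t = θ * kap N (vv t) l := if_pos rfl

theorem kth_ne {m : Fin 3} (h : m ≠ l) (t : ℝ × ℝ) : kth N l θ m t = kap N (vv t) m := if_neg h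

theorem kth_self' : kth N l θ l = fun t => θ * kap N (vv t) l := funext fun t => kth_self t

theorem kth_ne' {m : Fin 3} (h : m ≠ l) : kth N l θ m = fun t => kap N (vv t) m :=
  funext fun t => kth_ne h t

/-- two other corners -/
theorem two_ne {k m : Fin 3} (h : k ≠ m) (f : Fin 3 → ℝ) {j : Fin 3} (hjk : j ≠ k) (hjm : j ≠ m) :
    f 0 + f 1 + f 2 = f k + f m + f j := by
  fin_cases k <;> fin_cases m <;> fin_cases j <;> simp_all <;> ring

theorem ex_third {k m : Fin 3} (h : k ≠ m) : ∃ j : Fin 3, j ≠ k ∧ j ≠ m := by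
  revert h
  revert k m
  decide

section
variable (hN : ∀ k m, 0 ≤ N k m) {c : ℝ} (hc : c < 1) (hcol : ∀ m, nc N m ≤ c)
include hN hc hcol

theorem kth_nonneg (hθ0 : 0 ≤ θ) (m : Fin 3) {t : ℝ × ℝ} (ht : t ∈ Sim) : 0 ≤ kth N l θ m t := by
  have h := kap_nonneg hN hc hcol (fun k => vv_nonneg ht k) m
  unfold kth
  split_ifs
  · exact mul_nonneg hθ0 h
  · exact h

theorem kth_meas (m : Fin 3) : Measurable (kth N l θ m) := by
  have h := kap_meas hN hc hcol m
  by_cases e : m = l
  · rw [e, kth_self']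
    exact (kap_meas hN hc hcol l).const_mul _
  · rw [kth_ne' e]
    exact h

theorem kth_le_one (hθ1 : θ ≤ 1) (m : Fin 3) {t : ℝ × ℝ} (ht : t ∈ Sim) :
    kth N l θ m t ≤ 1 := by
  have h := kap_nonneg hN hc hcol (fun k => vv_nonneg ht k) m
  have h1 := kap_le_one hN hc hcol ht m
  unfold kth
  split_ifs
  · have := mul_le_mul_of_nonneg_right hθ1 h
    linarith
  · exact h1

theorem gz_nonneg (hθ1 : θ ≤ 1) (hB : 0 < B) {t : ℝ × ℝ} (ht : t ∈ Sim) : 0 ≤ gz N l θ B t :=
  mul_nonneg (div_nonneg (by linarith) hB.le)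
    (kap_nonneg hN hc hcol (fun k => vv_nonneg ht k) l)

theorem gz_meas : Measurable (gz N l θ B) := (kap_meas hN hc hcol l).const_mul _

theorem gz_le (hθ0 : 0 ≤ θ) (hθ1 : θ ≤ 1) (hB : 0 < B) {t : ℝ × ℝ} (ht : t ∈ Sim) :
    gz N l θ B t ≤ 1 / B := by
  have h := kap_nonneg hN hc hcol (fun k => vv_nonneg ht k) l
  have h1 := kap_le_one hN hc hcol ht l
  have h2 : 0 ≤ (1 - θ) / B := div_nonneg (by linarith) hB.le
  have h3 : (1 - θ) / B ≤ 1 / B := div_le_div_of_nonneg_right (by linarith) hB.le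
  have h4 := mul_le_mul_of_nonneg_left h1 h2
  unfold gz
  linarith

/-- **the strips and the point together fit into the residual** -/
theorem strip_feas (hθ1 : θ ≤ 1) (hB : 0 < B) {Y : Fin 3 → ℝ} (hYl : Y l ≤ 0)
    (hYB : ∀ k, k ≠ l → Y k ≤ B) {t : ℝ × ℝ} (ht : t ∈ Sim) (k : Fin 3) :
    (kth N l θ 0 t + kth N l θ 1 t + kth N l θ 2 t) - kth N l θ k t + gz N l θ B t * Y k
      ≤ rr N (vv t) k := by
  have hb := fun k => vv_nonneg ht k
  have hg0 := gz_nonneg (l := l) hN hc hcol hθ1 hB ht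
  have hk0 := kap_nonneg hN hc hcol hb l
  by_cases e : k = l
  · subst e
    obtain ⟨j, m, hjm, hjk, hmk⟩ : ∃ j m : Fin 3, j ≠ m ∧ j ≠ k ∧ m ≠ k := by
      clear * -
      revert k
      decide
    rw [two_ne hjk.symm (fun m => kth N k θ m t) hmk hjm.symm]
    have h1 := kap_add hN hc hcol hb hjm hjk hmk
    rw [kth_ne hjk, kth_ne hmk]
    have h2 := mul_nonpos_of_nonneg_of_nonpos hg0 hYl
    linarith
  · obtain ⟨m, hmk, hml⟩ := ex_third e
    rw [two_ne e (fun m => kth N l θ m t) hmk hml, kth_self, kth_ne hml]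
    have h1 := kap_add hN hc hcol hb (Ne.symm hml) (Ne.symm e) hmk
    have h2 := mul_le_mul_of_nonneg_left (hYB k e) hg0
    have h3 : gz N l θ B t * B = (1 - θ) * kap N (vv t) l := by
      unfold gz
      field_simp
    linarith

omit hN hc hcol in
/-- mass of the point on the residual -/
theorem gz_Id : Pool.Agent.Helper55.Mass.Id (gz N l θ B) =
    (1 - θ) / B * Pool.Agent.Helper55.Mass.Id (fun t => kap N (vv t) l) :=
  Id_const _ _

/-- **mass of the point on the residual, from below** -/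
theorem gz_Id_ge (hd : ∀ k, N k k = 0) {e : ℝ} {j k : Fin 3} (hlj : l ≠ j)
    (hlk : l ≠ k) (hjk : j ≠ k) (hc1 : N l j * N j l + N l k * N k l ≤ 1)
    (hxe : N l j ≤ e) (hye : N l k ≤ e) (hp1 : N j k ≤ 1) (hq1 : N k j ≤ 1)
    (hθ1 : θ ≤ 1) (hB : 0 < B) :
    (1 - θ) / B * kapL e (N l j) (N l k) (N j k) (N k j)
      ≤ Pool.Agent.Helper55.Mass.Id (gz N l θ B) := by
  rw [gz_Id]
  exact mul_le_mul_of_nonneg_left (kap_mass hN hc hcol hd hlj hlk hjk hc1 hxe hye hp1 hq1)
    (div_nonneg (by linarith) hB.le)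

omit hN hc hcol in
theorem kth_Id_self : Pool.Agent.Helper55.Mass.Id (kth N l θ l) =
    θ * Pool.Agent.Helper55.Mass.Id (fun t => kap N (vv t) l) := by
  rw [kth_self']
  exact Id_const _ _

end

end Helper72.R3
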