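import Pool.Agent.Helper72.MEI.R3i

/-!
# Project MEI (M2): wall mass of a point beyond a side, outer integral from below
-/

set_option autoImplicit false

namespace Helper72.R3

open Set MeasureTheory Pool.Agent.Helper55.Sx Pool.Agent.Helper55.Mass
open Pool.Agent.Helper96.Kap (t3_meas)

/-- complete homogeneous polynomial of degree 2 over 6, minus degree 3 over 10 -/
noncomputable def tq3 (a c b : ℝ) : ℝ :=
  (a ^ 2 + b ^ 2 + c ^ 2 + a * b + b * c + c * a) / 6
    - (a ^ 3 + b ^ 3 + c ^ 3 + a ^ 2 * b + a ^ 2 * c + b ^ 2 * a + b ^ 2 * c + c ^ 2 * a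
      + c ^ 2 * b + a * b * c) / 10

/-- `∫ T s * (κ + lm s (1 - s))`, `T` the tent with the knots `a < c < b` and height `1` -/
noncomputable def tf (κ lm a c b : ℝ) : ℝ :=
  (b - a) / 2 * (κ * ((a + c + b) / 3) + lm * tq3 a c b)

theorem tent_int {a c b : ℝ} (hac : a < c) (hcb : c < b) (w0 w1 w2 w3 : ℝ) :
    (∫ s in a..c, (s - a) / (c - a) * (w0 + w1 * s + w2 * s ^ 2 + w3 * s ^ 3))
      + ∫ s in c..b, (b - s) / (b - c) * (w0 + w1 * s + w2 * s ^ 2 + w3 * s ^ 3)
    = (b - a) / 2 * (w0 + w1 * ((a + c + b) / 3)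
        + w2 * ((a ^ 2 + b ^ 2 + c ^ 2 + a * b + b * c + c * a) / 6)
        + w3 * ((a ^ 3 + b ^ 3 + c ^ 3 + a ^ 2 * b + a ^ 2 * c + b ^ 2 * a + b ^ 2 * c
          + c ^ 2 * a + c ^ 2 * b + a * b * c) / 10)) := by
  have h1 : c - a ≠ 0 := by linarith
  have h2 : b - c ≠ 0 := by linarith
  have e1 : ∫ s in a..c, (s - a) / (c - a) * (w0 + w1 * s + w2 * s ^ 2 + w3 * s ^ 3)
      = _ := Eq.trans (intervalIntegral.integral_congr fun y _ => by
        show (y - a) / (c - a) * (w0 + w1 * y + w2 * y ^ 2 + w3 * y ^ 3) =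
          (-a * w0 / (c - a)) * y ^ 0 + ((w0 - a * w1) / (c - a)) * y ^ 1
          + ((w1 - a * w2) / (c - a)) * y ^ 2 + ((w2 - a * w3) / (c - a)) * y ^ 3
          + (w3 / (c - a)) * y ^ 4 + 0 * y ^ 5 + 0 * y ^ 6 + 0 * y ^ 7 + 0 * y ^ 8 + 0 * y ^ 9
          + 0 * y ^ 10
        ring) (P11 _ _ _ _ _ 0 0 0 0 0 0 a c)
  have e2 : ∫ s in c..b, (b - s) / (b - c) * (w0 + w1 * s + w2 * s ^ 2 + w3 * s ^ 3)
      = _ := Eq.trans (intervalIntegral.integral_congr fun y _ => by
        show (b - y) / (b - c) * (w0 + w1 * y + w2 * y ^ 2 + w3 * y ^ 3) =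
          (b * w0 / (b - c)) * y ^ 0 + ((b * w1 - w0) / (b - c)) * y ^ 1
          + ((b * w2 - w1) / (b - c)) * y ^ 2 + ((b * w3 - w2) / (b - c)) * y ^ 3
          + (-w3 / (b - c)) * y ^ 4 + 0 * y ^ 5 + 0 * y ^ 6 + 0 * y ^ 7 + 0 * y ^ 8 + 0 * y ^ 9
          + 0 * y ^ 10
        ring) (P11 _ _ _ _ _ 0 0 0 0 0 0 c b)
  rw [e1, e2]
  field_simp
  ring

/-- the weight on the side, a cubic polynomial -/
noncomputable def wq (A B s : ℝ) : ℝ :=
  (A * s + B * (1 - s)) / 2 * (0.78 + 3.8 * (s * (1 - s)))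
    - (A ^ 2 * s + B ^ 2 * (1 - s)) * (0.6438 + 3.1957 * (s * (1 - s)))

/-- **the closed form** of the wall mass (before the factor `τ / √2`) -/
noncomputable def KL (A B a c b : ℝ) : ℝ :=
  (A * tf 0.78 3.8 a c b + B * tf 0.78 3.8 (1 - b) (1 - c) (1 - a)) / 2
    - (A ^ 2 * tf 0.6438 3.1957 a c b + B ^ 2 * tf 0.6438 3.1957 (1 - b) (1 - c) (1 - a))

theorem wq_cubic (A B s : ℝ) : wq A B s =
    (0.78 * B / 2 - 0.6438 * B ^ 2)
    + ((3.8 * B + 0.78 * (A - B)) / 2 - (3.1957 * B ^ 2 + 0.6438 * (A ^ 2 - B ^ 2))) * s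
    + ((-(3.8 * B) + 3.8 * (A - B)) / 2 - (-(3.1957 * B ^ 2) + 3.1957 * (A ^ 2 - B ^ 2))) * s ^ 2
    + (-(3.8 * (A - B)) / 2 + 3.1957 * (A ^ 2 - B ^ 2)) * s ^ 3 := by
  unfold wq
  ring

theorem wq_tent {A B a c b : ℝ} (hac : a < c) (hcb : c < b) :
    (∫ s in a..c, (s - a) / (c - a) * wq A B s) + ∫ s in c..b, (b - s) / (b - c) * wq A B s
      = KL A B a c b := by
  simp only [wq_cubic]
  rw [tent_int hac hcb]
  unfold KL tf tq3
  ring

theorem wq_cont (A B : ℝ) : Continuous (wq A B) := by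
  unfold wq
  fun_prop

/-- comparison with the true fibre weight -/
theorem wq_le {A B s : ℝ} (h0 : 0 ≤ s) (h1 : s ≤ 1) (hε : 0 ≤ A * s + B * (1 - s)) :
    wq A B s ≤ ((1 - s + s ^ 2) + 3 * 0.06) * ((A * s + B * (1 - s)) / 2)
      * (1 / ((1 - s + s ^ 2) + 0.06) ^ 3)
      - (2 / 3 + 0.2 / 2) * (A * s + B * (1 - s)) ^ 2 * (1 / ((1 - s + s ^ 2) + 0.06) ^ 3) := by
  have k1 : 0 ≤ s * (1 - s) := mul_nonneg h0 (by linarith)
  have k2 : s * (1 - s) ≤ 1 / 4 := by nlinarith [sq_nonneg (s - 1 / 2)]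
  have g1 : 1 - s + s ^ 2 = 1 - s * (1 - s) := by ring
  have q1 := kq1 k1 k2
  have q2 := kq2 k1 k2
  rw [g1]
  set G := 1 / (1 - s * (1 - s) + 0.06) ^ 3 with hG
  have p1 := mul_le_mul_of_nonneg_left q1 (show 0 ≤ (A * s + B * (1 - s)) / 2 by linarith)
  have hj : (A * s + B * (1 - s)) ^ 2 ≤ A ^ 2 * s + B ^ 2 * (1 - s) := by
    have : A ^ 2 * s + B ^ 2 * (1 - s) - (A * s + B * (1 - s)) ^ 2
        = s * (1 - s) * (A - B) ^ 2 := by ring
    have h2 := mul_nonneg k1 (sq_nonneg (A - B))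
    linarith
  have hpos : 0 ≤ 0.6438 + 3.1957 * (s * (1 - s)) := by linarith
  have p2 := mul_le_mul_of_nonneg_left q2 (sq_nonneg (A * s + B * (1 - s)))
  have p3 := mul_le_mul_of_nonneg_right hj hpos
  unfold wq
  linarith

theorem wq_neg {A B s : ℝ} (h0 : 0 ≤ s) (h1 : s ≤ 1) (hε : A * s + B * (1 - s) < 0) :
    wq A B s ≤ 0 := by
  have k1 : 0 ≤ s * (1 - s) := mul_nonneg h0 (by linarith)
  have p1 : 0 ≤ -((A * s + B * (1 - s)) / 2) * (0.78 + 3.8 * (s * (1 - s))) :=
    mul_nonneg (by linarith) (by linarith)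
  have p2 : 0 ≤ (A ^ 2 * s + B ^ 2 * (1 - s)) * (0.6438 + 3.1957 * (s * (1 - s))) :=
    mul_nonneg (add_nonneg (mul_nonneg (sq_nonneg _) h0)
      (mul_nonneg (sq_nonneg _) (by linarith))) (by linarith)
  unfold wq
  linarith

/-- explicit minorant of the weight of the point near the side `t.1 = 0` -/
noncomputable def wa (A B p q zj zk : ℝ) (t : ℝ × ℝ) : ℝ :=
  if t.1 < A * t.2 + B * t3 t ∧ p * t3 t ≤ t.2 ∧ q * t.2 ≤ t3 t then
    (t.1 / (A * t.2 + B * t3 t)) * min ((t.2 - p * t3 t) / zj) ((t3 t - q * t.2) / zk)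
      / mm t ^ 2 else 0

variable {A B p q zj zk a c b τ : ℝ}

theorem wa_meas (A B p q zj zk : ℝ) : Measurable (wa A B p q zj zk) := by
  have h3 := t3_meas
  have h4 : Measurable fun t : ℝ × ℝ => A * t.2 + B * t3 t :=
    (measurable_snd.const_mul _).add (h3.const_mul _)
  unfold wa
  refine Measurable.ite ?_ ?_ measurable_const
  · have s1 : MeasurableSet {t : ℝ × ℝ | t.1 < A * t.2 + B * t3 t} :=
      measurableSet_lt measurable_fst h4
    have s2 : MeasurableSet {t : ℝ × ℝ | p * t3 t ≤ t.2} :=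
      measurableSet_le (h3.const_mul _) measurable_snd
    have s3 : MeasurableSet {t : ℝ × ℝ | q * t.2 ≤ t3 t} :=
      measurableSet_le (measurable_snd.const_mul _) h3
    exact s1.inter (s2.inter s3)
  · exact ((measurable_fst.div h4).mul
      (((measurable_snd.sub (h3.const_mul _)).div_const _).min
        ((h3.sub (measurable_snd.const_mul _)).div_const _))).div (mm_cont.measurable.pow_const 2)

theorem wa_bd (hp : 0 ≤ p) (hzj : 0 < zj) (hzk : 0 < zk) {t : ℝ × ℝ} (ht : t ∈ Sim) :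
    0 ≤ wa A B p q zj zk t ∧ wa A B p q zj zk t ≤ 9 / 4 * (1 / zj) := by
  obtain ⟨a1, a2, a3⟩ := ht
  have a4 : 0 ≤ t3 t := by simp only [t3]; linarith
  have hz1 : 0 ≤ 1 / zj := by positivity
  unfold wa
  split_ifs with hc
  · have hL : 0 < A * t.2 + B * t3 t := lt_of_le_of_lt a1 hc.1
    have hm := mm_pos t
    have hm2 : (4 / 9 : ℝ) ≤ mm t ^ 2 := by nlinarith
    have n0 : 0 ≤ t.1 / (A * t.2 + B * t3 t) := div_nonneg a1 hL.le
    have n1 : t.1 / (A * t.2 + B * t3 t) ≤ 1 := (div_le_one hL).2 hc.1.le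
    have n3 : 0 ≤ min ((t.2 - p * t3 t) / zj) ((t3 t - q * t.2) / zk) :=
      le_min (div_nonneg (by linarith [hc.2.1]) hzj.le) (div_nonneg (by linarith [hc.2.2]) hzk.le)
    have n4 : min ((t.2 - p * t3 t) / zj) ((t3 t - q * t.2) / zk) ≤ 1 / zj := by
      refine (min_le_left _ _).trans (div_le_div_of_nonneg_right ?_ hzj.le)
      have := mul_nonneg hp a4
      linarith
    refine ⟨by positivity, ?_⟩
    rw [div_le_iff₀ (by positivity)]
    have k1 : t.1 / (A * t.2 + B * t3 t) * min ((t.2 - p * t3 t) / zj) ((t3 t - q * t.2) / zk)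
        ≤ 1 * (1 / zj) := mul_le_mul n1 n4 n3 zero_le_one
    have k2 := mul_le_mul_of_nonneg_left hm2 (show 0 ≤ 9 / 4 * (1 / zj) by positivity)
    linarith
  · exact ⟨le_rfl, by positivity⟩

theorem wa_ray {x s : ℝ} (hx : x ∈ Icc (0 : ℝ) 1)
    (hc : p * (1 - s) ≤ s ∧ q * s ≤ 1 - s) :
    (1 - x) * wa A B p q zj zk (ray (x, s))
      = fibg (1 - s + s ^ 2) (A * s + B * (1 - s))
          (min ((s - p * (1 - s)) / zj) ((1 - s - q * s) / zk)) x := by
  have e1 : A * ((1 - x) * s) + B * t3 (x, (1 - x) * s)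
      = (1 - x) * (A * s + B * (1 - s)) := by
    simp only [t3]; ring
  have e3 : t3 (x, (1 - x) * s) = (1 - x) * (1 - s) := by simp only [t3]; ring
  have hx1 : 0 ≤ 1 - x := by linarith [hx.2]
  have e2 : min (((1 - x) * s - p * t3 (x, (1 - x) * s)) / zj)
      ((t3 (x, (1 - x) * s) - q * ((1 - x) * s)) / zk)
      = (1 - x) * min ((s - p * (1 - s)) / zj) ((1 - s - q * s) / zk) := by
    rw [e3, mul_min_of_nonneg _ _ hx1]
    congr 1 <;> ring
  have c1 : p * t3 (x, (1 - x) * s) ≤ (1 - x) * s := by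
    rw [e3]
    have := mul_le_mul_of_nonneg_left hc.1 hx1
    linarith
  have c2 : q * ((1 - x) * s) ≤ t3 (x, (1 - x) * s) := by
    rw [e3]
    have := mul_le_mul_of_nonneg_left hc.2 hx1
    linarith
  unfold fibg
  simp only [wa, ray, mm_ray, e1, e2, c1, c2, and_true]

/-- **integral of the minorant** -/
theorem wa_Sim (hA : A ≤ 0.2) (hB : B ≤ 0.2) (hp : 0 ≤ p) (hq : 0 ≤ q)
    (hzj : 0 < zj) (hzk : 0 < zk) (ha : 0 ≤ a) (hac : a < c) (hcb : c < b) (hb : b ≤ 1)
    (hpa : p ≤ a * (1 + p)) (hqb : b * (1 + q) ≤ 1) (hτ : 0 ≤ τ)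
    (hτj : τ * zj ≤ c - p * (1 - c)) (hτk : τ * zk ≤ 1 - c - q * c) :
    τ * KL A B a c b ≤ ∫ t in Sim, wa A B p q zj zk t := by
  rw [ray_int (wa_meas _ _ _ _ _ _)]
  set H : ℝ × ℝ → ℝ := fun z => (1 - z.1) * wa A B p q zj zk (ray z) with hH
  have hHm : Measurable H :=
    (by fun_prop : Measurable fun z : ℝ × ℝ => 1 - z.1).mul
      ((wa_meas _ _ _ _ _ _).comp ray_contin.measurable)
  have hrS : ∀ z ∈ Sq, ray z ∈ Sim := by
    rintro z ⟨⟨a1, a2⟩, a3, a4⟩
    have hx : 0 ≤ 1 - z.1 := by linarith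
    refine ⟨a1, mul_nonneg hx a3, ?_⟩
    have : (1 - z.1) * z.2 ≤ 1 - z.1 := mul_le_of_le_one_right hx a4
    simp only [ray]
    linarith
  have hHi : IntegrableOn H Sq := by
    refine Measure.integrableOn_of_bounded (M := 9 / 4 * (1 / zj)) Sq_fin.ne
      hHm.aestronglyMeasurable ?_
    filter_upwards [ae_restrict_mem Sq_meas] with z hz
    obtain ⟨b1, b2⟩ := wa_bd (A := A) (B := B) (p := p) (q := q) hp hzj hzk (hrS z hz)
    have hx : 0 ≤ 1 - z.1 := by linarith [hz.1.2]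
    have hx1 : 1 - z.1 ≤ 1 := by linarith [hz.1.1]
    rw [Real.norm_eq_abs, abs_of_nonneg (mul_nonneg hx b1)]
    exact (mul_le_of_le_one_left b1 hx1).trans b2
  have hi := hHi
  rw [IntegrableOn, Sq, Measure.volume_eq_prod, ← Measure.prod_restrict] at hi
  have hFub : ∫ z in Sq, H z = ∫ s in Icc (0 : ℝ) 1, ∫ x in Icc (0 : ℝ) 1, H (x, s) := by
    rw [Sq, Measure.volume_eq_prod, ← Measure.prod_restrict]
    exact integral_prod_symm _ hi
  have hInn : IntegrableOn (fun s => ∫ x in Icc (0 : ℝ) 1, H (x, s)) (Icc (0 : ℝ) 1) :=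
    hi.integral_prod_right
  rw [hFub]
  have hca : 0 < c - a := by linarith
  have hbc : 0 < b - c := by linarith
  set f1 : ℝ → ℝ := fun s => τ * ((s - a) / (c - a) * wq A B s) with hf1
  set f2 : ℝ → ℝ := fun s => τ * ((b - s) / (b - c) * wq A B s) with hf2
  have cf1 : Continuous f1 := by
    have := wq_cont A B
    fun_prop
  have cf2 : Continuous f2 := by
    have := wq_cont A B
    fun_prop
  have i1 : IntegrableOn ((Ico a c).indicator f1) (Icc (0 : ℝ) 1) :=
    (cf1.continuousOn.integrableOn_compact isCompact_Icc).indicator measurableSet_Ico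
  have i2 : IntegrableOn ((Icc c b).indicator f2) (Icc (0 : ℝ) 1) :=
    (cf2.continuousOn.integrableOn_compact isCompact_Icc).indicator measurableSet_Icc
  have v1 : ∫ s in Icc (0 : ℝ) 1, (Ico a c).indicator f1 s
      = τ * ∫ s in a..c, (s - a) / (c - a) * wq A B s := by
    rw [setIntegral_indicator measurableSet_Ico]
    have : Icc (0 : ℝ) 1 ∩ Ico a c = Ico a c := by
      ext s
      simp only [mem_inter_iff, mem_Icc, mem_Ico]
      constructor
      · exact fun h => h.2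
      · exact fun h => ⟨⟨by linarith [h.1], by linarith [h.2]⟩, h⟩
    rw [this, integral_Ico_eq_integral_Ioo, ← integral_Ioc_eq_integral_Ioo,
      ← intervalIntegral.integral_of_le hac.le, ← intervalIntegral.integral_const_mul]
  have v2 : ∫ s in Icc (0 : ℝ) 1, (Icc c b).indicator f2 s
      = τ * ∫ s in c..b, (b - s) / (b - c) * wq A B s := by
    rw [setIntegral_indicator measurableSet_Icc]
    have : Icc (0 : ℝ) 1 ∩ Icc c b = Icc c b := by
      ext s
      simp only [mem_inter_iff, mem_Icc]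
      constructor
      · exact fun h => h.2
      · exact fun h => ⟨⟨by linarith [h.1], by linarith [h.2]⟩, h⟩
    rw [this, integral_Icc_eq_integral_Ioc, ← intervalIntegral.integral_of_le hcb.le,
      ← intervalIntegral.integral_const_mul]
  have hlow : τ * KL A B a c b
      = ∫ s in Icc (0 : ℝ) 1, ((Ico a c).indicator f1 s + (Icc c b).indicator f2 s) := by
    rw [integral_add i1 i2, v1, v2, ← mul_add, wq_tent hac hcb]
  rw [hlow]
  refine setIntegral_mono_on (i1.add i2) hInn measurableSet_Icc fun s hs' => ?_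
  obtain ⟨s0, sl⟩ := hs'
  have sr : 0 ≤ 1 - s := by linarith
  have k1 : 0 ≤ s * (1 - s) := mul_nonneg s0 sr
  have k2 : s * (1 - s) ≤ 1 / 4 := by nlinarith [sq_nonneg (s - 1 / 2)]
  have hg : 3 / 4 ≤ 1 - s + s ^ 2 := by nlinarith
  have hεe : A * s + B * (1 - s) ≤ 0.2 := by
    nlinarith [mul_le_mul_of_nonneg_right hA s0, mul_le_mul_of_nonneg_right hB sr]
  have hnn : 0 ≤ ∫ x in Icc (0 : ℝ) 1, H (x, s) := by
    refine setIntegral_nonneg measurableSet_Icc fun x hx => ?_
    exact mul_nonneg (by simp only; linarith [hx.2]) (wa_bd hp hzj hzk (hrS (x, s) ⟨hx, s0, sl⟩)).1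
  -- inside of the corners
  have main : a ≤ s → s ≤ b → ∀ T, 0 ≤ T →
      T ≤ min ((s - p * (1 - s)) / zj) ((1 - s - q * s) / zk) →
      T * wq A B s ≤ ∫ x in Icc (0 : ℝ) 1, H (x, s) := by
    intro hsa hsb T hT0 hT
    rcases le_or_gt (wq A B s) 0 with hw | hw
    · exact (mul_nonpos_of_nonneg_of_nonpos hT0 hw).trans hnn
    · have hε : 0 ≤ A * s + B * (1 - s) := by
        by_contra hcon
        push Not at hcon
        linarith [wq_neg s0 sl hcon]
      have hC : p * (1 - s) ≤ s ∧ q * s ≤ 1 - s := by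
        have h1 := mul_le_mul_of_nonneg_right hsa (show 0 ≤ 1 + p by linarith)
        have h2 := mul_le_mul_of_nonneg_right hsb (show 0 ≤ 1 + q by linarith)
        constructor <;> linarith
      have e1 : ∫ x in Icc (0 : ℝ) 1, H (x, s)
          = ∫ x in Icc (0 : ℝ) 1, fibg (1 - s + s ^ 2) (A * s + B * (1 - s))
              (min ((s - p * (1 - s)) / zj) ((1 - s - q * s) / zk)) x :=
        setIntegral_congr_fun measurableSet_Icc fun x hx => wa_ray hx hC
      have hf := fibg_low (δ := 0.06) hg hεe (hT0.trans hT) (by norm_num) (by norm_num)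
      have hw2 := wq_le s0 sl hε
      rw [e1]
      refine le_trans ?_ hf
      have h3 : wq A B s ≤ ((1 - s + s ^ 2 + 3 * 0.06) * ((A * s + B * (1 - s)) / 2)
          - (2 / 3 + 0.2 / 2) * (A * s + B * (1 - s)) ^ 2) * (1 / (1 - s + s ^ 2 + 0.06) ^ 3) := by
        refine hw2.trans (le_of_eq ?_)
        ring
      exact mul_le_mul hT h3 hw.le (hT0.trans hT)
  by_cases m1 : s ∈ Ico a c
  · have m2 : s ∉ Icc c b := fun h => by
      have := h.1
      have := m1.2
      linarith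
    rw [indicator_of_mem m1, indicator_of_notMem m2, add_zero, hf1]
    have hr0 : 0 ≤ (s - a) / (c - a) := div_nonneg (by linarith [m1.1]) hca.le
    have hr1 : (s - a) / (c - a) ≤ 1 := by
      rw [div_le_one hca]
      linarith [m1.2]
    have hr : (s - a) / (c - a) * (c - a) = s - a := div_mul_cancel₀ _ hca.ne'
    have := main m1.1 (by linarith [m1.2]) (τ * ((s - a) / (c - a)))
      (mul_nonneg hτ hr0) (le_min ?_ ?_)
    · simpa only [mul_assoc] using this
    · rw [le_div_iff₀ hzj]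
      have t1 := mul_le_mul_of_nonneg_left hτj hr0
      have t2 : (s - a) / (c - a) * (c - p * (1 - c)) ≤ s - p * (1 - s) := by
        have e : s - p * (1 - s) - (s - a) / (c - a) * (c - p * (1 - c))
            = (1 - (s - a) / (c - a)) * (a * (1 + p) - p) := by
          have e2 : c - p * (1 - c) = (1 + p) * (c - a) + (a * (1 + p) - p) := by ring
          rw [e2, mul_add, mul_left_comm, hr]
          ring
        have := mul_nonneg (sub_nonneg.2 hr1) (sub_nonneg.2 hpa)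
        linarith
      linarith
    · rw [le_div_iff₀ hzk]
      have t1 := mul_le_mul_of_nonneg_right hr1 (mul_nonneg hτ hzk.le)
      have t2 := mul_le_mul_of_nonneg_left m1.2.le (show 0 ≤ 1 + q by linarith)
      linarith
  · rw [indicator_of_notMem m1, zero_add]
    by_cases m2 : s ∈ Icc c b
    · rw [indicator_of_mem m2, hf2]
      have hr0 : 0 ≤ (b - s) / (b - c) := div_nonneg (by linarith [m2.2]) hbc.le
      have hr1 : (b - s) / (b - c) ≤ 1 := by
        rw [div_le_one hbc]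
        linarith [m2.1]
      have hr : (b - s) / (b - c) * (b - c) = b - s := div_mul_cancel₀ _ hbc.ne'
      have := main (by linarith [m2.1]) m2.2 (τ * ((b - s) / (b - c)))
        (mul_nonneg hτ hr0) (le_min ?_ ?_)
      · simpa only [mul_assoc] using this
      · rw [le_div_iff₀ hzj]
        have t1 := mul_le_mul_of_nonneg_right hr1 (mul_nonneg hτ hzj.le)
        have t2 := mul_le_mul_of_nonneg_left m2.1 (show 0 ≤ 1 + p by linarith)
        linarith
      · rw [le_div_iff₀ hzk]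
        have t1 := mul_le_mul_of_nonneg_left hτk hr0
        have t2 : (b - s) / (b - c) * (1 - c - q * c) ≤ 1 - s - q * s := by
          have e : 1 - s - q * s - (b - s) / (b - c) * (1 - c - q * c)
              = (1 - (b - s) / (b - c)) * (1 - b * (1 + q)) := by
            have e2 : 1 - c - q * c = (1 + q) * (b - c) + (1 - b * (1 + q)) := by ring
            rw [e2, mul_add, mul_left_comm, hr]
            ring
          have := mul_nonneg (sub_nonneg.2 hr1) (sub_nonneg.2 hqb)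
          linarith
        linarith
    · rw [indicator_of_notMem m2]
      exact hnn

end Helper72.R3
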