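import Pool.Agent.Helper72.MEI.R3a
import Pool.Agent.Helper72.MEI.R3b
import Pool.Agent.Helper72.MEI.R3m

/-!
# Project MEI (M2), faces: mass of a point beyond the side `l`, in the strip of the wall `l`

`aw_mass`: for any knots `a < c < b` of a tent (`p ≤ a (1 + p)`, `b (1 + q) ≤ 1`, `p = N j k`,
`q = N k j`) and any height `τ` below the two quotients at `c`.
-/

set_option autoImplicit false

namespace Helper72.R3

open Set MeasureTheory
open Pool.Agent.Helper55.Sx (Sim Sim_meas Sim_compact mm mm_pos mm_cont t3)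
open Pool.Agent.Helper55.Mass (LN LN_nonneg vv vv_nonneg vv_le intOn Id_const)
open Pool.Agent.Helper55.Apex (nc vt_vv)
open Pool.Agent.Helper55.ApexP (PN alP alP_nonneg mu_meas mu_bal xx_mu)
open Pool.Agent.Helper55.Fill
open Pool.Agent.Helper96.Kap
open Helper75.MEI2 (mu vt)

variable {N : Fin 3 → Fin 3 → ℝ} {ζ : Fin 3 → ℝ}

/-- the minimum over the two other corners -/
theorem min_other {l j k : Fin 3} (hlj : l ≠ j) (hlk : l ≠ k) (hjk : j ≠ k) (f : Fin 3 → ℝ) :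
    min (f (l + 1)) (f (l + 2)) = min (f j) (f k) := by
  fin_cases l <;> fin_cases j <;> fin_cases k <;> simp only [Fin.zero_eta, Fin.mk_one,
    Fin.reduceFinMk, ne_eq, not_true_eq_false] at hlj hlk hjk ⊢
  · rfl
  · exact min_comm _ _
  · exact min_comm _ _
  · rfl
  · rfl
  · exact min_comm _ _

section
variable (hN : ∀ k m, 0 ≤ N k m) {c : ℝ} (hc : c < 1) (hcol : ∀ m, nc N m ≤ c)
include hN hc hcol

/-- pointwise, in the coordinates of the side -/
theorem wa_le_aw (hd : ∀ k, N k k = 0) {l j k : Fin 3} (hlj : l ≠ j) (hlk : l ≠ k) (hjk : j ≠ k)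
    (hc1 : N l j * N j l + N l k * N k l ≤ 1) (hζ : ∀ m, m ≠ l → 0 < ζ m)
    {t s : ℝ × ℝ} (ht : t ∈ Sim)
    (h1 : s.1 = vv t l) (h2 : s.2 = vv t j) (h3 : t3 s = vv t k) (hm : mm s = mm t) :
    wa (N l j - N l k * N k j) (N l k - N l j * N j k) (N j k) (N k j) (ζ j) (ζ k) s
      ≤ aw N l ζ t / mm t ^ 2 := by
  have hb := fun k => vv_nonneg ht k
  have hmp := mm_pos t
  unfold wa
  rw [h1, h2, h3, hm]
  split_ifs with hC
  · refine div_le_div_of_nonneg_right ?_ (by positivity)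
    obtain ⟨hL, hj, hk⟩ := hC
    have hv := (strip_uu hN hc hcol hd hb hlj hlk hjk hc1 hj hk hL).1
    have hnc := not_cone hN hc hcol hd hv
    rw [← vt_vv] at hnc
    rw [aw_out hnc, min_other hlj hlk hjk (fun m => xx N (vv t) m / ζ m)]
    set L := (N l j - N l k * N k j) * vv t j + (N l k - N l j * N j k) * vv t k with hLd
    have hL0 : 0 < L := lt_of_le_of_lt (hb l) hL
    have r0 : 0 ≤ vv t l / L := div_nonneg (hb l) hL0.le
    have xj := xx_strip hN hc hcol hd hb hlj hlk hjk hc1 hj hk hL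
    have xk := xx_strip hN hc hcol hd hb hlk hlj hjk.symm (by linarith) hk hj
      (by rw [add_comm]; exact hL)
    rw [add_comm, ← hLd] at xk
    rw [← hLd] at xj
    refine le_min ?_ ?_
    · rw [le_div_iff₀ (hζ j hlj.symm)]
      have g1 := mul_le_mul_of_nonneg_left (min_le_left ((vv t j - N j k * vv t k) / ζ j)
        ((vv t k - N k j * vv t j) / ζ k)) r0
      have g2 := mul_le_mul_of_nonneg_right g1 (hζ j hlj.symm).le
      have g3 : vv t l / L * ((vv t j - N j k * vv t k) / ζ j) * ζ j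
          = vv t l / L * (vv t j - N j k * vv t k) := by
        rw [mul_assoc, div_mul_cancel₀ _ (hζ j hlj.symm).ne']
      linarith
    · rw [le_div_iff₀ (hζ k hlk.symm)]
      have g1 := mul_le_mul_of_nonneg_left (min_le_right ((vv t j - N j k * vv t k) / ζ j)
        ((vv t k - N k j * vv t j) / ζ k)) r0
      have g2 := mul_le_mul_of_nonneg_right g1 (hζ k hlk.symm).le
      have g3 : vv t l / L * ((vv t k - N k j * vv t j) / ζ k) * ζ k
          = vv t l / L * (vv t k - N k j * vv t j) := by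
        rw [mul_assoc, div_mul_cancel₀ _ (hζ k hlk.symm).ne']
      linarith
  · exact div_nonneg (aw_nonneg hN hc hcol hζ ht) (by positivity)

/-- **mass of the point in the strip of the wall `l`, from below** -/
theorem aw_mass (hd : ∀ k, N k k = 0) {l j k : Fin 3} (hlj : l ≠ j) (hlk : l ≠ k) (hjk : j ≠ k)
    (hc1 : N l j * N j l + N l k * N k l ≤ 1) (hζ : ∀ m, m ≠ l → 0 < ζ m)
    (hj2 : N l j ≤ 0.2) (hk2 : N l k ≤ 0.2) {a m b τ : ℝ} (ha : 0 ≤ a) (ham : a < m)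
    (hmb : m < b) (hb : b ≤ 1) (hpa : N j k ≤ a * (1 + N j k)) (hqb : b * (1 + N k j) ≤ 1)
    (hτ : 0 ≤ τ) (hτj : τ * ζ j ≤ m - N j k * (1 - m)) (hτk : τ * ζ k ≤ 1 - m - N k j * m) :
    0.7071 * (τ * KL (N l j - N l k * N k j) (N l k - N l j * N j k) a m b)
      ≤ Pool.Agent.Helper55.Mass.Id (aw N l ζ) := by
  have hzj := hζ j hlj.symm
  have hzk := hζ k hlk.symm
  have hA : N l j - N l k * N k j ≤ 0.2 := by
    have := mul_nonneg (hN l k) (hN k j)
    linarith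
  have hB : N l k - N l j * N j k ≤ 0.2 := by
    have := mul_nonneg (hN l j) (hN j k)
    linarith
  have hw := wa_Sim (A := N l j - N l k * N k j) (B := N l k - N l j * N j k) (p := N j k)
    (q := N k j) (zj := ζ j) (zk := ζ k) (a := a) (c := m) (b := b) (τ := τ) hA hB (hN j k)
    (hN k j) hzj hzk ha ham hmb hb hpa hqb hτ hτj hτk
  obtain ⟨φ, hφ, hφS, hφe, hφi⟩ := perm_ex hlj hlk hjk
  have hint : ∫ t in Sim, wa (N l j - N l k * N k j) (N l k - N l j * N j k) (N j k) (N k j)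
      (ζ j) (ζ k) t ≤ ∫ t in Sim, aw N l ζ t / mm t ^ 2 := by
    rw [← hφi]
    refine setIntegral_mono_on ?_ (aw_int hN hc hcol hζ) Sim_meas fun t ht => ?_
    · refine Measure.integrableOn_of_bounded (M := 9 / 4 * (1 / ζ j))
        Sim_compact.measure_lt_top.ne
        ((wa_meas _ _ _ _ _ _).comp hφ).aestronglyMeasurable ?_
      filter_upwards [ae_restrict_mem Sim_meas] with t ht
      obtain ⟨b1, b2⟩ := wa_bd (A := N l j - N l k * N k j) (B := N l k - N l j * N j k)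
        (p := N j k) (q := N k j) (zj := ζ j) (zk := ζ k) (hN j k) hzj hzk (hφS t ht)
      rw [Real.norm_eq_abs, abs_of_nonneg b1]
      exact b2
    · obtain ⟨g1, g2, g3, g4⟩ := hφe t
      exact wa_le_aw hN hc hcol hd hlj hlk hjk hc1 hζ ht g1 g2 g3 g4
  have h0 : 0 ≤ Pool.Agent.Helper55.Mass.Id (aw N l ζ) := aw_Id_nonneg hN hc hcol hζ
  set V := τ * KL (N l j - N l k * N k j) (N l k - N l j * N j k) a m b with hV
  rcases le_or_gt V 0 with hv | hv
  · have : 0.7071 * V ≤ 0 := mul_nonpos_of_nonneg_of_nonpos (by norm_num) hv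
    linarith
  · have hs : (0 : ℝ) < √2 := by positivity
    have hs2 : √2 ≤ 1.414222 := by
      rw [Real.sqrt_le_left (by norm_num)]
      norm_num
    have h1 : (0.7071 : ℝ) ≤ 1 / √2 := by
      rw [le_div_iff₀ hs]
      nlinarith
    unfold Pool.Agent.Helper55.Mass.Id
    exact (mul_le_mul_of_nonneg_right h1 hv.le).trans
      (mul_le_mul_of_nonneg_left (hw.trans hint) (by positivity))

/-- the combined weight: `lam` times the apex load in the cone, the full wall part -/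
noncomputable def apZ (N : Fin 3 → Fin 3 → ℝ) (l : Fin 3) (ζp ζ : Fin 3 → ℝ) (lam : ℝ)
    (t : ℝ × ℝ) : ℝ := lam * alP N ζp t + aw N l ζ t

theorem apZ_meas {l : Fin 3} {ζp : Fin 3 → ℝ} {lam : ℝ} : Measurable (apZ N l ζp ζ lam) :=
  (Pool.Agent.Helper55.ApexP.alP_meas.const_mul _).add (aw_meas hN hc hcol)

theorem apZ_nonneg {l : Fin 3} {ζp : Fin 3 → ℝ} {lam : ℝ} (hl0 : 0 ≤ lam)
    (hζp : ∀ k, 0 < ζp k) (hζ : ∀ m, m ≠ l → 0 < ζ m) {t : ℝ × ℝ} (ht : t ∈ Sim) :
    0 ≤ apZ N l ζp ζ lam t :=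
  add_nonneg (mul_nonneg hl0 (alP_nonneg hζp t)) (aw_nonneg hN hc hcol hζ ht)

theorem apZ_le (hd : ∀ k, N k k = 0) {l : Fin 3} {ζp : Fin 3 → ℝ} {lam : ℝ} (hl0 : 0 ≤ lam)
    (hζp : ∀ k, 0 < ζp k) (hζ : ∀ m, m ≠ l → 0 < ζ m) {t : ℝ × ℝ} (ht : t ∈ Sim) :
    apZ N l ζp ζ lam t ≤ lam * (1 / ζp 0) + 1 / ζ (l + 1) :=
  add_le_add (mul_le_mul_of_nonneg_left
    (Pool.Agent.Helper55.ApexP.alP_bound hN hd hc hcol hζp ht) hl0)
    (aw_bound hN hc hcol hζ ht (l1_ne l))

/-- **feasibility of the combined weight**, `s` = the load of the arcs (living in the cone) -/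
theorem apZ_feas {l : Fin 3} {ζp ζ' : Fin 3 → ℝ} {lam : ℝ} (hl0 : 0 ≤ lam)
    (hζp : ∀ k, 0 < ζp k) (hζ'p : ∀ k, ζ' k ≤ ζp k) (hζ : ∀ m, m ≠ l → 0 < ζ m)
    (h' : ∀ k, k ≠ l → ζ' k ≤ ζ k) (hl : ζ' l ≤ 0) {t : ℝ × ℝ} (ht : t ∈ Sim) (k : Fin 3)
    {s : ℝ} (h : lam * alP N ζp t * ζp k + s ≤ xx N (vv t) k)
    (hs : (¬ ∀ k, 0 ≤ mu (PN N) (vt t) k) → s = 0) :
    apZ N l ζp ζ lam t * ζ' k + s ≤ xx N (vv t) k := by
  refine aw_add hN hc hcol hζ h' hl ht k (a0 := lam * alP N ζp t) ?_ (fun hC => ?_) hs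
  · have := mul_le_mul_of_nonneg_left (hζ'p k) (mul_nonneg hl0 (alP_nonneg (N := N) hζp t))
    linarith
  · rw [alP_out hC, mul_zero]

/-- mass of the combined weight -/
theorem apZ_Id (hd : ∀ k, N k k = 0) {l : Fin 3} {ζp : Fin 3 → ℝ} {lam : ℝ}
    (hζp : ∀ k, 0 < ζp k) (hζ : ∀ m, m ≠ l → 0 < ζ m) :
    Pool.Agent.Helper55.Mass.Id (apZ N l ζp ζ lam) =
      lam * Pool.Agent.Helper55.Mass.Id (alP N ζp) + Pool.Agent.Helper55.Mass.Id (aw N l ζ) := by
  have hi : IntegrableOn (fun t => lam * alP N ζp t / mm t ^ 2) Sim := by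
    have h1 := (Pool.Agent.Helper55.ApexP.alP_int hN hd hc hcol hζp).const_mul lam
    have h2 : (fun t => lam * alP N ζp t / mm t ^ 2) = fun t => lam * (alP N ζp t / mm t ^ 2) := by
      funext t
      ring
    rw [h2]
    exact h1
  have h := Id_add_aw hN hc hcol (a0 := fun t => lam * alP N ζp t) hζ hi
  unfold apZ
  rw [h, Id_const]

end

end Helper72.R3
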