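import Pool.Agent.Helper96.MEI.Kap4
import Pool.Agent.Helper55.MEI.ApexP
import Pool.Agent.Helper55.MEI.Mass2

/-!
# Project MEI (M2), faces: a point beyond the side `l`, inside, in the strip of the wall `l`

`aw N l ζ` is the smaller of the two quotients `xx k / ζ k`, `k ≠ l`, outside of the cone of the
contact points, and `0` in the cone. It is a feasible weight of a point whose contact coordinate at
`l` is `≤ 0`; together with any family living in the cone.
-/

set_option autoImplicit false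

namespace Helper72.R3

open Set MeasureTheory
open Pool.Agent.Helper55.Sx (Sim mm mm_pos mm_cont)
open Pool.Agent.Helper55.Mass (LN LN_nonneg vv vv_nonneg vv_le intOn Id_const)
open Pool.Agent.Helper55.Apex (nc vt_vv)
open Pool.Agent.Helper55.ApexP (PN alP alP_nonneg mu_meas mu_bal xx_mu)
open Pool.Agent.Helper55.Fill
open Pool.Agent.Helper96.Kap
open Helper75.MEI2 (mu vt)

variable {N : Fin 3 → Fin 3 → ℝ} {b : Fin 3 → ℝ} {ζ ζ' : Fin 3 → ℝ} {l : Fin 3}

/-- the weight of a point beyond the side `l`, outside of the cone -/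
noncomputable def aw (N : Fin 3 → Fin 3 → ℝ) (l : Fin 3) (ζ : Fin 3 → ℝ) (t : ℝ × ℝ) : ℝ :=
  if ∀ k, 0 ≤ mu (PN N) (vt t) k then 0 else
    min (xx N (vv t) (l + 1) / ζ (l + 1)) (xx N (vv t) (l + 2) / ζ (l + 2))

theorem aw_cone {t : ℝ × ℝ} (h : ∀ k, 0 ≤ mu (PN N) (vt t) k) : aw N l ζ t = 0 := if_pos h

theorem aw_out {t : ℝ × ℝ} (h : ¬ ∀ k, 0 ≤ mu (PN N) (vt t) k) :
    aw N l ζ t = min (xx N (vv t) (l + 1) / ζ (l + 1)) (xx N (vv t) (l + 2) / ζ (l + 2)) :=
  if_neg h

theorem ne_cases {l k : Fin 3} (h : k ≠ l) : k = l + 1 ∨ k = l + 2 := by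
  revert h
  revert k l
  decide

theorem l1_ne (l : Fin 3) : l + 1 ≠ l := by
  revert l
  decide

theorem l2_ne (l : Fin 3) : l + 2 ≠ l := by
  revert l
  decide

section
variable (hN : ∀ k m, 0 ≤ N k m) {c : ℝ} (hc : c < 1) (hcol : ∀ m, nc N m ≤ c)
include hN hc hcol

theorem aw_nonneg (hζ : ∀ k, k ≠ l → 0 < ζ k) {t : ℝ × ℝ} (ht : t ∈ Sim) : 0 ≤ aw N l ζ t := by
  have hb := fun k => vv_nonneg ht k
  unfold aw
  split_ifs with h
  · exact le_rfl
  · exact le_min (div_nonneg (xx_nonneg hN hc hcol hb _) (hζ _ (l1_ne l)).le)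
      (div_nonneg (xx_nonneg hN hc hcol hb _) (hζ _ (l2_ne l)).le)

theorem aw_meas : Measurable (aw N l ζ) := by
  unfold aw
  have hs : MeasurableSet {t : ℝ × ℝ | ∀ k, 0 ≤ mu (PN N) (vt t) k} := by
    have : {t : ℝ × ℝ | ∀ k, 0 ≤ mu (PN N) (vt t) k}
        = ⋂ k, {t : ℝ × ℝ | 0 ≤ mu (PN N) (vt t) k} := by
      ext t
      simp
    rw [this]
    exact MeasurableSet.iInter fun k => measurableSet_le measurable_const (mu_meas k)
  exact Measurable.ite hs measurable_const (((xx_meas hN hc hcol _).div_const _).min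
    ((xx_meas hN hc hcol _).div_const _))

/-- the quotients dominate -/
theorem aw_le_div (hζ : ∀ k, k ≠ l → 0 < ζ k) {t : ℝ × ℝ} (ht : t ∈ Sim) {k : Fin 3}
    (hk : k ≠ l) : aw N l ζ t ≤ xx N (vv t) k / ζ k := by
  have h0 := div_nonneg (xx_nonneg hN hc hcol (fun k => vv_nonneg ht k) k) (hζ k hk).le
  unfold aw
  split_ifs with h
  · exact h0
  · rcases ne_cases hk with e | e
    · rw [e]
      exact min_le_left _ _
    · rw [e]
      exact min_le_right _ _

theorem aw_bound (hζ : ∀ k, k ≠ l → 0 < ζ k) {t : ℝ × ℝ} (ht : t ∈ Sim) {k : Fin 3}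
    (hk : k ≠ l) : aw N l ζ t ≤ 1 / ζ k := by
  refine (aw_le_div hN hc hcol hζ ht hk).trans (div_le_div_of_nonneg_right ?_ (hζ k hk).le)
  exact (xx_le hN hc hcol (fun k => vv_nonneg ht k) k).trans (vv_le ht k)

theorem aw_int (hζ : ∀ k, k ≠ l → 0 < ζ k) :
    IntegrableOn (fun t => aw N l ζ t / mm t ^ 2) Sim :=
  intOn (C := 1 / ζ (l + 1)) (aw_meas hN hc hcol) fun t ht => by
    rw [abs_of_nonneg (aw_nonneg hN hc hcol hζ ht)]
    exact aw_bound hN hc hcol hζ ht (l1_ne l)

/-- **feasibility**: any contact coordinates `ζ'` with `ζ' l ≤ 0`, `ζ' k ≤ ζ k` for `k ≠ l` -/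
theorem aw_feas (hζ : ∀ k, k ≠ l → 0 < ζ k) (h' : ∀ k, k ≠ l → ζ' k ≤ ζ k) (hl : ζ' l ≤ 0)
    {t : ℝ × ℝ} (ht : t ∈ Sim) (k : Fin 3) : aw N l ζ t * ζ' k ≤ xx N (vv t) k := by
  have h0 := aw_nonneg hN hc hcol hζ ht
  have hx := xx_nonneg hN hc hcol (fun k => vv_nonneg ht k) k
  by_cases e : k = l
  · rw [e] at hx ⊢
    have := mul_nonpos_of_nonneg_of_nonpos h0 hl
    linarith
  · have h1 := aw_le_div hN hc hcol hζ ht e
    rw [le_div_iff₀ (hζ k e)] at h1
    exact (mul_le_mul_of_nonneg_left (h' k e) h0).trans h1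

/-- **with any family living in the cone**: `a0` is the weight of the point in the cone, `s` the
load of the arcs at `k` -/
theorem aw_add (hζ : ∀ k, k ≠ l → 0 < ζ k) (h' : ∀ k, k ≠ l → ζ' k ≤ ζ k) (hl : ζ' l ≤ 0)
    {t : ℝ × ℝ} (ht : t ∈ Sim) (k : Fin 3) {a0 s : ℝ} (h : a0 * ζ' k + s ≤ xx N (vv t) k)
    (ha : (¬ ∀ k, 0 ≤ mu (PN N) (vt t) k) → a0 = 0)
    (hs : (¬ ∀ k, 0 ≤ mu (PN N) (vt t) k) → s = 0) :
    (a0 + aw N l ζ t) * ζ' k + s ≤ xx N (vv t) k := by
  by_cases hC : ∀ k, 0 ≤ mu (PN N) (vt t) k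
  · rw [aw_cone hC, add_zero]
    exact h
  · rw [ha hC, hs hC, zero_add, add_zero]
    exact aw_feas hN hc hcol hζ h' hl ht k

omit hN hc hcol in
theorem alP_out {ζp : Fin 3 → ℝ} {t : ℝ × ℝ} (h : ¬ ∀ k, 0 ≤ mu (PN N) (vt t) k) :
    alP N ζp t = 0 := by
  unfold alP
  rw [if_neg h]

/-- mass of the sum -/
theorem Id_add_aw (hζ : ∀ k, k ≠ l → 0 < ζ k) {a0 : ℝ × ℝ → ℝ}
    (hi : IntegrableOn (fun t => a0 t / mm t ^ 2) Sim) :
    Pool.Agent.Helper55.Mass.Id (fun t => a0 t + aw N l ζ t) =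
      Pool.Agent.Helper55.Mass.Id a0 + Pool.Agent.Helper55.Mass.Id (aw N l ζ) :=
  Pool.Agent.Helper55.Mass.Id_add hi (aw_int hN hc hcol hζ)

theorem aw_Id_nonneg (hζ : ∀ k, k ≠ l → 0 < ζ k) :
    0 ≤ Pool.Agent.Helper55.Mass.Id (aw N l ζ) := by
  unfold Pool.Agent.Helper55.Mass.Id
  refine mul_nonneg (by positivity) (setIntegral_nonneg
    Pool.Agent.Helper55.Sx.Sim_meas fun t ht => ?_)
  exact div_nonneg (aw_nonneg hN hc hcol hζ ht) (by positivity)

/-- in the strip of the wall `l` -/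
theorem strip_uu (hd : ∀ k, N k k = 0) (hb : ∀ k, 0 ≤ b k) {l j k : Fin 3} (hlj : l ≠ j)
    (hlk : l ≠ k) (hjk : j ≠ k) (hc1 : N l j * N j l + N l k * N k l ≤ 1)
    (hj : N j k * b k ≤ b j) (hk : N k j * b j ≤ b k)
    (hL : b l < (N l j - N l k * N k j) * b j + (N l k - N l j * N j k) * b k) :
    b l < LN N (uu N b) l ∧ uu N b j + N j k * uu N b k = b j ∧
      uu N b k + N k j * uu N b j = b k := by
  have uj := uu_le hN hc hcol hb j
  have uk := uu_le hN hc hcol hb k
  have ul0 := uu_nonneg hN hc hcol b l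
  have gj := uu_ge hN hc hcol b j
  have gk := uu_ge hN hc hcol b k
  rw [LN_three hd _ hlj.symm hjk hlk] at gj
  rw [LN_three hd _ hlk.symm hjk.symm hlj] at gk
  have e1 := mul_le_mul_of_nonneg_left uk (hN j k)
  have e2 := mul_le_mul_of_nonneg_left uj (hN k j)
  have lj : b j - N j k * b k - N j l * uu N b l ≤ uu N b j := by linarith
  have lk : b k - N k j * b j - N k l * uu N b l ≤ uu N b k := by linarith
  have m1 := mul_le_mul_of_nonneg_left lj (hN l j)
  have m2 := mul_le_mul_of_nonneg_left lk (hN l k)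
  have hLN : LN N (uu N b) l = N l j * uu N b j + N l k * uu N b k := LN_three hd _ hlj hlk hjk
  have hLN2 : (N l j - N l k * N k j) * b j + (N l k - N l j * N j k) * b k
      - (N l j * N j l + N l k * N k l) * uu N b l ≤ LN N (uu N b) l := by
    rw [hLN]
    nlinarith
  have hviol : b l < LN N (uu N b) l := by
    by_contra hcon
    push Not at hcon
    have h1 := uu_exact hN hc hcol hcon
    have h2 := mul_le_mul_of_nonneg_right hc1 ul0
    linarith
  have u0 := uu_zero hN hc hcol hviol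
  have hjE : LN N (uu N b) j ≤ b j := by
    rw [LN_three hd _ hlj.symm hjk hlk, u0, mul_zero, zero_add]
    linarith
  have hkE : LN N (uu N b) k ≤ b k := by
    rw [LN_three hd _ hlk.symm hjk.symm hlj, u0, mul_zero, zero_add]
    linarith
  have xj := uu_exact hN hc hcol hjE
  have xk := uu_exact hN hc hcol hkE
  rw [LN_three hd _ hlj.symm hjk hlk, u0, mul_zero, zero_add] at xj
  rw [LN_three hd _ hlk.symm hjk.symm hlj, u0, mul_zero, zero_add] at xk
  exact ⟨hviol, xj, xk⟩

/-- **lower bound of the load in the strip of the wall `l`** (it is an equality) -/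
theorem xx_strip (hd : ∀ k, N k k = 0) (hb : ∀ k, 0 ≤ b k) {l j k : Fin 3} (hlj : l ≠ j)
    (hlk : l ≠ k) (hjk : j ≠ k) (hc1 : N l j * N j l + N l k * N k l ≤ 1)
    (hj : N j k * b k ≤ b j) (hk : N k j * b j ≤ b k)
    (hL : b l < (N l j - N l k * N k j) * b j + (N l k - N l j * N j k) * b k) :
    b l / ((N l j - N l k * N k j) * b j + (N l k - N l j * N j k) * b k)
      * (b j - N j k * b k) ≤ xx N b j := by
  obtain ⟨hviol, xj, xk⟩ := strip_uu hN hc hcol hd hb hlj hlk hjk hc1 hj hk hL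
  set L := (N l j - N l k * N k j) * b j + (N l k - N l j * N j k) * b k with hLd
  have hL0 : 0 < L := lt_of_le_of_lt (hb l) hL
  have hLN : LN N (uu N b) l = N l j * uu N b j + N l k * uu N b k := LN_three hd _ hlj hlk hjk
  have hp : 0 ≤ N j k := hN j k
  have hq : 0 ≤ N k j := hN k j
  have e1 : uu N b j * (1 - N j k * N k j) = b j - N j k * b k := by
    linear_combination xj - N j k * xk
  have e2 : uu N b k * (1 - N j k * N k j) = b k - N k j * b j := by
    linear_combination xk - N k j * xj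
  have e3 : LN N (uu N b) l * (1 - N j k * N k j) = L := by
    rw [hLN, hLd]
    linear_combination N l j * e1 + N l k * e2
  have hLNp : 0 < LN N (uu N b) l := lt_of_le_of_lt (hb l) hviol
  have hpos : 0 < 1 - N j k * N k j := by
    by_contra hcon
    push Not at hcon
    have := mul_nonneg hLNp.le (sub_nonneg.2 hcon)
    nlinarith
  have h0 : 0 ≤ b j - N j k * b k := by linarith
  have r1 : b l / L ≤ 1 := (div_le_one hL0).2 hL.le
  have r0 : 0 ≤ b l / L := div_nonneg (hb l) hL0.le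
  have huj := uu_nonneg hN hc hcol b j
  have key1 : b l / L * (b j - N j k * b k) ≤ uu N b j := by
    have h1 : b j - N j k * b k ≤ uu N b j := by
      rw [← e1]
      have := mul_nonneg huj (mul_nonneg hp hq)
      linarith
    have h2 := mul_le_mul_of_nonneg_right r1 h0
    linarith
  have htl : tu N b l = b l / LN N (uu N b) l := by
    unfold tu
    rw [if_pos hviol]
  have key2 : b l / L * (b j - N j k * b k) = tu N b l * uu N b j := by
    rw [htl, ← e1, ← e3]
    field_simp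
  have hjE : LN N (uu N b) j ≤ b j := by
    rw [LN_three hd _ hlj.symm hjk hlk, uu_zero hN hc hcol hviol, mul_zero, zero_add]
    linarith
  have hkE : LN N (uu N b) k ≤ b k := by
    rw [LN_three hd _ hlk.symm hjk.symm hlj, uu_zero hN hc hcol hviol, mul_zero, zero_add]
    linarith [uu_nonneg hN hc hcol b k]
  have tj : tu N b j = 1 := by
    unfold tu
    rw [if_neg (not_lt.2 hjE)]
  have tk : tu N b k = 1 := by
    unfold tu
    rw [if_neg (not_lt.2 hkE)]
  have hcase : tq N b = tu N b l ∨ tq N b = 1 := by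
    have hi : ∀ i : Fin 3, i = l ∨ i = j ∨ i = k := by
      intro i
      clear * - hlj hlk hjk
      revert hlj hlk hjk
      revert i j l k
      decide
    have hi2 : ∀ i : Fin 3, tu N b i = tu N b l ∨ tu N b i = 1 := by
      intro i
      rcases hi i with h | h | h
      · exact Or.inl (by rw [h])
      · exact Or.inr (by rw [h, tj])
      · exact Or.inr (by rw [h, tk])
    rcases tq_eq (N := N) (b := b) with h | h | h <;> rw [h]
    · exact hi2 0
    · exact hi2 1
    · exact hi2 2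
  unfold xx
  rcases hcase with h | h
  · rw [h, ← key2]
  · rw [h, one_mul]
    exact key1

/-- the strip is outside of the cone -/
theorem not_cone (hd : ∀ k, N k k = 0) (hviol : b l < LN N (uu N b) l) :
    ¬ ∀ k, 0 ≤ mu (PN N) b k := by
  intro h
  have hu := uu_cone hN hc hcol h (mu_bal hN hd hc hcol b)
  have hb := mu_bal hN hd hc hcol b l
  rw [hu] at hviol
  have := h l
  linarith

end

end Helper72.R3
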