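import Pool.Agent.Helper96.MEI.Kap3

/-!
# Project MEI (M2): wall mass of a point beyond a side, integrals from below
-/

set_option autoImplicit false

namespace Helper72.R3

open Set MeasureTheory Pool.Agent.Helper55.Sx Pool.Agent.Helper55.Mass
open Pool.Agent.Helper96.Kap (t3_meas)

/-- pointwise: tangent of `1 / y ^ 2` at `g + δ` -/
theorem ptw_tan {g δ u : ℝ} (hg : 0 < g) (hδ : 0 ≤ δ) (hu : 0 ≤ u) :
    (g + 3 * δ - 2 * u - 2 * u ^ 2) * (1 / (g + δ) ^ 3) ≤ 1 / (g + u + u ^ 2) ^ 2 := by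
  have h0 : 0 < g + δ := by linarith
  have hy : 0 < g + u + u ^ 2 := by positivity
  rw [mul_one_div, div_le_div_iff₀ (by positivity) (by positivity)]
  have e : 1 * (g + δ) ^ 3 - (g + 3 * δ - 2 * u - 2 * u ^ 2) * (g + u + u ^ 2) ^ 2
      = ((g + δ) - (g + u + u ^ 2)) ^ 2 * ((g + δ) + 2 * (g + u + u ^ 2)) := by ring
  have : 0 ≤ ((g + δ) - (g + u + u ^ 2)) ^ 2 * ((g + δ) + 2 * (g + u + u ^ 2)) := by positivity
  linarith

/-- the fibre function -/
noncomputable def fibg (g ε S : ℝ) (x : ℝ) : ℝ :=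
  (1 - x) * (if x < (1 - x) * ε then
      (x / ((1 - x) * ε)) * ((1 - x) * S) / (g * (1 - x) ^ 2 + x) ^ 2 else 0)

theorem fibg_meas (g ε S : ℝ) : Measurable (fibg g ε S) := by
  unfold fibg
  refine (by fun_prop : Measurable fun x : ℝ => 1 - x).mul
    (Measurable.ite (measurableSet_lt measurable_id (by fun_prop)) ?_ measurable_const)
  exact ((measurable_id.div (by fun_prop)).mul (by fun_prop)).div
    (by fun_prop)

theorem fibg_bd {g ε S : ℝ} (hg : 3 / 4 ≤ g) (hS : 0 ≤ S) {x : ℝ}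
    (hx : x ∈ Icc (0 : ℝ) 1) : 0 ≤ fibg g ε S x ∧ fibg g ε S x ≤ 4 * S := by
  obtain ⟨a1, a2⟩ := hx
  unfold fibg
  split_ifs with hc
  · have h6 : 0 < 1 - x := by
      rcases eq_or_lt_of_le a2 with h | h
      · rw [h] at hc
        norm_num at hc
      · linarith
    have hL : 0 < (1 - x) * ε := lt_of_le_of_lt a1 hc
    have n0 : 0 ≤ x / ((1 - x) * ε) := div_nonneg a1 hL.le
    have n1 : x / ((1 - x) * ε) ≤ 1 := (div_le_one hL).2 hc.le
    have m1 : (1 / 2 : ℝ) ≤ g * (1 - x) ^ 2 + x := by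
      have := mul_le_mul_of_nonneg_right hg (sq_nonneg (1 - x))
      nlinarith [sq_nonneg (x - 1 / 3)]
    have m2 : (1 / 4 : ℝ) ≤ (g * (1 - x) ^ 2 + x) ^ 2 := by nlinarith
    have p1 : 0 ≤ (x / ((1 - x) * ε)) * ((1 - x) * S) :=
      mul_nonneg n0 (mul_nonneg h6.le hS)
    have p2 : (x / ((1 - x) * ε)) * ((1 - x) * S) ≤ S := by
      have q1 : (1 - x) * S ≤ 1 * S := mul_le_mul_of_nonneg_right (by linarith) hS
      have q2 := mul_le_mul_of_nonneg_right n1 (mul_nonneg h6.le hS)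
      linarith
    have p3 : (x / ((1 - x) * ε)) * ((1 - x) * S) / (g * (1 - x) ^ 2 + x) ^ 2 ≤ 4 * S := by
      rw [div_le_iff₀ (by positivity)]
      have := mul_le_mul_of_nonneg_left m2 (show 0 ≤ 4 * S by positivity)
      linarith
    have p4 : 0 ≤ (x / ((1 - x) * ε)) * ((1 - x) * S) / (g * (1 - x) ^ 2 + x) ^ 2 := by
      positivity
    refine ⟨mul_nonneg h6.le p4, ?_⟩
    have := mul_le_mul_of_nonneg_right (show 1 - x ≤ 1 by linarith) p4
    linarith
  · simp only [mul_zero, le_refl, true_and]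
    positivity

theorem fibg_int {g ε S : ℝ} (hg : 3 / 4 ≤ g) (hS : 0 ≤ S) :
    IntegrableOn (fibg g ε S) (Icc (0 : ℝ) 1) := by
  refine Measure.integrableOn_of_bounded (M := 4 * S) (by simp)
    (fibg_meas g ε S).aestronglyMeasurable ?_
  filter_upwards [ae_restrict_mem measurableSet_Icc] with x hx
  obtain ⟨b1, b2⟩ := fibg_bd (ε := ε) hg hS hx
  rw [Real.norm_eq_abs, abs_of_nonneg b1]
  exact b2

/-- **fibre integral, lower bound** -/
theorem fibg_low {g ε e S δ : ℝ} (hg : 3 / 4 ≤ g) (hεe : ε ≤ e) (hS : 0 ≤ S) (hδ : 0 ≤ δ)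
    (he : 0 ≤ e) :
    S * (((g + 3 * δ) * (ε / 2) - (2 / 3 + e / 2) * ε ^ 2) * (1 / (g + δ) ^ 3))
      ≤ ∫ x in Icc (0 : ℝ) 1, fibg g ε S x := by
  have hg0 : 0 < g := by linarith
  have hgd : 0 < g + δ := by linarith
  have hG3 : 0 ≤ 1 / (g + δ) ^ 3 := by positivity
  rcases le_or_gt ε 0 with hε | hεp
  · have h0 : 0 ≤ ∫ x in Icc (0 : ℝ) 1, fibg g ε S x :=
      setIntegral_nonneg measurableSet_Icc fun x hx => (fibg_bd hg hS hx).1
    refine le_trans ?_ h0
    refine mul_nonpos_of_nonneg_of_nonpos hS (mul_nonpos_of_nonpos_of_nonneg ?_ hG3)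
    have h1 : 0 ≤ g + 3 * δ := by linarith
    have h2 : 0 ≤ (2 / 3 + e / 2) * ε ^ 2 := by positivity
    have h3 := mul_nonneg h1 (show 0 ≤ -(ε / 2) by linarith)
    linarith
  set G : ℝ := g + 3 * δ with hG
  set xe : ℝ := ε / (1 + ε) with hxe
  have hxe0 : 0 ≤ xe := by positivity
  have hxe1 : xe < 1 := by
    rw [hxe, div_lt_one (by positivity)]
    linarith
  have hxee : xe / (1 - xe) = ε := by
    rw [hxe]
    field_simp
    ring
  have hder : ∀ x ∈ uIcc 0 xe, HasDerivAt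
      (fun x : ℝ => (S * (G * ((x / (1 - x)) ^ 2 / (2 * ε)) - 2 * ((x / (1 - x)) ^ 3 / (3 * ε))
        - (x / (1 - x)) ^ 4 / (2 * ε))) * (1 / (g + δ) ^ 3))
      (S * (x / (1 - x) / ε) * (G - 2 * (x / (1 - x)) - 2 * (x / (1 - x)) ^ 2) / (1 - x) ^ 2
        * (1 / (g + δ) ^ 3)) x := by
    intro x hx
    rw [uIcc_of_le hxe0] at hx
    have h1 : 0 < 1 - x := by linarith [hx.2]
    have hu : HasDerivAt (fun x : ℝ => x / (1 - x)) (1 / (1 - x) ^ 2) x := by
      have := (hasDerivAt_id x).div ((hasDerivAt_id x).const_sub 1) h1.ne'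
      refine this.congr_deriv ?_
      simp only [id]
      field_simp
      ring
    have h2 := ((((((hu.pow 2).div_const (2 * ε)).const_mul G).sub
      (((hu.pow 3).div_const (3 * ε)).const_mul 2)).sub
      ((hu.pow 4).div_const (2 * ε))).const_mul S).mul_const (1 / (g + δ) ^ 3)
    refine h2.congr_deriv ?_
    simp only [Nat.cast_ofNat, show (2 : ℕ) - 1 = 1 from rfl, show (3 : ℕ) - 1 = 2 from rfl,
      show (4 : ℕ) - 1 = 3 from rfl, pow_one]
    field_simp
    ring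
  have hne : ∀ x ∈ Icc 0 xe, (1 - x) ≠ 0 := fun x hx => by
    have : 0 < 1 - x := by linarith [hx.2]
    exact this.ne'
  have hcu : ContinuousOn (fun x : ℝ => x / (1 - x)) (Icc 0 xe) :=
    continuousOn_id.div (by fun_prop) hne
  have hco : ContinuousOn (fun x : ℝ => S * (x / (1 - x) / ε)
      * (G - 2 * (x / (1 - x)) - 2 * (x / (1 - x)) ^ 2) / (1 - x) ^ 2
        * (1 / (g + δ) ^ 3)) (Icc 0 xe) := by
    refine ContinuousOn.mul (ContinuousOn.div ?_ (by fun_prop) fun x hx => pow_ne_zero 2 (hne x hx))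
      continuousOn_const
    refine ContinuousOn.mul (continuousOn_const.mul (hcu.div_const ε)) ?_
    exact (continuousOn_const.sub (continuousOn_const.mul hcu)).sub
      (continuousOn_const.mul (hcu.pow 2))
  have hcont : ContinuousOn (fun x : ℝ => S * (x / (1 - x) / ε)
      * (G - 2 * (x / (1 - x)) - 2 * (x / (1 - x)) ^ 2) / (1 - x) ^ 2
        * (1 / (g + δ) ^ 3)) (uIcc 0 xe) := by
    rw [uIcc_of_le hxe0]
    exact hco
  have hint := intervalIntegral.integral_eq_sub_of_hasDerivAt hder hcont.intervalIntegrable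
  have hval : ∫ x in (0 : ℝ)..xe, S * (x / (1 - x) / ε)
      * (G - 2 * (x / (1 - x)) - 2 * (x / (1 - x)) ^ 2) / (1 - x) ^ 2 * (1 / (g + δ) ^ 3)
      = S * (G * (ε / 2) - 2 / 3 * ε ^ 2 - ε ^ 3 / 2) * (1 / (g + δ) ^ 3) := by
    rw [hint, hxee]
    have e0 : (0 : ℝ) / (1 - 0) = 0 := by simp
    rw [e0]
    field_simp
    ring
  have hfin : S * ((G * (ε / 2) - (2 / 3 + e / 2) * ε ^ 2) * (1 / (g + δ) ^ 3))
      ≤ S * (G * (ε / 2) - 2 / 3 * ε ^ 2 - ε ^ 3 / 2) * (1 / (g + δ) ^ 3) := by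
    rw [mul_assoc S]
    refine mul_le_mul_of_nonneg_left (mul_le_mul_of_nonneg_right ?_ hG3) hS
    have h3 := mul_le_mul_of_nonneg_right hεe (sq_nonneg ε)
    nlinarith
  refine hfin.trans ?_
  rw [← hval, intervalIntegral.integral_of_le hxe0, integral_Ioc_eq_integral_Ioo,
    ← integral_indicator measurableSet_Ioo, ← integral_indicator measurableSet_Icc]
  refine integral_mono ((integrable_indicator_iff measurableSet_Ioo).2
      ((hco.integrableOn_compact isCompact_Icc).mono_set Ioo_subset_Icc_self))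
      ((integrable_indicator_iff measurableSet_Icc).2 (fibg_int hg hS)) fun x => ?_
  by_cases h1 : x ∈ Icc (0 : ℝ) 1
  · rw [indicator_of_mem h1]
    by_cases h3 : x ∈ Ioo (0 : ℝ) xe
    · rw [indicator_of_mem h3]
      have h6 : 0 < 1 - x := by linarith [h3.2]
      have hu0 : 0 ≤ x / (1 - x) := div_nonneg h1.1 h6.le
      have hlt : x < (1 - x) * ε := by
        have := h3.2
        rw [hxe, lt_div_iff₀ (by positivity)] at this
        nlinarith
      have hP := ptw_tan (u := x / (1 - x)) hg0 hδ hu0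
      rw [← hG] at hP
      have hm : (g * (1 - x) ^ 2 + x) ^ 2
          = (1 - x) ^ 4 * (g + x / (1 - x) + (x / (1 - x)) ^ 2) ^ 2 := by
        field_simp
        ring
      have h8 : 0 ≤ (x / (1 - x) / ε) * S := mul_nonneg (div_nonneg hu0 hεp.le) hS
      have hne' : 0 < (g + x / (1 - x) + (x / (1 - x)) ^ 2) := by positivity
      unfold fibg
      rw [if_pos hlt]
      calc S * (x / (1 - x) / ε) * (G - 2 * (x / (1 - x)) - 2 * (x / (1 - x)) ^ 2)
              / (1 - x) ^ 2 * (1 / (g + δ) ^ 3)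
          = ((x / (1 - x) / ε) * S) / (1 - x) ^ 2
              * ((G - 2 * (x / (1 - x)) - 2 * (x / (1 - x)) ^ 2) * (1 / (g + δ) ^ 3)) := by ring
        _ ≤ ((x / (1 - x) / ε) * S) / (1 - x) ^ 2
              * (1 / (g + x / (1 - x) + (x / (1 - x)) ^ 2) ^ 2) :=
            mul_le_mul_of_nonneg_left hP (by positivity)
        _ = (1 - x) * ((x / ((1 - x) * ε)) * ((1 - x) * S)
              / (g * (1 - x) ^ 2 + x) ^ 2) := by
            rw [hm, div_div x (1 - x) ε]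
            field_simp
    · rw [indicator_of_notMem h3]
      exact (fibg_bd hg hS h1).1
  · rw [indicator_of_notMem h1]
    by_cases h3 : x ∈ Ioo (0 : ℝ) xe
    · exact absurd ⟨h3.1.le, by linarith [h3.2]⟩ h1
    · rw [indicator_of_notMem h3]

/-! ### the outer integral -/

/-- lower bound of the first order weight, tangent at `σ = 1/5` -/
theorem kq1 {σ : ℝ} (h0 : 0 ≤ σ) (h1 : σ ≤ 1 / 4) :
    0.78 + 3.8 * σ ≤ (1 - σ + 3 * 0.06) * (1 / (1 - σ + 0.06) ^ 3) := by
  have hg : 0 < 1 - σ + 0.06 := by linarith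
  rw [mul_one_div, le_div_iff₀ (by positivity)]
  nlinarith [mul_nonneg h0 (sub_nonneg.2 h1), mul_nonneg (mul_nonneg h0 h0) (sub_nonneg.2 h1),
    sq_nonneg (σ - 1 / 5), mul_nonneg h0 (sq_nonneg (σ - 1 / 5)),
    mul_nonneg (sub_nonneg.2 h1) (sq_nonneg (σ - 1 / 5)),
    mul_nonneg (mul_nonneg h0 (sub_nonneg.2 h1)) (sq_nonneg (σ - 1 / 5))]

/-- upper bound of the second order weight, chord -/
theorem kq2 {σ : ℝ} (h0 : 0 ≤ σ) (h1 : σ ≤ 1 / 4) :
    (2 / 3 + 0.2 / 2) * (1 / (1 - σ + 0.06) ^ 3) ≤ 0.6438 + 3.1957 * σ := by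
  have hg : 0 < 1 - σ + 0.06 := by linarith
  rw [mul_one_div, div_le_iff₀ (by positivity)]
  nlinarith [mul_nonneg h0 (sub_nonneg.2 h1), mul_nonneg (mul_nonneg h0 h0) (sub_nonneg.2 h1),
    mul_nonneg (mul_nonneg (mul_nonneg h0 h0) h0) (sub_nonneg.2 h1)]

end Helper72.R3
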